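import Pool.Agent.Lib.MP_9cfc0a_nt.SD.Defs
import Pool.Agent.Lib.MP_9cfc0a_nt.EMFinal

set_option autoImplicit false

/-! Shared definitions of the campaign SW (MP_9cfc0a, EveryWindow). `s` = the logarithm of the centre of the window, `w` = half of its
logarithmic length. -/

namespace Pool.Agent.SW

open Complex MeasureTheory
open Pool.Agent.SK
open Pool.Agent.EM (psi)

/-- The kernel of the two blocks `[0, w]`, `[s, s + w]` on `t ≥ 0`. -/
noncomputable def kk (w s t : ℝ) : ℝ := 4 * max 0 (w - t) + 2 * max 0 (w - |t - s|)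

/-- The energy of a character in the two blocks. -/
noncomputable def TB {q : ℕ} (χ : DirichletCharacter ℂ q) (w s : ℝ) : ℝ :=
  ∫ t in (0 : ℝ)..(s + w), kk w s t * ‖ff χ t‖ ^ 2

/-- The same for a function of `x = e^t`. -/
noncomputable def BE (F : ℝ → ℝ) (w s : ℝ) : ℝ :=
  ∫ x in Set.Ioc 1 (Real.exp (s + w)), kk w s (Real.log x) * (F x / x ^ 2)

/-- The near part. -/
noncomputable def NE (F : ℝ → ℝ) (w : ℝ) : ℝ :=
  ∫ x in Set.Ioc 1 (Real.exp w), (w - Real.log x) * (F x / x ^ 2)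

/-- The window `[e^(s - w), e^(s + w)]`. -/
noncomputable def FE (F : ℝ → ℝ) (w s : ℝ) : ℝ :=
  ∫ x in Set.Ioc (Real.exp (s - w)) (Real.exp (s + w)), (w - |Real.log x - s|) * (F x / x ^ 2)

/-- `V_c(x; q)`: half the sum of `(ψ(x; q, a) - ψ(x; q, ca))²` over the reduced residues `1 ≤ a ≤ q`. -/
noncomputable def Vc (x : ℝ) (q c : ℕ) : ℝ :=
  1 / 2 * ∑ a ∈ (Finset.Icc 1 q).filter (fun a => Nat.Coprime a q), (psi x q a - psi x q (c * a)) ^ 2

/-- The weight `|1 - χ(c)|²/2`. -/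
noncomputable def om {q : ℕ} (c : ℕ) (χ : DirichletCharacter ℂ q) : ℝ := 1 / 2 * ‖1 - χ c‖ ^ 2

end Pool.Agent.SW
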