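import Pool.Agent.Lib.MP_9cfc0a_nt.SW.KA1

set_option autoImplicit false

/-! Task KA (helper79): the key lemma for two blocks. -/

namespace Pool.Agent.SW

open Complex MeasureTheory

/-- the double integral of a function of the difference over a square -/
theorem KA_dbl (w : ℝ) (hw : 0 ≤ w) (F : ℝ → ℝ) (hF : Continuous F) :
    ∫ u in (0 : ℝ)..w, ∫ u' in (0 : ℝ)..w, F (u - u') = ∫ t in (-w)..w, (w - |t|) * F t := by
  have hI : ∀ a b : ℝ, IntervalIntegrable F volume a b := fun a b => hF.intervalIntegrable a b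
  obtain ⟨Φ, hΦ⟩ : ∃ Φ : ℝ → ℝ, Φ = fun s => ∫ t in (0 : ℝ)..s, F t := ⟨_, rfl⟩
  have hΦd : ∀ s, HasDerivAt Φ (F s) s := fun s => by
    rw [hΦ]
    exact intervalIntegral.integral_hasDerivAt_right (hI 0 s) hF.aestronglyMeasurable.stronglyMeasurableAtFilter
      hF.continuousAt
  have hΦc : Continuous Φ := continuous_iff_continuousAt.2 fun s => (hΦd s).continuousAt
  have h0 : Φ 0 = 0 := by rw [hΦ]; simp
  have hin : ∀ s ∈ Set.uIcc (0 : ℝ) w, ∫ s' in (0 : ℝ)..w, F (s - s') = Φ s - Φ (s - w) := by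
    intro s _
    rw [intervalIntegral.integral_comp_sub_left (fun t => F t) s, sub_zero, hΦ]
    exact (intervalIntegral.integral_interval_sub_left (hI _ _) (hI _ _)).symm
  rw [intervalIntegral.integral_congr hin]
  have hΦI : IntervalIntegrable Φ volume 0 w := hΦc.intervalIntegrable _ _
  have hΦI2 : IntervalIntegrable (fun s => Φ (s - w)) volume 0 w :=
    (hΦc.comp (continuous_id.sub continuous_const)).intervalIntegrable _ _
  rw [intervalIntegral.integral_sub hΦI hΦI2, intervalIntegral.integral_comp_sub_right (fun s => Φ s) w]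
  simp only [sub_self, zero_sub]
  have hp1 : ∫ s in (0 : ℝ)..w, Φ s = ∫ t in (0 : ℝ)..w, (w - t) * F t := by
    have h1 := intervalIntegral.integral_mul_deriv_eq_deriv_mul (a := 0) (b := w) (u := fun t => w - t) (v := Φ)
      (u' := fun _ => -1) (v' := F)
      (fun x _ => by simpa using (hasDerivAt_id x).const_sub w) (fun x _ => hΦd x)
      (by simp) (hI 0 w)
    rw [h1, h0]
    simp
  have hp2 : ∫ s in (-w)..0, Φ s = -∫ t in (-w)..0, (w + t) * F t := by
    have h1 := intervalIntegral.integral_mul_deriv_eq_deriv_mul (a := -w) (b := 0) (u := fun t => w + t) (v := Φ)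
      (u' := fun _ => 1) (v' := F)
      (fun x _ => by simpa using (hasDerivAt_id x).const_add w) (fun x _ => hΦd x)
      (by simp) (hI (-w) 0)
    rw [h1, h0]
    simp
  rw [hp1, hp2, sub_neg_eq_add, add_comm]
  have hc : Continuous fun t => (w - |t|) * F t := (continuous_const.sub continuous_abs).mul hF
  rw [← intervalIntegral.integral_add_adjacent_intervals (hc.intervalIntegrable (-w) 0) (hc.intervalIntegrable 0 w)]
  congr 1
  · refine intervalIntegral.integral_congr fun t ht => ?_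
    rw [Set.uIcc_of_le (by linarith)] at ht
    show (w + t) * F t = (w - |t|) * F t
    rw [abs_of_nonpos ht.2, sub_neg_eq_add]
  · refine intervalIntegral.integral_congr fun t ht => ?_
    rw [Set.uIcc_of_le hw] at ht
    show (w - t) * F t = (w - |t|) * F t
    rw [abs_of_nonneg ht.1]

/-- The measure of the two blocks. -/
noncomputable def KA_mu (w s : ℝ) : Measure ℝ :=
  volume.restrict (Set.Ioc 0 w) + volume.restrict (Set.Ioc s (s + w))

theorem KA_mu_fin (w s : ℝ) : IsFiniteMeasure (KA_mu w s) := by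
  unfold KA_mu
  infer_instance

theorem KA_mu_supp (w s : ℝ) (hw : 0 < w) (hws : w ≤ s) : KA_mu w s (Set.Icc 0 (s + w))ᶜ = 0 := by
  unfold KA_mu
  rw [Measure.add_apply, Measure.restrict_apply measurableSet_Icc.compl,
    Measure.restrict_apply measurableSet_Icc.compl]
  have h1 : (Set.Icc 0 (s + w))ᶜ ∩ Set.Ioc 0 w = ∅ := by
    ext x
    simp only [Set.mem_inter_iff, Set.mem_compl_iff, Set.mem_Icc, Set.mem_Ioc, Set.mem_empty_iff_false, iff_false]
    rintro ⟨h, h2, h3⟩
    exact h ⟨h2.le, by linarith⟩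
  have h2 : (Set.Icc 0 (s + w))ᶜ ∩ Set.Ioc s (s + w) = ∅ := by
    ext x
    simp only [Set.mem_inter_iff, Set.mem_compl_iff, Set.mem_Icc, Set.mem_Ioc, Set.mem_empty_iff_false, iff_false]
    rintro ⟨h, h2, h3⟩
    exact h ⟨by linarith, h3⟩
  rw [h1, h2, measure_empty, add_zero]

theorem KA_mu_int (w s : ℝ) (hw : 0 < w) (f : ℝ → ℝ) (hf : Continuous f) :
    ∫ u, f u ∂(KA_mu w s) = (∫ u in (0 : ℝ)..w, f u) + ∫ u in s..(s + w), f u := by
  unfold KA_mu
  rw [integral_add_measure hf.integrableOn_Ioc hf.integrableOn_Ioc,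
    intervalIntegral.integral_of_le hw.le, intervalIntegral.integral_of_le (by linarith)]

theorem KA_mu_univ (w s : ℝ) (hw : 0 < w) : (KA_mu w s).real Set.univ = 2 * w := by
  have := KA_mu_fin w s
  have h := KA_mu_int w s hw (fun _ => 1) continuous_const
  rw [integral_const, smul_eq_mul, mul_one] at h
  rw [h]
  simp only [intervalIntegral.integral_const, smul_eq_mul]
  ring

/-- the double integral over the two blocks -/
theorem KA_mu_dbl (w s : ℝ) (hw : 0 < w) (hws : w ≤ s) (F : ℝ → ℝ) (hF : Continuous F)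
    (hs : ∀ t, 0 ≤ t → t ≤ s + w → F (-t) = F t) :
    ∫ u, ∫ u', F (u - u') ∂(KA_mu w s) ∂(KA_mu w s) =
      4 * (∫ t in (0 : ℝ)..w, (w - t) * F t) + 2 * ∫ t in (s - w)..(s + w), (w - |t - s|) * F t := by
  have hin : ∀ u, ∫ u', F (u - u') ∂(KA_mu w s) =
      (∫ u' in (0 : ℝ)..w, F (u - u')) + ∫ u' in (0 : ℝ)..w, F (u - u' - s) := by
    intro u
    rw [KA_mu_int w s hw (fun u' => F (u - u')) (by fun_prop)]
    congr 1
    have h1 := intervalIntegral.integral_comp_add_right (a := 0) (b := w) (fun u' => F (u - u')) s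
    rw [zero_add, add_comm w s] at h1
    rw [← h1]
    refine intervalIntegral.integral_congr fun t _ => ?_
    show F (u - (t + s)) = F (u - t - s)
    congr 1
    ring
  have hc1 : Continuous fun u => ∫ u' in (0 : ℝ)..w, F (u - u') :=
    intervalIntegral.continuous_parametric_intervalIntegral_of_continuous' (f := fun s s' => F (s - s'))
      (by fun_prop) 0 w
  have hc2 : Continuous fun u => ∫ u' in (0 : ℝ)..w, F (u - u' - s) :=
    intervalIntegral.continuous_parametric_intervalIntegral_of_continuous' (f := fun u u' => F (u - u' - s))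
      (by fun_prop) 0 w
  simp_rw [hin]
  rw [KA_mu_int w s hw (fun u => (∫ u' in (0 : ℝ)..w, F (u - u')) + ∫ u' in (0 : ℝ)..w, F (u - u' - s))
    (hc1.add hc2)]
  have hI : ∀ (f : ℝ → ℝ), Continuous f → ∀ a b : ℝ, IntervalIntegrable f volume a b :=
    fun f hf a b => hf.intervalIntegrable a b
  have e1 : ∫ u in s..(s + w), ((∫ u' in (0 : ℝ)..w, F (u - u')) + ∫ u' in (0 : ℝ)..w, F (u - u' - s)) =
      ∫ u in (0 : ℝ)..w, ((∫ u' in (0 : ℝ)..w, F (u - u' + s)) + ∫ u' in (0 : ℝ)..w, F (u - u')) := by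
    have h1 := intervalIntegral.integral_comp_add_right (a := 0) (b := w)
      (fun u => (∫ u' in (0 : ℝ)..w, F (u - u')) + ∫ u' in (0 : ℝ)..w, F (u - u' - s)) s
    rw [zero_add, add_comm w s] at h1
    rw [← h1]
    refine intervalIntegral.integral_congr fun t _ => ?_
    show (∫ u' in (0 : ℝ)..w, F (t + s - u')) + (∫ u' in (0 : ℝ)..w, F (t + s - u' - s)) = _
    congr 1
    · refine intervalIntegral.integral_congr fun v _ => ?_
      show F (t + s - v) = F (t - v + s)
      congr 1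
      ring
    · refine intervalIntegral.integral_congr fun v _ => ?_
      show F (t + s - v - s) = F (t - v)
      congr 1
      ring
  have hc3 : Continuous fun u => ∫ u' in (0 : ℝ)..w, F (u - u' + s) :=
    intervalIntegral.continuous_parametric_intervalIntegral_of_continuous' (f := fun u u' => F (u - u' + s))
      (by fun_prop) 0 w
  rw [e1, intervalIntegral.integral_add (hI _ hc1 _ _) (hI _ hc2 _ _),
    intervalIntegral.integral_add (hI _ hc3 _ _) (hI _ hc1 _ _),
    KA_dbl w hw.le F hF, KA_dbl w hw.le (fun t => F (t - s)) (by fun_prop),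
    KA_dbl w hw.le (fun t => F (t + s)) (by fun_prop)]
  have hcw : Continuous fun t : ℝ => w - |t| := continuous_const.sub continuous_abs
  -- the diagonal blocks
  have e2 : ∫ t in (-w)..w, (w - |t|) * F t = 2 * ∫ t in (0 : ℝ)..w, (w - t) * F t := by
    have hc : Continuous fun t => (w - |t|) * F t := hcw.mul hF
    rw [← intervalIntegral.integral_add_adjacent_intervals (hI _ hc (-w) 0) (hI _ hc 0 w)]
    have h1 : ∫ t in (-w)..0, (w - |t|) * F t = ∫ t in (0 : ℝ)..w, (w - t) * F t := by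
      have h2 := intervalIntegral.integral_comp_neg (a := 0) (b := w) (fun t => (w - |t|) * F t)
      rw [neg_zero] at h2
      rw [← h2]
      refine intervalIntegral.integral_congr fun t ht => ?_
      rw [Set.uIcc_of_le hw.le] at ht
      show (w - |(-t)|) * F (-t) = (w - t) * F t
      rw [abs_neg, abs_of_nonneg ht.1, hs t ht.1 (by linarith [ht.2])]
    have h2 : ∫ t in (0 : ℝ)..w, (w - |t|) * F t = ∫ t in (0 : ℝ)..w, (w - t) * F t := by
      refine intervalIntegral.integral_congr fun t ht => ?_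
      rw [Set.uIcc_of_le hw.le] at ht
      show (w - |t|) * F t = (w - t) * F t
      rw [abs_of_nonneg ht.1]
    rw [h1, h2]
    ring
  -- the off diagonal blocks
  have e3 : ∫ t in (-w)..w, (w - |t|) * F (t + s) = ∫ t in (s - w)..(s + w), (w - |t - s|) * F t := by
    have h1 := intervalIntegral.integral_comp_add_right (a := -w) (b := w) (fun t => (w - |t - s|) * F t) s
    rw [show -w + s = s - w by ring, add_comm w s] at h1
    rw [← h1]
    refine intervalIntegral.integral_congr fun t _ => ?_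
    show (w - |t|) * F (t + s) = (w - |t + s - s|) * F (t + s)
    rw [add_sub_cancel_right]
  have e4 : ∫ t in (-w)..w, (w - |t|) * F (t - s) = ∫ t in (-w)..w, (w - |t|) * F (t + s) := by
    have h1 := intervalIntegral.integral_comp_neg (a := -w) (b := w) (fun t => (w - |t|) * F (t - s))
    rw [neg_neg] at h1
    rw [← h1]
    refine intervalIntegral.integral_congr fun t ht => ?_
    rw [Set.uIcc_of_le (by linarith)] at ht
    show (w - |(-t)|) * F (-t - s) = (w - |t|) * F (t + s)
    rw [abs_neg, show -t - s = -(t + s) by ring, hs (t + s) (by linarith [ht.1]) (by linarith [ht.2])]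
  rw [e4, e3, e2]
  ring

theorem key_blocks (w s η : ℝ) (hw : 0 < w) (hws : w ≤ s) (S : Finset ℂ)
    (hS : ∀ z ∈ S, -((starRingEnd ℂ) z) ∈ S) (m : ℂ → ℝ) (hm : ∀ z ∈ S, m z = 1 ∨ 2 ≤ m z)
    (hms : ∀ z, m (-((starRingEnd ℂ) z)) = m z) (c : ℂ → ℂ)
    (hc : ∀ z ∈ S, z.re = 0 → m z = 1 → 0 ≤ (c z).re ∧ (c z).re ≤ 1)
    (G : ℝ → ℂ) (hG : Continuous G) (hE : ∀ t : ℝ, |t| ≤ s + w → ‖G t - ∑ z ∈ S, c z * Complex.exp (z * t)‖ ≤ η)
    (hsym : ∀ t : ℝ, 0 ≤ t → t ≤ s + w → ‖G (-t)‖ = ‖G t‖) :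
    4 * w ^ 2 * (2 * (2 * (∑ z ∈ S, c z).re - ∑ z ∈ S, m z) -
      ((S.filter (fun z => z.re = 0 ∧ m z = 1)).card : ℝ) - 4 * η * (S.card : ℝ)) ≤
      4 * (∫ t in (0 : ℝ)..w, (w - t) * ‖G t‖ ^ 2) + 2 * ∫ t in (s - w)..(s + w), (w - |t - s|) * ‖G t‖ ^ 2 := by
  have := KA_mu_fin w s
  have h1 := KA_key_mult (KA_mu w s) (s + w) (by linarith) (KA_mu_supp w s hw hws)
    (by rw [KA_mu_univ w s hw]; linarith) η S hS m hm hms c hc G hG hE
  rw [KA_mu_univ w s hw] at h1
  have h2 := KA_mu_dbl w s hw hws (fun t => ‖G t‖ ^ 2) (by fun_prop) (fun t h3 h4 => by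
    show ‖G (-t)‖ ^ 2 = ‖G t‖ ^ 2
    rw [hsym t h3 h4])
  have h3 : (2 * w) ^ 2 = 4 * w ^ 2 := by ring
  rw [h3] at h1
  exact h1.trans (le_of_eq h2)

end Pool.Agent.SW
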