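import Pool.Agent.Lib.MP_9cfc0a_nt.Mg.G014
import Pool.Agent.Lib.MP_9cfc0a_nt.SW.KA
import Pool.Agent.Lib.MP_9cfc0a_nt.Mg.G057

set_option autoImplicit false

/-! Task GL: the lower bound for `Gu` on two blocks. -/

namespace Pool.Agent.SW

open Complex MeasureTheory
open Pool.Agent.SK Pool.Agent.SD
open Pool.Agent.SO (prim NN)

/-- GL. PROOF. As `G_lower2` in SD/LB.lean (copy it), with `key_blocks` (`Y := s + w` in the hypotheses `hYY`, `hs1`; `out_band` with `Y := s + w`) in place of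
`key_mult`, and `kk_int` for the right side. The numbers are the same: only the factor `Y/2` is now `4 w²`. -/
theorem G_lower3 (r : ℕ) [NeZero r] (hr : 3 ≤ r) (χ : DirichletCharacter ℂ r) (hχ : χ ∈ prim r)
    (T W C₀ Y₀ T₁ u h η δ₀ N w s p : ℝ) (hW : 1 ≤ W) (hw : 0 < w) (hws : w ≤ s) (hYY : s + w ≤ Y₀) (hh : 0 ≤ h)
    (hh1 : h ≤ 1) (hη : 0 ≤ η) (hη1 : η ≤ 1) (hδ0 : 0 ≤ δ₀) (hδ : ∀ z ∈ Z χ T, |z.re| ≤ δ₀) (hWδ : W ^ 2 * δ₀ ≤ 1)
    (hN : ∑ z ∈ Z χ T, mu χ z ≤ N) (hEF : EFp χ T W C₀ Y₀ T₁) (hC₀ : 0 ≤ C₀) (hu : |u| + h + 2 * η ≤ T₁)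
    (hp1 : ‖PU χ W (u - h) (u + h) 0‖ ≤ p) (hp2 : ‖PU χ W (u - h - 2 * η) (u + h + 2 * η) 0‖ ≤ p)
    (hp3 : p ≤ Real.log r)
    (hs1 : Real.log r * N * Real.exp (-(W ^ 2 * η ^ 2 / 2) + δ₀ * (s + w)) ≤ 1)
    (hs2 : N * Real.exp (-(W ^ 2 / 2)) ≤ 1) :
    4 * w ^ 2 * (2 * (h / Real.pi * Real.log r) - NU (GZ χ T) (h + η) u - 2 * η * Real.log r - 12 * p -
        20 * C₀ - 100) ≤
      ∫ t in (0 : ℝ)..(s + w), kk w s t * ‖Gu χ T W (u - h) (u + h) t‖ ^ 2 := by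
  have hw0 : 0 ≤ w := hw.le
  have hY : 0 < s + w := by linarith
  have hW0 : 0 < W := by linarith
  have hW2 : W ≤ W ^ 2 := by nlinarith
  set L : ℝ := Real.log r with hL
  have hL1 : 1 ≤ L := by
    rw [hL, Real.le_log_iff_exp_le (by positivity)]
    have : (3 : ℝ) ≤ r := by exact_mod_cast hr
    linarith [Real.exp_one_lt_d9]
  have hmu : ∀ z, 0 ≤ mu χ z := fun z => mu_nonneg r χ z
  have hN0 : 0 ≤ N := (Finset.sum_nonneg fun z _ => hmu z).trans hN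
  have hWδ1 : W * δ₀ ≤ 1 := (mul_le_mul_of_nonneg_right hW2 hδ0).trans hWδ
  have hδY : 0 ≤ δ₀ * (s + w) := by positivity
  set E : ℝ := Real.exp (-(W ^ 2 * η ^ 2 / 2) + δ₀ * (s + w)) with hE
  have hE0 : 0 < E := Real.exp_pos _
  have heE : Real.exp (-(W ^ 2 * η ^ 2 / 2)) ≤ E := by
    apply Real.exp_le_exp.mpr
    linarith
  set σ : ℝ := N * E with hs
  have hs0 : 0 ≤ σ := by positivity
  have hNe : N * Real.exp (-(W ^ 2 * η ^ 2 / 2)) ≤ σ := mul_le_mul_of_nonneg_left heE hN0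
  have hsL : σ * L ≤ 1 := by
    calc σ * L = L * N * E := by rw [hs]; ring
      _ ≤ 1 := hs1
  have hs1' : σ ≤ 1 := by nlinarith
  rw [NU_eq r χ T (h + η) u]
  set S := (Z χ T).filter (fun w => |w.im - u| ≤ h + η) with hS
  set c : ℂ → ℂ := fun w => (mu χ w : ℂ) * FI W (u - h) (u + h) w with hc
  have hGc : Continuous fun t : ℝ => Gu χ T W (u - h) (u + h) t := by
    unfold Gu
    fun_prop
  have hSmem : ∀ z ∈ S, Lam χ z = 0 ∧ |z.im| ≤ T ∧ |z.im - u| ≤ h + η := by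
    intro z hz
    rw [hS, Finset.mem_filter] at hz
    have h2 := (mem_Z r (by omega) χ hχ T z).mp hz.1
    exact ⟨h2.1, h2.2, hz.2⟩
  have hSsym : ∀ z ∈ S, -((starRingEnd ℂ) z) ∈ S := by
    intro z hz
    obtain ⟨h1, h2, h3⟩ := hSmem z hz
    have him : (-((starRingEnd ℂ) z)).im = z.im := by simp
    rw [hS, Finset.mem_filter, mem_Z r (by omega) χ hχ, him]
    exact ⟨⟨(Lam_zero_symm (by omega) χ (prim_spec r (by omega) χ hχ).1 z).2 h1, h2⟩, h3⟩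
  have hkey := key_blocks w s σ hw hws S hSsym (mu χ)
    (fun z hz => mu_cases r (by omega) χ hχ z (hSmem z hz).1)
    (fun z => mu_symm r (by omega) χ hχ z) c
    (fun z _ hz0 hz1 => by
      have h1 := FI_line W (u - h) (u + h) hW0 (by linarith) z hz0
      have h2 : c z = FI W (u - h) (u + h) z := by
        show (mu χ z : ℂ) * FI W (u - h) (u + h) z = _
        rw [hz1]
        simp
      rw [h2]
      exact h1)
    (fun t => Gu χ T W (u - h) (u + h) t) hGc (fun t ht =>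
      out_band r χ T W u h η δ₀ N (s + w) hW hh hη hδ hWδ1 hN t ht) (fun t _ _ => by
      rw [Gu_neg r (by omega) χ hχ]
      exact RCLike.norm_conj _)
  have hint := kk_int w s hw0 hws (fun t => ‖Gu χ T W (u - h) (u + h) t‖ ^ 2) (by fun_prop)
  rw [hint]
  refine le_trans (mul_le_mul_of_nonneg_left ?_ (by positivity)) hkey
  have hcard : (S.card : ℝ) ≤ ∑ z ∈ S, mu χ z := by
    calc (S.card : ℝ) = ∑ _z ∈ S, (1 : ℝ) := by simp
      _ ≤ ∑ z ∈ S, mu χ z := by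
          refine Finset.sum_le_sum fun z hz => ?_
          exact one_le_mu r (by omega) χ hχ z (hSmem z hz).1
  have hY0 : 0 ≤ Y₀ := by linarith
  have hn := band_count r χ T W C₀ Y₀ T₁ u h η δ₀ N hW hY0 hh hη hδ hWδ hN hEF hu
  rw [← hS, ← hL] at hn
  have htr := trace_lower r χ T W C₀ Y₀ T₁ u h η δ₀ N hW hY0 hh hη hδ hWδ1 hN hEF (by linarith)
  rw [← hS, ← hL] at htr
  change _ ≤ (∑ z ∈ S, c z).re at htr
  set R : ℝ := (∑ z ∈ S, c z).re with hR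
  set n : ℝ := ∑ z ∈ S, mu χ z with hndef
  have hpi := Real.pi_gt_three
  have hp0 : 0 ≤ p := (norm_nonneg _).trans hp1
  have hn1 : n ≤ (h + 2 * η) / Real.pi * L + 2 * p + C₀ + 4 := by linarith
  have hq : (h + 2 * η) / Real.pi ≤ 1 := by
    rw [div_le_one (by linarith)]
    linarith
  have hq2 : (h + 2 * η) / Real.pi * L ≤ L := by nlinarith
  have hn2 : n ≤ 3 * L + C₀ + 4 := by linarith
  have hsn : σ * n ≤ 7 + C₀ := by
    calc σ * n ≤ σ * (3 * L + C₀ + 4) := mul_le_mul_of_nonneg_left hn2 hs0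
      _ = 3 * (σ * L) + σ * C₀ + 4 * σ := by ring
      _ ≤ 3 * 1 + 1 * C₀ + 4 * 1 := by gcongr
      _ = 7 + C₀ := by ring
  have hcs : σ * (S.card : ℝ) ≤ 7 + C₀ := (mul_le_mul_of_nonneg_left hcard hs0).trans hsn
  have h2η : 2 * η / Real.pi * L ≤ η * L := by
    have : 2 * η / Real.pi ≤ η := by
      rw [div_le_iff₀ (by linarith)]
      nlinarith
    nlinarith
  have hsum : (h + 2 * η) / Real.pi * L = h / Real.pi * L + 2 * η / Real.pi * L := by ring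
  have hR1 : h / Real.pi * L - 2 * p - C₀ - 1 ≤ R := by linarith
  have hn3 : n ≤ h / Real.pi * L + η * L + 2 * p + C₀ + 4 := by linarith
  have hcs4 : 4 * σ * (S.card : ℝ) ≤ 4 * (7 + C₀) := by
    have e : 4 * σ * (S.card : ℝ) = 4 * (σ * (S.card : ℝ)) := by ring
    rw [e]
    linarith
  linarith

end Pool.Agent.SW
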