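import Mathlib

set_option autoImplicit false

/-! Task NB2: numbers. -/

namespace Pool.Agent.SW

/-- NB2. Pure real numbers. The version of NB with the error `δ w² L` and without `B`. PROOF. As NB / `chain_final2` in SD/LC.lean. `H = h/(2π) ≤ 1/2`, `h/π = 2 H`, `L ≤ 4 w`, so `L² ≤ 4 w L`, `L³ ≤ 16 w² L`.
`(1+κ) X ≥ 4 w² (4 H L - N - 2 η L - 12 p - 20 C₀ - 100) - (4w+2A)((1+κ) L² H + (1+1/κ) 3 (P + C₀² A)) - 6 w (1+1/κ) 3 (1 + P + C₀² (s+w))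
≥ H (16 w² L - 4 w L²) - 4 w² N - E`, `p ≤ 2 √θ L`, `A ≤ √L`, `s + w ≤ L^(3/2)`:
`8 η w² L`, `96 √θ w² L`, `4 w² (20 C₀ + 100)`, `4 w κ L² H ≤ 8 κ w² L`, `2 A (1+κ) L² H ≤ 2 A L² ≤ 32 (A/L) w² L`, `6 w (1+1/κ) 3 (4 θ L² + C₀² A) `, `6 w (1+1/κ) 3 (1 + 4 θ L² + C₀² L^(3/2))` with `w L² ≤ 4 w² L`,
`w L^(3/2) ≤ 4 w² L^(1/2)`: together `E ≤ (δ/2) w² L` for small `κ`, then small `η`, `θ` (depending on `κ`, `δ`), then large `L`. If `X < H (16 w² L - 4 w L²) - 4 w² N - δ w² L =: R` then `R > 0`,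
`(1+κ) X < R + κ R` and `R ≤ 16 H w² L ≤ 8 w² L`, a contradiction if `8 κ ≤ δ/10`. -/
theorem chain_final4 (h δ : ℝ) (hh : 0 < h) (hh1 : h ≤ 1) (hδ : 0 < δ) : ∃ η κ θ : ℝ, 0 < η ∧ η ≤ 1 / 2 ∧
    η ≤ δ * h ∧ 0 < κ ∧ κ ≤ 1 ∧ 0 < θ ∧ θ ≤ 1 / 100 ∧ ∀ C₀ : ℝ, 0 ≤ C₀ → ∃ L₀ : ℝ, 1 ≤ L₀ ∧
    ∀ L w s A p P X G₁ G₂ N : ℝ,
      L₀ ≤ L → L ≤ 4 * w → w ≤ s → (s + w) ^ 2 ≤ L ^ 3 → 0 ≤ A → A ≤ w → A ^ 2 ≤ L → 0 ≤ p → p ^ 2 ≤ 4 * θ * L ^ 2 →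
      P ≤ 4 * θ * L ^ 2 → 0 ≤ X → 0 ≤ N →
      4 * w ^ 2 * (2 * (h / Real.pi * L) - N - 2 * η * L - 12 * p - 20 * C₀ - 100) ≤ G₁ + G₂ →
      G₁ ≤ (4 * w + 2 * A) * ((1 + κ) * (L ^ 2 * (h / (2 * Real.pi))) + (1 + 1 / κ) * 3 * (P + C₀ ^ 2 * A)) →
      G₂ ≤ (1 + κ) * X + 6 * w * ((1 + 1 / κ) * 3 * (1 + P + C₀ ^ 2 * (s + w))) →
      h / (2 * Real.pi) * (16 * (w ^ 2 * L) - 4 * (w * L ^ 2)) - 4 * w ^ 2 * N - δ * (w ^ 2 * L) ≤ X := by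
  obtain ⟨m, hm0, hm1, hmδ⟩ : ∃ m : ℝ, 0 < m ∧ m ≤ 1 ∧ m ≤ δ :=
    ⟨min 1 δ, lt_min one_pos hδ, min_le_left _ _, min_le_right _ _⟩
  obtain ⟨κ, hκ⟩ : ∃ κ : ℝ, κ = m / 100 := ⟨_, rfl⟩
  obtain ⟨σ, hσ⟩ : ∃ σ : ℝ, σ = κ * m / 10000 := ⟨_, rfl⟩
  have hκ0 : 0 < κ := by rw [hκ]; positivity
  have hκ1 : κ ≤ 1 / 100 := by rw [hκ]; linarith
  have hκδ : 8 * κ ≤ δ / 10 := by rw [hκ]; linarith
  have hσ0 : 0 < σ := by rw [hσ]; positivity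
  have hκm : κ * m ≤ 1 / 100 := by
    calc κ * m ≤ κ * 1 := mul_le_mul_of_nonneg_left hm1 hκ0.le
      _ ≤ 1 / 100 := by linarith
  have hκm2 : κ * m ≤ δ / 10 := by
    calc κ * m ≤ κ * 1 := mul_le_mul_of_nonneg_left hm1 hκ0.le
      _ ≤ δ / 10 := by linarith
  have hσ1 : σ ≤ 1 / 1000 := by rw [hσ]; linarith
  have hσδ : 96 * σ ≤ δ / 10 := by rw [hσ]; linarith
  have hmh : m * h ≤ δ * h := mul_le_mul_of_nonneg_right hmδ hh.le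
  have hmh0 : 0 < m * h := by positivity
  have hmh1 : m * h ≤ m := by
    calc m * h ≤ m * 1 := mul_le_mul_of_nonneg_left hh1 hm0.le
      _ = m := mul_one m
  refine ⟨m * h / 100, κ, σ ^ 2, by positivity, by linarith, by linarith, hκ0, by linarith, by positivity, ?_,
    fun C₀ hC => ?_⟩
  · calc σ ^ 2 = σ * σ := pow_two σ
      _ ≤ (1 / 1000) * (1 / 1000) := mul_le_mul hσ1 hσ1 hσ0.le (by norm_num)
      _ ≤ 1 / 100 := by norm_num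
  obtain ⟨W, hW⟩ : ∃ W : ℝ, W = (1 + 1 / κ) * 3 := ⟨_, rfl⟩
  have hW0 : 0 < W := by rw [hW]; positivity
  have hWκ : W * κ ≤ 6 := by
    have e : W * κ = 3 * κ + 3 := by
      rw [hW]
      field_simp
    rw [e]; linarith
  obtain ⟨K, hK⟩ : ∃ K : ℝ, K = 80 * C₀ + 432 + 24 * W + 30 * (W * C₀ ^ 2) := ⟨_, rfl⟩
  have hK0 : 0 < K := by rw [hK]; positivity
  have hKδ : 0 < 10 * K / δ := by positivity
  refine ⟨1 + (10 * K / δ) ^ 2, by linarith [sq_nonneg (10 * K / δ)], ?_⟩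
  intro L w s A p P X G₁ G₂ N hL hLw hws hsw hA0 hAw hAL hp hp2 hP hX hN hG hG1 hG2
  obtain ⟨r, hr⟩ : ∃ r : ℝ, r = Real.sqrt L := ⟨_, rfl⟩
  have hL1 : 1 ≤ L := by linarith [sq_nonneg (10 * K / δ)]
  have hr0 : 0 ≤ r := by rw [hr]; exact Real.sqrt_nonneg L
  have hrL : r ^ 2 = L := by rw [hr]; exact Real.sq_sqrt (by linarith)
  have hrK : 10 * K / δ ≤ r := by
    rw [hr]
    apply Real.le_sqrt_of_sq_le
    linarith
  have hr1 : 1 ≤ r := by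
    rw [hr]
    apply Real.le_sqrt_of_sq_le
    linarith
  have hw0 : 0 < w := by linarith
  have hw4 : 1 ≤ 4 * w := by linarith
  have hKr : K ≤ δ / 10 * r := by
    rw [div_le_iff₀ hδ] at hrK
    linarith
  obtain ⟨H, hH⟩ : ∃ H : ℝ, H = h / (2 * Real.pi) := ⟨_, rfl⟩
  have hπ : 3 < Real.pi := Real.pi_gt_three
  have hH0 : 0 < H := by rw [hH]; positivity
  have hH1 : H ≤ 1 / 2 := by
    rw [hH, div_le_iff₀ (by positivity)]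
    linarith
  have hH2 : h / Real.pi = 2 * H := by
    rw [hH]
    field_simp
  rw [← hH] at hG1 ⊢
  rw [← hW] at hG1 hG2
  rw [hH2] at hG
  obtain ⟨Q, hQ⟩ : ∃ Q : ℝ, Q = w ^ 2 * L := ⟨_, rfl⟩
  have hQ0 : 0 < Q := by rw [hQ]; positivity
  have hw2 : 0 < w ^ 2 := by positivity
  have hLL : L ^ 2 ≤ 4 * (w * L) := by
    calc L ^ 2 = L * L := pow_two L
      _ ≤ L * (4 * w) := mul_le_mul_of_nonneg_left hLw (by linarith)
      _ = 4 * (w * L) := by ring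
  have hwLL : w * L ^ 2 ≤ 4 * Q := by
    calc w * L ^ 2 ≤ w * (4 * (w * L)) := mul_le_mul_of_nonneg_left hLL hw0.le
      _ = 4 * Q := by rw [hQ]; ring
  have hLL16 : L ^ 2 ≤ 16 * w ^ 2 := by
    calc L ^ 2 ≤ (4 * w) ^ 2 := pow_le_pow_left₀ (by linarith) hLw 2
      _ = 16 * w ^ 2 := by ring
  have hAr : A ≤ r := by
    rw [hr]
    exact Real.le_sqrt_of_sq_le hAL
  have hwr : w ^ 2 ≤ w ^ 2 * r := by
    calc w ^ 2 = w ^ 2 * 1 := (mul_one _).symm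
      _ ≤ w ^ 2 * r := mul_le_mul_of_nonneg_left hr1 hw2.le
  have hwr0 : 0 ≤ w ^ 2 * r := by positivity
  have hps : p ≤ 2 * σ * L := by
    have e : p ^ 2 ≤ (2 * σ * L) ^ 2 := by
      calc p ^ 2 ≤ 4 * σ ^ 2 * L ^ 2 := hp2
        _ = (2 * σ * L) ^ 2 := by ring
    exact (pow_le_pow_iff_left₀ hp (by positivity) two_ne_zero).1 e
  have f1 : 48 * (w ^ 2 * p) ≤ 96 * σ * Q := by
    calc 48 * (w ^ 2 * p) = 48 * w ^ 2 * p := by ring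
      _ ≤ 48 * w ^ 2 * (2 * σ * L) := mul_le_mul_of_nonneg_left hps (by positivity)
      _ = 96 * σ * Q := by rw [hQ]; ring
  have hP0 : w * P ≤ 16 * σ ^ 2 * Q := by
    calc w * P ≤ w * (4 * σ ^ 2 * L ^ 2) := mul_le_mul_of_nonneg_left hP hw0.le
      _ = 4 * σ ^ 2 * (w * L ^ 2) := by ring
      _ ≤ 4 * σ ^ 2 * (4 * Q) := mul_le_mul_of_nonneg_left hwLL (by positivity)
      _ = 16 * σ ^ 2 * Q := by ring
  have f2 : 6 * w * (W * P) ≤ 96 * (W * σ ^ 2) * Q := by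
    calc 6 * w * (W * P) = 6 * W * (w * P) := by ring
      _ ≤ 6 * W * (16 * σ ^ 2 * Q) := mul_le_mul_of_nonneg_left hP0 (by positivity)
      _ = 96 * (W * σ ^ 2) * Q := by ring
  have f3 : 6 * w * (W * (C₀ ^ 2 * A)) ≤ 6 * (W * C₀ ^ 2) * (w ^ 2 * r) := by
    have e : w * A ≤ w ^ 2 * r := by
      calc w * A ≤ w * w := mul_le_mul_of_nonneg_left hAw hw0.le
        _ = w ^ 2 := by ring
        _ ≤ w ^ 2 * r := hwr
    calc 6 * w * (W * (C₀ ^ 2 * A)) = 6 * (W * C₀ ^ 2) * (w * A) := by ring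
      _ ≤ 6 * (W * C₀ ^ 2) * (w ^ 2 * r) := mul_le_mul_of_nonneg_left e (by positivity)
  have f4 : 6 * w * (W * 1) ≤ 24 * W * (w ^ 2 * r) := by
    have e : w ≤ 4 * (w ^ 2 * r) := by
      calc w = w * 1 := (mul_one w).symm
        _ ≤ w * (4 * w) := mul_le_mul_of_nonneg_left hw4 hw0.le
        _ = 4 * w ^ 2 := by ring
        _ ≤ 4 * (w ^ 2 * r) := by linarith
    calc 6 * w * (W * 1) = 6 * W * w := by ring
      _ ≤ 6 * W * (4 * (w ^ 2 * r)) := mul_le_mul_of_nonneg_left e (by positivity)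
      _ = 24 * W * (w ^ 2 * r) := by ring
  have hswr : s + w ≤ L * r := by
    have e : (s + w) ^ 2 ≤ (L * r) ^ 2 := by
      calc (s + w) ^ 2 ≤ L ^ 3 := hsw
        _ = L ^ 2 * L := by ring
        _ = L ^ 2 * r ^ 2 := by rw [hrL]
        _ = (L * r) ^ 2 := by ring
    exact (pow_le_pow_iff_left₀ (by linarith) (by positivity) two_ne_zero).1 e
  have f5 : 6 * w * (W * (C₀ ^ 2 * (s + w))) ≤ 24 * (W * C₀ ^ 2) * (w ^ 2 * r) := by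
    have e : w * (s + w) ≤ 4 * (w ^ 2 * r) := by
      calc w * (s + w) ≤ w * (L * r) := mul_le_mul_of_nonneg_left hswr hw0.le
        _ = (w * r) * L := by ring
        _ ≤ (w * r) * (4 * w) := mul_le_mul_of_nonneg_left hLw (by positivity)
        _ = 4 * (w ^ 2 * r) := by ring
    calc 6 * w * (W * (C₀ ^ 2 * (s + w))) = 6 * (W * C₀ ^ 2) * (w * (s + w)) := by ring
      _ ≤ 6 * (W * C₀ ^ 2) * (4 * (w ^ 2 * r)) := mul_le_mul_of_nonneg_left e (by positivity)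
      _ = 24 * (W * C₀ ^ 2) * (w ^ 2 * r) := by ring
  have f6 : 4 * w * (κ * (L ^ 2 * H)) ≤ 8 * κ * Q := by
    have e : w * L ^ 2 * H ≤ 4 * Q * (1 / 2) := mul_le_mul hwLL hH1 hH0.le (by positivity)
    calc 4 * w * (κ * (L ^ 2 * H)) = 4 * κ * (w * L ^ 2 * H) := by ring
      _ ≤ 4 * κ * (4 * Q * (1 / 2)) := mul_le_mul_of_nonneg_left e (by positivity)
      _ = 8 * κ * Q := by ring
  have hκH : (1 + κ) * H ≤ 1 := by
    calc (1 + κ) * H ≤ (1 + κ) * (1 / 2) := mul_le_mul_of_nonneg_left hH1 (by linarith)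
      _ ≤ 1 := by linarith
  have f7 : 2 * A * ((1 + κ) * (L ^ 2 * H)) ≤ 32 * (w ^ 2 * r) := by
    have e1 : A * L ^ 2 ≤ r * (16 * w ^ 2) := mul_le_mul hAr hLL16 (by positivity) hr0
    calc 2 * A * ((1 + κ) * (L ^ 2 * H)) = 2 * (A * L ^ 2) * ((1 + κ) * H) := by ring
      _ ≤ 2 * (A * L ^ 2) * 1 := mul_le_mul_of_nonneg_left hκH (by positivity)
      _ = 2 * (A * L ^ 2) := mul_one _
      _ ≤ 2 * (r * (16 * w ^ 2)) := by linarith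
      _ = 32 * (w ^ 2 * r) := by ring
  have f8 : K * (w ^ 2 * r) ≤ δ / 10 * Q := by
    calc K * (w ^ 2 * r) ≤ δ / 10 * r * (w ^ 2 * r) := mul_le_mul_of_nonneg_right hKr hwr0
      _ = δ / 10 * (w ^ 2 * r ^ 2) := by ring
      _ = δ / 10 * Q := by rw [hrL, hQ]
  have f9 : 192 * (W * σ ^ 2) ≤ δ / 10 := by
    have e1 : W * σ ^ 2 = W * κ * (m / 10000) * σ := by
      rw [pow_two]
      nth_rewrite 1 [hσ]
      ring
    have e2 : W * κ * (m / 10000) * σ ≤ 6 * (1 / 10000) * σ := by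
      refine mul_le_mul_of_nonneg_right ?_ hσ0.le
      exact mul_le_mul hWκ (by linarith) (by positivity) (by norm_num)
    rw [e1]
    linarith
  have f9' : 192 * (W * σ ^ 2) * Q ≤ δ / 10 * Q := mul_le_mul_of_nonneg_right f9 hQ0.le
  have f10 : 96 * σ * Q ≤ δ / 10 * Q := mul_le_mul_of_nonneg_right hσδ hQ0.le
  have f11 : 8 * κ * Q ≤ δ / 10 * Q := mul_le_mul_of_nonneg_right hκδ hQ0.le
  have f12 : 8 * (m * h / 100) * Q ≤ δ / 10 * Q :=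
    mul_le_mul_of_nonneg_right (by linarith) hQ0.le
  have f13 : (4 * w + 2 * A) * (W * (P + C₀ ^ 2 * A)) ≤ 96 * (W * σ ^ 2) * Q + 6 * (W * C₀ ^ 2) * (w ^ 2 * r) := by
    have hPP : P ≤ 4 * σ ^ 2 * L ^ 2 := hP
    have e0 : 0 ≤ C₀ ^ 2 * A := by positivity
    have e1 : (4 * w + 2 * A) * (W * (P + C₀ ^ 2 * A)) ≤
        (4 * w + 2 * A) * (W * (4 * σ ^ 2 * L ^ 2 + C₀ ^ 2 * A)) := by
      refine mul_le_mul_of_nonneg_left (mul_le_mul_of_nonneg_left (by linarith) hW0.le) (by positivity)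
    have e2 : (4 * w + 2 * A) * (W * (4 * σ ^ 2 * L ^ 2 + C₀ ^ 2 * A)) ≤
        6 * w * (W * (4 * σ ^ 2 * L ^ 2 + C₀ ^ 2 * A)) :=
      mul_le_mul_of_nonneg_right (by linarith) (by positivity)
    have e3 : 6 * w * (W * (4 * σ ^ 2 * L ^ 2)) ≤ 96 * (W * σ ^ 2) * Q := by
      calc 6 * w * (W * (4 * σ ^ 2 * L ^ 2)) = 24 * (W * σ ^ 2) * (w * L ^ 2) := by ring
        _ ≤ 24 * (W * σ ^ 2) * (4 * Q) := mul_le_mul_of_nonneg_left hwLL (by positivity)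
        _ = 96 * (W * σ ^ 2) * Q := by ring
    have e4 : 6 * w * (W * (4 * σ ^ 2 * L ^ 2 + C₀ ^ 2 * A)) =
        6 * w * (W * (4 * σ ^ 2 * L ^ 2)) + 6 * w * (W * (C₀ ^ 2 * A)) := by ring
    linarith
  have f14 : 6 * w * (W * (1 + P + C₀ ^ 2 * (s + w))) =
      6 * w * (W * 1) + 6 * w * (W * P) + 6 * w * (W * (C₀ ^ 2 * (s + w))) := by ring
  have f15 : (4 * w + 2 * A) * ((1 + κ) * (L ^ 2 * H) + W * (P + C₀ ^ 2 * A)) =
      4 * (H * (w * L ^ 2)) + 4 * w * (κ * (L ^ 2 * H)) + 2 * A * ((1 + κ) * (L ^ 2 * H)) +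
        (4 * w + 2 * A) * (W * (P + C₀ ^ 2 * A)) := by ring
  have f16 : 4 * w ^ 2 * (2 * (2 * H * L) - N - 2 * (m * h / 100) * L - 12 * p - 20 * C₀ - 100) =
      16 * (H * Q) - 4 * w ^ 2 * N - 8 * (m * h / 100) * Q - 48 * (w ^ 2 * p) - (80 * C₀ + 400) * w ^ 2 := by
    rw [hQ]; ring
  have f17 : (80 * C₀ + 400) * w ^ 2 ≤ (80 * C₀ + 400) * (w ^ 2 * r) :=
    mul_le_mul_of_nonneg_left hwr (by positivity)
  have hKw : K * (w ^ 2 * r) = (80 * C₀ + 400) * (w ^ 2 * r) + 32 * (w ^ 2 * r) + 24 * W * (w ^ 2 * r) +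
      6 * (W * C₀ ^ 2) * (w ^ 2 * r) + 24 * (W * C₀ ^ 2) * (w ^ 2 * r) := by
    rw [hK]; ring
  have main : 16 * (H * Q) - 4 * (H * (w * L ^ 2)) - 4 * w ^ 2 * N - δ / 2 * Q ≤ (1 + κ) * X := by
    rw [f14] at hG2
    rw [f15] at hG1
    rw [f16] at hG
    linarith [f1, f2, f3, f4, f5, f6, f7, f8, f9', f10, f11, f12, f13, f17, hKw, hG, hG1, hG2]
  have hB : H * Q ≤ 1 / 2 * Q := mul_le_mul_of_nonneg_right hH1 hQ0.le
  have hHw : 0 ≤ H * (w * L ^ 2) := by positivity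
  have hwN : 0 ≤ 4 * w ^ 2 * N := by positivity
  rw [← hQ]
  by_contra hcon
  push Not at hcon
  obtain ⟨R, hR⟩ : ∃ R : ℝ, R = 16 * (H * Q) - 4 * (H * (w * L ^ 2)) - 4 * w ^ 2 * N - δ * Q := ⟨_, rfl⟩
  have hcon' : X < R := by
    rw [hR]
    linarith
  have g0 : 0 < δ * Q := by positivity
  have g1 : (1 + κ) * X < (1 + κ) * R := mul_lt_mul_of_pos_left hcon' (by linarith)
  have hR8 : R ≤ 8 * Q := by
    rw [hR]
    linarith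
  have g2 : κ * R ≤ κ * (8 * Q) := mul_le_mul_of_nonneg_left hR8 hκ0.le
  linarith

end Pool.Agent.SW
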