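import Pool.Agent.Lib.MP_9cfc0a_nt.Mg.G016
import Pool.Agent.Lib.MP_9cfc0a_nt.Mg.G057

set_option autoImplicit false

/-! Task SP: the spike and the rest, for two blocks. -/

namespace Pool.Agent.SW

open Complex MeasureTheory
open Pool.Agent.SK
open Pool.Agent.SO (prim NN)

/-- SP1. PROOF. As `spike` in SK/C6C.lean (copy it); now `0 ≤ kk w s t ≤ 4 w + 2 A` on `[0, A]` (`kk_nonneg`, `kk_spike`) in place of
`0 ≤ 1 - t/Y ≤ 1`; `Y = s + w`. -/
theorem spike3 (r : ℕ) [NeZero r] (χ : DirichletCharacter ℂ r) (T W C₀ Y₀ T₁ u h κ A w s P : ℝ) (hW : 0 < W)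
    (hA : 0 ≤ A) (hAw : A ≤ w) (hw : 0 < w) (hws : w ≤ s) (hYY : s + w ≤ Y₀) (hh : 0 ≤ h) (hκ : 0 < κ)
    (hC₀ : 0 ≤ C₀) (hEF : EFp χ T W C₀ Y₀ T₁) (hu : |u| + h ≤ T₁)
    (hP : ∫ t in (-A)..A, ‖PU χ W (u - h) (u + h) t‖ ^ 2 ≤ P) :
    ∫ t in (0 : ℝ)..A, kk w s t * ‖Gu χ T W (u - h) (u + h) t‖ ^ 2 ≤
      (4 * w + 2 * A) * ((1 + κ) * (Real.log r ^ 2 * (h / (2 * Real.pi))) + (1 + 1 / κ) * 3 * (P + C₀ ^ 2 * A)) := by
  have hu' := abs_le.1 (show |u| ≤ T₁ - h by linarith)
  have ha : |u - h| ≤ T₁ := abs_le.2 ⟨by linarith [neg_abs_le u], by linarith [le_abs_self u]⟩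
  have hb : |u + h| ≤ T₁ := abs_le.2 ⟨by linarith [neg_abs_le u], by linarith [le_abs_self u]⟩
  have hlog : 0 ≤ Real.log r := Real.log_natCast_nonneg r
  set K : ℝ → ℝ := fun t => ‖kap W (u - h) (u + h) t‖ with hK
  set p : ℝ → ℝ := fun t => ‖PU χ W (u - h) (u + h) t‖ with hp
  set G : ℝ → ℝ := fun t => ‖Gu χ T W (u - h) (u + h) t‖ with hG
  have cK : Continuous K := (C6C_kap_cont W (u - h) (u + h)).norm
  have cp : Continuous p := (PU_continuous r χ W (u - h) (u + h) hW).norm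
  have cG : Continuous G := (C6C_Gu_cont r χ T W (u - h) (u + h)).norm
  have hpt : ∀ t : ℝ, 0 ≤ t → t ≤ A → G t ≤ Real.log r * K t + (p t + p (-t) + C₀) := by
    intro t ht0 htA
    have h1 := hEF (u - h) (u + h) t ha hb (by linarith) (abs_le.2 ⟨by linarith, by linarith⟩)
    have h2 : ‖Gu χ T W (u - h) (u + h) t‖ ≤
        ‖Gu χ T W (u - h) (u + h) t - ((Real.log r : ℂ) * kap W (u - h) (u + h) t - PU χ W (u - h) (u + h) t -
          (starRingEnd ℂ) (PU χ W (u - h) (u + h) (-t)))‖ + ‖((Real.log r : ℂ) * kap W (u - h) (u + h) t -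
          PU χ W (u - h) (u + h) t - (starRingEnd ℂ) (PU χ W (u - h) (u + h) (-t)))‖ := by
      have := norm_add_le (Gu χ T W (u - h) (u + h) t - ((Real.log r : ℂ) * kap W (u - h) (u + h) t -
        PU χ W (u - h) (u + h) t - (starRingEnd ℂ) (PU χ W (u - h) (u + h) (-t))))
        ((Real.log r : ℂ) * kap W (u - h) (u + h) t - PU χ W (u - h) (u + h) t -
          (starRingEnd ℂ) (PU χ W (u - h) (u + h) (-t)))
      rwa [sub_add_cancel] at this
    have h3 : ‖((Real.log r : ℂ) * kap W (u - h) (u + h) t - PU χ W (u - h) (u + h) t -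
        (starRingEnd ℂ) (PU χ W (u - h) (u + h) (-t)))‖ ≤ Real.log r * K t + p t + p (-t) := by
      refine le_trans (norm_sub_le _ _) ?_
      rw [Complex.norm_conj]
      refine add_le_add ?_ le_rfl
      refine le_trans (norm_sub_le _ _) ?_
      refine add_le_add ?_ le_rfl
      rw [norm_mul, show (Real.log r : ℂ) = ((Real.log r : ℝ) : ℂ) from rfl, Complex.norm_real,
        Real.norm_of_nonneg hlog]
    have h4 : G t = ‖Gu χ T W (u - h) (u + h) t‖ := rfl
    linarith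
  have cE : Continuous (fun t : ℝ => kk w s t) := kk_continuous w s
  have hfac : 0 ≤ 4 * w + 2 * A := by linarith
  have hmono : ∫ t in (0 : ℝ)..A, kk w s t * G t ^ 2 ≤
      (4 * w + 2 * A) * ∫ t in (0 : ℝ)..A, ((1 + κ) * (Real.log r ^ 2 * K t ^ 2) +
        (1 + 1 / κ) * 3 * (p t ^ 2 + p (-t) ^ 2 + C₀ ^ 2)) := by
    rw [← intervalIntegral.integral_const_mul]
    refine intervalIntegral.integral_mono_on hA ?_ ?_ ?_
    · exact Continuous.intervalIntegrable (cE.mul (cG.pow 2)) _ _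
    · exact Continuous.intervalIntegrable (by fun_prop) _ _
    · intro t ht
      have h1 := C6C_sq (G t) (Real.log r * K t) (p t) (p (-t)) C₀ κ (norm_nonneg _) hκ (hpt t ht.1 ht.2)
      have h2 : kk w s t ≤ 4 * w + 2 * A := kk_spike w s t A hws ht.1 ht.2 hAw
      have h3 : kk w s t * G t ^ 2 ≤ (4 * w + 2 * A) * G t ^ 2 := mul_le_mul_of_nonneg_right h2 (sq_nonneg _)
      rw [mul_pow] at h1
      refine h3.trans (mul_le_mul_of_nonneg_left ?_ hfac)
      linarith
  refine le_trans hmono (mul_le_mul_of_nonneg_left ?_ hfac)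
  have i1 : IntervalIntegrable (fun t => (1 + κ) * (Real.log r ^ 2 * K t ^ 2)) volume 0 A :=
    Continuous.intervalIntegrable (by fun_prop) _ _
  have i2 : IntervalIntegrable (fun t => (1 + 1 / κ) * 3 * (p t ^ 2 + p (-t) ^ 2 + C₀ ^ 2)) volume 0 A :=
    Continuous.intervalIntegrable (by fun_prop) _ _
  have i3 : IntervalIntegrable (fun t => p t ^ 2) volume 0 A :=
    Continuous.intervalIntegrable (by fun_prop) _ _
  have i4 : IntervalIntegrable (fun t => p (-t) ^ 2) volume 0 A :=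
    Continuous.intervalIntegrable (by fun_prop) _ _
  have i5 : IntervalIntegrable (fun t => p t ^ 2 + p (-t) ^ 2) volume 0 A :=
    Continuous.intervalIntegrable (by fun_prop) _ _
  have i6 : IntervalIntegrable (fun _ : ℝ => C₀ ^ 2) volume 0 A :=
    Continuous.intervalIntegrable (by fun_prop) _ _
  rw [intervalIntegral.integral_add i1 i2, intervalIntegral.integral_const_mul,
    intervalIntegral.integral_const_mul, intervalIntegral.integral_const_mul,
    intervalIntegral.integral_add i5 i6, intervalIntegral.integral_add i3 i4,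
    intervalIntegral.integral_const]
  have h7 : ∫ t in (0 : ℝ)..A, p (-t) ^ 2 = ∫ t in (-A)..(0 : ℝ), p t ^ 2 := by
    have := intervalIntegral.integral_comp_neg (a := 0) (b := A) (fun t => p t ^ 2)
    simpa using this
  have h8 : (∫ t in (0 : ℝ)..A, p t ^ 2) + ∫ t in (0 : ℝ)..A, p (-t) ^ 2 ≤ P := by
    rw [h7, add_comm]
    have h9 := intervalIntegral.integral_add_adjacent_intervals (a := -A) (b := 0) (c := A)
      (f := fun t => p t ^ 2) (μ := volume) (Continuous.intervalIntegrable (by fun_prop) _ _)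
      (Continuous.intervalIntegrable (by fun_prop) _ _)
    rw [h9]
    exact hP
  have h10 := kap_half W u h A hW hh hA
  have h11 : Real.log r ^ 2 * (∫ t in (0 : ℝ)..A, K t ^ 2) ≤ Real.log r ^ 2 * (h / (2 * Real.pi)) :=
    mul_le_mul_of_nonneg_left h10 (sq_nonneg _)
  have h12 : (A - 0) • C₀ ^ 2 = C₀ ^ 2 * A := by rw [smul_eq_mul, sub_zero, mul_comm]
  rw [h12]
  have h13 : 0 ≤ (1 + 1 / κ) * 3 := by positivity
  have h14 : 0 ≤ 1 + κ := by linarith
  refine add_le_add (mul_le_mul_of_nonneg_left h11 h14) (mul_le_mul_of_nonneg_left ?_ h13)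
  linarith

/-- SP2. PROOF. As `outer` in SK/C6D.lean (copy it), `0 ≤ kk w s t ≤ 6 w` (`kk_nonneg`, `kk_le`) in place of `0 ≤ 1 - t/Y ≤ 1`; `Y = s + w`. -/
theorem outer3 (r : ℕ) [NeZero r] (χ : DirichletCharacter ℂ r) (T W C₀ Y₀ T₁ u h κ A w s P Q : ℝ) (hW : 0 < W)
    (hA : 0 ≤ A) (hAw : A ≤ w) (hw : 0 < w) (hws : w ≤ s) (hYY : s + w ≤ Y₀) (hh : 0 ≤ h) (hκ : 0 < κ)
    (hC₀ : 0 ≤ C₀) (hEF : EFp χ T W C₀ Y₀ T₁) (hu : |u| + h ≤ T₁)
    (hP : ∫ t in (-(s + w))..(-A), ‖PU χ W (u - h) (u + h) t‖ ^ 2 ≤ P)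
    (hQ : Real.log r ^ 2 * ∫ t in A..(s + w), ‖kap W (u - h) (u + h) t‖ ^ 2 ≤ Q) :
    ∫ t in A..(s + w), kk w s t * ‖Gu χ T W (u - h) (u + h) t‖ ^ 2 ≤
      (1 + κ) * (∫ t in A..(s + w), kk w s t * ‖PU χ W (u - h) (u + h) t‖ ^ 2) +
        6 * w * ((1 + 1 / κ) * 3 * (Q + P + C₀ ^ 2 * (s + w))) := by
  have hu' := abs_le.1 (show |u| ≤ T₁ - h by linarith)
  have ha : |u - h| ≤ T₁ := abs_le.2 ⟨by linarith [neg_abs_le u], by linarith [le_abs_self u]⟩
  have hb : |u + h| ≤ T₁ := abs_le.2 ⟨by linarith [neg_abs_le u], by linarith [le_abs_self u]⟩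
  have hlog : 0 ≤ Real.log r := Real.log_natCast_nonneg r
  set K : ℝ → ℝ := fun t => ‖kap W (u - h) (u + h) t‖ with hK
  set p : ℝ → ℝ := fun t => ‖PU χ W (u - h) (u + h) t‖ with hp
  set G : ℝ → ℝ := fun t => ‖Gu χ T W (u - h) (u + h) t‖ with hG
  have cK : Continuous K := (C6D_kap_cont W (u - h) (u + h)).norm
  have cp : Continuous p := (PU_continuous r χ W (u - h) (u + h) hW).norm
  have cG : Continuous G := (C6D_Gu_cont r χ T W (u - h) (u + h)).norm
  have hpt : ∀ t : ℝ, A ≤ t → t ≤ s + w → G t ≤ p t + (Real.log r * K t + p (-t) + C₀) := by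
    intro t ht0 htA
    have h1 := hEF (u - h) (u + h) t ha hb (by linarith) (abs_le.2 ⟨by linarith, by linarith⟩)
    have h2 : ‖Gu χ T W (u - h) (u + h) t‖ ≤
        ‖Gu χ T W (u - h) (u + h) t - ((Real.log r : ℂ) * kap W (u - h) (u + h) t - PU χ W (u - h) (u + h) t -
          (starRingEnd ℂ) (PU χ W (u - h) (u + h) (-t)))‖ + ‖((Real.log r : ℂ) * kap W (u - h) (u + h) t -
          PU χ W (u - h) (u + h) t - (starRingEnd ℂ) (PU χ W (u - h) (u + h) (-t)))‖ := by
      have := norm_add_le (Gu χ T W (u - h) (u + h) t - ((Real.log r : ℂ) * kap W (u - h) (u + h) t -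
        PU χ W (u - h) (u + h) t - (starRingEnd ℂ) (PU χ W (u - h) (u + h) (-t))))
        ((Real.log r : ℂ) * kap W (u - h) (u + h) t - PU χ W (u - h) (u + h) t -
          (starRingEnd ℂ) (PU χ W (u - h) (u + h) (-t)))
      rwa [sub_add_cancel] at this
    have h3 : ‖((Real.log r : ℂ) * kap W (u - h) (u + h) t - PU χ W (u - h) (u + h) t -
        (starRingEnd ℂ) (PU χ W (u - h) (u + h) (-t)))‖ ≤ Real.log r * K t + p t + p (-t) := by
      refine le_trans (norm_sub_le _ _) ?_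
      rw [Complex.norm_conj]
      refine add_le_add ?_ le_rfl
      refine le_trans (norm_sub_le _ _) ?_
      refine add_le_add ?_ le_rfl
      rw [norm_mul, show (Real.log r : ℂ) = ((Real.log r : ℝ) : ℂ) from rfl, Complex.norm_real,
        Real.norm_of_nonneg hlog]
    have h4 : G t = ‖Gu χ T W (u - h) (u + h) t‖ := rfl
    linarith
  have cE : Continuous (fun t : ℝ => kk w s t) := kk_continuous w s
  have hAY : A ≤ s + w := by linarith
  have h6w : 0 ≤ 6 * w := by linarith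
  have hmono : ∫ t in A..(s + w), kk w s t * G t ^ 2 ≤
      ∫ t in A..(s + w), ((1 + κ) * (kk w s t * p t ^ 2) +
        6 * w * ((1 + 1 / κ) * 3 * (Real.log r ^ 2 * K t ^ 2 + p (-t) ^ 2 + C₀ ^ 2))) := by
    refine intervalIntegral.integral_mono_on hAY ?_ ?_ ?_
    · exact Continuous.intervalIntegrable (cE.mul (cG.pow 2)) _ _
    · exact Continuous.intervalIntegrable (by fun_prop) _ _
    · intro t ht
      have h1 := C6D_sq (G t) (p t) (Real.log r * K t) (p (-t)) C₀ κ (norm_nonneg _) hκ (hpt t ht.1 ht.2)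
      have h2 : kk w s t ≤ 6 * w := kk_le w s t hw.le (le_trans hA ht.1)
      have h20 : 0 ≤ kk w s t := kk_nonneg w s t
      have h3 : kk w s t * G t ^ 2 ≤ kk w s t * ((1 + κ) * p t ^ 2 +
        (1 + 1 / κ) * (3 * ((Real.log r * K t) ^ 2 + p (-t) ^ 2 + C₀ ^ 2))) :=
          mul_le_mul_of_nonneg_left h1 h20
      have h4 : kk w s t * ((1 + 1 / κ) * (3 * ((Real.log r * K t) ^ 2 + p (-t) ^ 2 + C₀ ^ 2))) ≤
          6 * w * ((1 + 1 / κ) * (3 * ((Real.log r * K t) ^ 2 + p (-t) ^ 2 + C₀ ^ 2))) :=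
        mul_le_mul_of_nonneg_right h2 (by positivity)
      rw [mul_pow] at h3 h4
      linarith
  refine le_trans hmono ?_
  have i1 : IntervalIntegrable (fun t => (1 + κ) * (kk w s t * p t ^ 2)) volume A (s + w) :=
    Continuous.intervalIntegrable (by fun_prop) _ _
  have i2 : IntervalIntegrable (fun t => 6 * w * ((1 + 1 / κ) * 3 * (Real.log r ^ 2 * K t ^ 2 + p (-t) ^ 2 + C₀ ^ 2)))
      volume A (s + w) := Continuous.intervalIntegrable (by fun_prop) _ _
  have i3 : IntervalIntegrable (fun t => Real.log r ^ 2 * K t ^ 2) volume A (s + w) :=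
    Continuous.intervalIntegrable (by fun_prop) _ _
  have i4 : IntervalIntegrable (fun t => p (-t) ^ 2) volume A (s + w) :=
    Continuous.intervalIntegrable (by fun_prop) _ _
  have i5 : IntervalIntegrable (fun t => Real.log r ^ 2 * K t ^ 2 + p (-t) ^ 2) volume A (s + w) :=
    Continuous.intervalIntegrable (by fun_prop) _ _
  have i6 : IntervalIntegrable (fun _ : ℝ => C₀ ^ 2) volume A (s + w) :=
    Continuous.intervalIntegrable (by fun_prop) _ _
  rw [intervalIntegral.integral_add i1 i2, intervalIntegral.integral_const_mul,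
    intervalIntegral.integral_const_mul, intervalIntegral.integral_const_mul,
    intervalIntegral.integral_add i5 i6,
    intervalIntegral.integral_add i3 i4, intervalIntegral.integral_const_mul,
    intervalIntegral.integral_const]
  have h7 : ∫ t in A..(s + w), p (-t) ^ 2 = ∫ t in (-(s + w))..(-A), p t ^ 2 := by
    have := intervalIntegral.integral_comp_neg (a := A) (b := s + w) (fun t => p t ^ 2)
    simpa using this
  rw [h7]
  have h12 : (s + w - A) • C₀ ^ 2 ≤ C₀ ^ 2 * (s + w) := by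
    rw [smul_eq_mul, mul_comm]
    exact mul_le_mul_of_nonneg_left (by linarith) (sq_nonneg _)
  have h13 : 0 ≤ (1 + 1 / κ) * 3 := by positivity
  refine add_le_add le_rfl (mul_le_mul_of_nonneg_left (mul_le_mul_of_nonneg_left ?_ h13) h6w)
  exact add_le_add (add_le_add hQ hP) h12

end Pool.Agent.SW
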