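import Pool.Agent.Lib.MP_9cfc0a_nt.Mg.G018
import Pool.Agent.Lib.MP_9cfc0a_nt.Mg.G058
import Pool.Agent.Lib.MP_9cfc0a_nt.SW.GL
import Pool.Agent.Lib.MP_9cfc0a_nt.SW.SP
import Pool.Agent.Lib.MP_9cfc0a_nt.SW.NB2

set_option autoImplicit false

/-! Task CH2: the chain for two blocks. -/

namespace Pool.Agent.SW

open Complex MeasureTheory
open Pool.Agent.SK Pool.Agent.SD
open Pool.Agent.SO (prim NN)

/-- CH2. PROOF. As `chain2` in SD/LD.lean with `ε = 1` (copy it; or `chain3` in CH.lean), with `chain_final4`, `G_lower3`, `spike3`, `outer3`, `EFp_holds2` (`Y₀ := L²`), `chain_numeric2` and `Y := s + w ≤ L^(3/2-β) ≤ L^(3/2)`, so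
`(s + w)² ≤ L³`, `s + w ≤ L²`, `δ₀ (s + w) ≤ D log L/L L^(3/2-β)`; `A = L^(1/2) ≤ L/4 ≤ w` for `L ≥ 16`, `A² = L`. The two integrals over `[0, A]` and `[A, s+w]` of the continuous function `kk w s t * ‖Gu‖²`
(`kk_continuous`) add up (`intervalIntegral.integral_add_adjacent_intervals`). The integral `X` is `≥ 0` (`kk_nonneg`). -/
theorem chain4 (β δ h T₀ : ℝ) (hβ : 0 < β) (hβ1 : β ≤ 1 / 2) (hδ : 0 < δ) (hh : 0 < h) (hh1 : h ≤ 1)
    (hT : 0 < T₀) : ∃ η θ : ℝ, 0 < η ∧ η ≤ 1 / 2 ∧ η ≤ δ * h ∧ 0 < θ ∧ ∀ D : ℝ, 0 < D → ∃ r₀ : ℕ, 3 ≤ r₀ ∧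
      ∀ (r : ℕ) [NeZero r], r₀ ≤ r →
      ∀ χ ∈ prim r, Good χ 1 θ D (T₀ + 2) → ∀ u : ℝ, |u| ≤ T₀ → ∀ w s : ℝ, Real.log r ≤ 4 * w → w ≤ s →
      s + w ≤ Real.log r ^ (3 / 2 - β) →
      h / (2 * Real.pi) * (16 * (w ^ 2 * Real.log r) - 4 * (w * Real.log r ^ 2)) -
          4 * w ^ 2 * NU (GZ χ (T₀ + 2)) (h + η) u - δ * (w ^ 2 * Real.log r) ≤
        ∫ t in (Real.log r ^ (1 / 2 : ℝ))..(s + w),
          kk w s t * ‖PU χ (Real.log r ^ (1 / 2 - 1 / 4 : ℝ)) (u - h) (u + h) t‖ ^ 2 := by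
  obtain ⟨η, κ, θ, hη, hη1, hηδ, hκ, hκ1, hθ, hθ1, hfin⟩ := chain_final4 h δ hh hh1 hδ
  refine ⟨η, θ, hη, hη1, hηδ, hθ, fun D hD => ?_⟩
  obtain ⟨C₀, hC₀, r₁, hr₁, hEF⟩ := EFp_holds2 (T₀ + 2) (by linarith)
  obtain ⟨C, hC, r₂, hr₂, hZ⟩ := Z_count
  obtain ⟨L₁, hL₁, hn₁⟩ := chain_numeric2 β D C η 1 hβ hβ1 hD (by linarith) hη one_pos
  obtain ⟨L₂, hL₂, hn₂⟩ := chain_numeric2 β D C η (1 / 4) hβ hβ1 hD (by linarith) hη (by norm_num)
  obtain ⟨L₀, hL₀, hf⟩ := hfin C₀ hC₀.le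
  set M : ℝ := max (max (max L₁ L₂) (max L₀ 16)) (T₀ + 2) with hM
  refine ⟨max (max r₁ r₂) (max 3 ⌈Real.exp M⌉₊), ?_, ?_⟩
  · exact le_trans (le_max_left _ _) (le_max_right _ _)
  intro r _ hr χ hχ hG u hu w s hw1 hws hswB
  have hrr₁ : r₁ ≤ r := le_trans (le_trans (le_max_left _ _) (le_max_left _ _)) hr
  have hrr₂ : r₂ ≤ r := le_trans (le_trans (le_max_right _ _) (le_max_left _ _)) hr
  have hr3 : 3 ≤ r := le_trans (le_trans (le_max_left _ _) (le_max_right _ _)) hr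
  have hrM : ⌈Real.exp M⌉₊ ≤ r := le_trans (le_trans (le_max_right _ _) (le_max_right _ _)) hr
  have hrM' : Real.exp M ≤ (r : ℝ) := le_trans (Nat.le_ceil _) (by exact_mod_cast hrM)
  obtain ⟨T, hT1, hT2, hEFT⟩ := hEF r hrr₁ χ hχ
  set L : ℝ := Real.log r with hL
  have hML : M ≤ L := by
    rw [hL, Real.le_log_iff_exp_le (by positivity)]
    exact hrM'
  have hML' : max (max L₁ L₂) (max L₀ 16) ≤ L := le_trans (le_max_left _ _) hML
  have hLT : T₀ + 2 ≤ L := le_trans (le_max_right _ _) hML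
  have hLL₁ : L₁ ≤ L := le_trans (le_trans (le_max_left _ _) (le_max_left _ _)) hML'
  have hLL₂ : L₂ ≤ L := le_trans (le_trans (le_max_right _ _) (le_max_left _ _)) hML'
  have hLL₀ : L₀ ≤ L := le_trans (le_trans (le_max_left _ _) (le_max_right _ _)) hML'
  have hL16 : 16 ≤ L := le_trans (le_trans (le_max_right _ _) (le_max_right _ _)) hML'
  have hL0 : 0 < L := by linarith
  have hL1 : 1 ≤ L := by linarith
  obtain ⟨hW1, hWδ, hs1, hs2, -⟩ := hn₁ L hLL₁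
  obtain ⟨-, -, -, -, hq⟩ := hn₂ L hLL₂
  set W : ℝ := L ^ (1 / 2 - 1 / 4 : ℝ) with hW
  set A : ℝ := L ^ (1 / 2 : ℝ) with hA
  have hA0 : 0 ≤ A := by positivity
  have hAsq : A ^ 2 = L := by
    rw [hA, ← Real.rpow_natCast, ← Real.rpow_mul hL0.le]
    norm_num
  have hA4 : 4 ≤ A := by
    by_contra hcon
    push Not at hcon
    have h := mul_self_lt_mul_self hA0 hcon
    rw [← sq, hAsq] at h
    linarith
  have hAL : A ≤ L / 4 := by
    have h := mul_le_mul_of_nonneg_left hA4 hA0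
    rw [← sq, hAsq] at h
    linarith
  have hw0 : 0 < w := by linarith
  have hAw : A ≤ w := by linarith
  have hs0 : 0 < s := by linarith
  have hAY : A ≤ s + w := by linarith
  have hY0 : 0 < s + w := by linarith
  have hY3 : (s + w) ^ 2 ≤ L ^ 3 := by
    have h1 : s + w ≤ L ^ (3 / 2 : ℝ) :=
      hswB.trans (Real.rpow_le_rpow_of_exponent_le hL1 (by linarith))
    have h2 : (L ^ (3 / 2 : ℝ)) ^ 2 = L ^ 3 := by
      rw [← Real.rpow_natCast, ← Real.rpow_mul hL0.le, ← Real.rpow_natCast]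
      norm_num
    rw [← h2]
    exact pow_le_pow_left₀ hY0.le h1 2
  have hYL : s + w ≤ L ^ 2 := by
    refine hswB.trans ?_
    rw [← Real.rpow_natCast L 2]
    apply Real.rpow_le_rpow_of_exponent_le hL1
    push_cast
    linarith
  have hAL2 : A ≤ L ^ 2 := hAY.trans hYL
  set δ₀ : ℝ := D * Real.log L / L with hδ₀
  have hδ₀0 : 0 ≤ δ₀ := by
    have := Real.log_nonneg hL1
    positivity
  have hδ1 : ∀ z ∈ Z χ T, |z.re| ≤ δ₀ := by
    intro z hz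
    have hz' := (mem_Z r (by omega) χ hχ T z).1 hz
    exact hG.zf z hz'.1 (by linarith [hz'.2])
  have hN : ∑ z ∈ Z χ T, mu χ z ≤ C * L ^ 2 := by
    refine le_trans ?_ (hZ r hrr₂ χ hχ)
    refine Finset.sum_le_sum_of_subset_of_nonneg ?_ (fun z _ _ => mu_nonneg r χ z)
    intro z hz
    rw [mem_Z r (by omega) χ hχ] at hz ⊢
    exact ⟨hz.1, by linarith [hz.2]⟩
  have hu' := abs_le.mp hu
  have hsθ : Real.sqrt θ ≤ 1 / 10 := by
    rw [Real.sqrt_le_left (by norm_num)]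
    linarith
  have hsθ0 : 0 ≤ Real.sqrt θ := Real.sqrt_nonneg θ
  have hsθ2 : Real.sqrt θ ^ 2 = θ := Real.sq_sqrt hθ.le
  set p : ℝ := 2 * Real.sqrt θ * L with hp
  have hp0 : 0 ≤ p := by positivity
  have hp2 : p ^ 2 = 4 * θ * L ^ 2 := by
    rw [hp, mul_pow, mul_pow, hsθ2]
    ring
  have hpL : p ≤ L := by
    rw [hp]
    calc 2 * Real.sqrt θ * L ≤ 1 * L := mul_le_mul_of_nonneg_right (by linarith) hL0.le
      _ = L := one_mul L
  have hθL : 0 ≤ θ * L ^ 2 := by positivity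
  obtain ⟨g1, g2⟩ := good_PU r hr3 χ 1 θ D (T₀ + 2) (u - h) (u + h) one_pos le_rfl hG hθ.le (by linarith)
    (by linarith) (by linarith)
  obtain ⟨g3, -⟩ := good_PU r hr3 χ 1 θ D (T₀ + 2) (u - h - 2 * η) (u + h + 2 * η) one_pos le_rfl hG hθ.le
    (by linarith) (by linarith) (by linarith)
  have hb1 : u + h - (u - h) ≤ 4 := by linarith
  have hb3' : u + h + 2 * η - (u - h - 2 * η) ≤ 4 := by linarith
  have e1 : (u + h - (u - h)) * (θ * L ^ 2) ≤ 4 * θ * L ^ 2 :=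
    (mul_le_mul_of_nonneg_right hb1 hθL).trans (le_of_eq (by ring))
  have e3 : (u + h + 2 * η - (u - h - 2 * η)) * (θ * L ^ 2) ≤ 4 * θ * L ^ 2 :=
    (mul_le_mul_of_nonneg_right hb3' hθL).trans (le_of_eq (by ring))
  have hp1' : ‖PU χ W (u - h) (u + h) 0‖ ≤ p := by
    rw [← pow_le_pow_iff_left₀ (norm_nonneg _) hp0 two_ne_zero]
    rw [hp2]
    exact g1.trans e1
  have hp2' : ‖PU χ W (u - h - 2 * η) (u + h + 2 * η) 0‖ ≤ p := by
    rw [← pow_le_pow_iff_left₀ (norm_nonneg _) hp0 two_ne_zero]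
    rw [hp2]
    exact g3.trans e3
  have hP1 : ∫ t in (-A)..A, ‖PU χ W (u - h) (u + h) t‖ ^ 2 ≤ 4 * θ * L ^ 2 :=
    (g2 (-A) A (by linarith) (by linarith) le_rfl).trans e1
  have hP2 : ∫ t in (-(s + w))..(-A), ‖PU χ W (u - h) (u + h) t‖ ^ 2 ≤ 4 * θ * L ^ 2 :=
    (g2 (-(s + w)) (-A) (by linarith) (by linarith) (by linarith)).trans e1
  have hQ : L ^ 2 * ∫ t in A..(s + w), ‖kap W (u - h) (u + h) t‖ ^ 2 ≤ 1 := by
    have ht := kap_tail W (u - h) (u + h) A (s + w) (by linarith) (by linarith) hA0 hAY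
    rw [hAsq] at ht
    have hE : 0 < Real.exp (-(L / W ^ 2)) := Real.exp_pos _
    have h1 : (u + h - (u - h)) ^ 2 * (s + w) * Real.exp (-(L / W ^ 2)) ≤
        4 * L ^ 2 * Real.exp (-(L / W ^ 2)) := by
      apply mul_le_mul_of_nonneg_right _ hE.le
      have h2 : (u + h - (u - h)) ^ 2 ≤ 4 := by
        have h3 : u + h - (u - h) = 2 * h := by ring
        rw [h3]
        have h4 := pow_le_pow_left₀ (by linarith : 0 ≤ 2 * h) (by linarith : 2 * h ≤ 2) 2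
        exact h4.trans (by norm_num)
      exact mul_le_mul h2 hYL hY0.le (by norm_num)
    calc L ^ 2 * ∫ t in A..(s + w), ‖kap W (u - h) (u + h) t‖ ^ 2
        ≤ L ^ 2 * (4 * L ^ 2 * Real.exp (-(L / W ^ 2))) :=
          mul_le_mul_of_nonneg_left (ht.trans h1) (by positivity)
      _ = 4 * (L ^ 4 * Real.exp (-(L / W ^ 2))) := by ring
      _ ≤ 1 := by linarith
  have hs1' : L * (C * L ^ 2) * Real.exp (-(W ^ 2 * η ^ 2 / 2) + δ₀ * (s + w)) ≤ 1 := by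
    refine le_trans ?_ hs1
    apply mul_le_mul_of_nonneg_left _ (by positivity)
    apply Real.exp_le_exp.mpr
    have := mul_le_mul_of_nonneg_left hswB hδ₀0
    linarith
  have hGl := G_lower3 r hr3 χ hχ T W C₀ (L ^ 2) (T₀ + 2) u h η δ₀ (C * L ^ 2) w s p hW1 hw0 hws hYL
    hh.le hh1 hη.le (by linarith) hδ₀0 hδ1 hWδ hN hEFT hC₀.le (by linarith) hp1' hp2' hpL hs1' hs2
  have hsp := spike3 r χ T W C₀ (L ^ 2) (T₀ + 2) u h κ A w s (4 * θ * L ^ 2) (by linarith) hA0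
    hAw hw0 hws hYL hh.le hκ hC₀.le hEFT (by linarith) hP1
  have hou := outer3 r χ T W C₀ (L ^ 2) (T₀ + 2) u h κ A w s (4 * θ * L ^ 2) 1 (by linarith) hA0
    hAw hw0 hws hYL hh.le hκ hC₀.le hEFT (by linarith) hP2 hQ
  have hcont : Continuous (fun t : ℝ => kk w s t * ‖Gu χ T W (u - h) (u + h) t‖ ^ 2) := by
    have h1 := C7C_Gu_cont χ T W (u - h) (u + h)
    exact (kk_continuous w s).mul ((h1.norm).pow 2)
  have hadd := intervalIntegral.integral_add_adjacent_intervals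
    (hcont.intervalIntegrable (μ := volume) 0 A) (hcont.intervalIntegrable (μ := volume) A (s + w))
  rw [← hadd] at hGl
  rw [band_eq r (by omega) χ hχ (T₀ + 2) T (h + η) u (by linarith) (by linarith)]
  refine hf L w s A p (4 * θ * L ^ 2)
    (∫ t in A..(s + w), kk w s t * ‖PU χ W (u - h) (u + h) t‖ ^ 2) _ _ (NU (GZ χ T) (h + η) u) hLL₀
    hw1 hws hY3 hA0 hAw hAsq.le hp0 hp2.le le_rfl ?_ (Nat.cast_nonneg _) hGl hsp hou
  apply intervalIntegral.integral_nonneg hAY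
  intro t ht
  exact mul_nonneg (kk_nonneg w s t) (by positivity)

end Pool.Agent.SW
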