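import Mathlib

set_option autoImplicit false

/-! Task NC2: numbers. -/

namespace Pool.Agent.SW

private theorem NC_J (h δ η g J : ℝ) (hh0 : 0 < h) (hh1 : h ≤ 1 / 100) (hδ1 : δ ≤ h / 1000)
    (hg : 0 ≤ g) (hη : 0 < η) (hη1 : η ≤ δ * h)
    (hJ : J ≤ 2 * (h + η) * (1 + 2 * (h + η) + 4 * (h + η) ^ 2) * g) :
    J ≤ 2 * h * (1 + 5 * h) * g := by
  refine hJ.trans (mul_le_mul_of_nonneg_right ?_ hg)
  have e0 : η ≤ h ^ 2 / 1000 := by
    have := mul_le_mul_of_nonneg_right hδ1 hh0.le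
    have e : h / 1000 * h = h ^ 2 / 1000 := by ring
    linarith
  have e0' : h ^ 2 / 1000 ≤ h / 1000 := by
    have f1 := mul_le_mul_of_nonneg_right hh1 hh0.le
    rw [sq]
    linarith
  obtain ⟨a, ha⟩ : ∃ a, a = h + η := ⟨_, rfl⟩
  rw [← ha]
  have e1 : a ≤ h * (1 + h / 1000) := by
    have e : h * (1 + h / 1000) = h + h ^ 2 / 1000 := by ring
    rw [ha, e]
    linarith
  have e2 : 0 < a := by rw [ha]; positivity
  have e3 : a ≤ 1.001 * h := by rw [ha]; linarith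
  have e4 : a ≤ 0.02 := by linarith
  have e5 : 1 + 2 * a + 4 * a ^ 2 ≤ 1 + 3 * h := by
    have f1 : a ^ 2 ≤ 0.02 * a := by
      rw [sq]
      exact mul_le_mul_of_nonneg_right e4 e2.le
    linarith
  have e6 : 2 * a * (1 + 2 * a + 4 * a ^ 2) ≤ 2 * (h * (1 + h / 1000)) * (1 + 3 * h) := by
    refine mul_le_mul (by linarith) e5 (by positivity) (by positivity)
  refine e6.trans ?_
  have e7 : 2 * h * (1 + 5 * h) - 2 * (h * (1 + h / 1000)) * (1 + 3 * h) =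
      h ^ 2 * (4 - 2 / 1000 - 6 / 1000 * h) := by ring
  have e8 : 0 ≤ h ^ 2 * (4 - 2 / 1000 - 6 / 1000 * h) := by
    refine mul_nonneg (sq_nonneg h) (by linarith)
  linarith

private theorem NC_core (ε h δ L w w' D I g J η p : ℝ) (hε : 0 < ε) (hε1 : ε ≤ 1)
    (hh0 : 0 < h) (hhB : h = ε / 300) (hh1 : h ≤ 1 / 100)
    (hδB : δ = h * ε / 1000) (hδ0 : 0 < δ) (hδ1 : δ ≤ h / 1000)
    (hp3 : 3 < p) (hp4 : p < 3.15) (hL1 : 1 ≤ L) (hL : 16 ≤ h * ε * L) (hLw : L ≤ 4 * w)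
    (hww : w ≤ w') (hw' : w' ≤ w + δ * L) (hD : 0 ≤ D)
    (hI1 : 2 * p - δ ≤ I) (hI2 : I ≤ 2 * p) (hg : 0 ≤ g) (hη : 0 < η) (hη1 : η ≤ δ * h)
    (hJ : J ≤ 2 * (h + η) * (1 + 2 * (h + η) + 4 * (h + η) ^ 2) * g)
    (hmain : I * (h / (2 * p) * (16 * (w ^ 2 * L) - 4 * (w * L ^ 2)) - δ * (w ^ 2 * L)) - 4 * w ^ 2 * J ≤
      (2 * h * (1 + 12 * h) + δ) * D + 1) :
    8 * (w' ^ 2 * L) - 4 * (w' ^ 2 * g) - 2 * (w' * L ^ 2) - ε * (w' ^ 2 * L) ≤ D := by
  have hL0 : 0 < L := by linarith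
  have hw0 : 0 < w := by linarith
  have hw'0 : 0 < w' := by linarith
  have hp0 : 0 < p := by linarith
  obtain ⟨P, hP⟩ : ∃ P, P = w' ^ 2 * L := ⟨_, rfl⟩
  have hP0 : 0 < P := by rw [hP]; positivity
  have hLP : L ≤ 16 * P := by
    have e1 : 1 ≤ 16 * w' ^ 2 := by
      have f1 : 1 ≤ 4 * w' := by linarith
      have f2 : (1 : ℝ) ^ 2 ≤ (4 * w') ^ 2 := pow_le_pow_left₀ (by norm_num) f1 2
      have f3 : (4 * w') ^ 2 = 16 * w' ^ 2 := by ring
      rw [f3] at f2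
      linarith
    have e2 := mul_le_mul_of_nonneg_right e1 hL0.le
    rw [hP]
    linarith
  have hw2 : w ^ 2 ≤ w' ^ 2 := pow_le_pow_left₀ hw0.le hww 2
  have hw2L : w ^ 2 * L ≤ P := by
    rw [hP]
    exact mul_le_mul_of_nonneg_right hw2 hL0.le
  have hw2L0 : 0 ≤ w ^ 2 * L := by positivity
  have hwL2 : 0 ≤ w' * L ^ 2 := by positivity
  have hwL3 : w' * L ^ 2 ≤ 4 * P := by
    have e1 : w' * L * L ≤ w' * L * (4 * w') := mul_le_mul_of_nonneg_left (by linarith) (by positivity)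
    rw [hP]
    linarith [e1, (by ring : w' * L * L = w' * L ^ 2), (by ring : w' * L * (4 * w') = 4 * (w' ^ 2 * L))]
  have hεP : 0 ≤ ε * P := by positivity
  rw [← hP]
  by_cases hg2 : 2 * L ≤ g
  · have h1 : w' ^ 2 * (2 * L) ≤ w' ^ 2 * g := mul_le_mul_of_nonneg_left hg2 (sq_nonneg _)
    linarith
  · rw [not_le] at hg2
    have hG : w' ^ 2 * g ≤ 2 * P := by
      have := mul_le_mul_of_nonneg_left hg2.le (sq_nonneg w')
      linarith
    have hJ2 := NC_J h δ η g J hh0 hh1 hδ1 hg hη hη1 hJ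
    have hJ3 : 4 * w ^ 2 * J ≤ 8 * h * (w' ^ 2 * g) + 80 * h ^ 2 * P := by
      have e1 : 4 * w ^ 2 * J ≤ 4 * w ^ 2 * (2 * h * (1 + 5 * h) * g) :=
        mul_le_mul_of_nonneg_left hJ2 (by positivity)
      have e2 : 4 * w ^ 2 * (2 * h * (1 + 5 * h) * g) = 8 * h * (1 + 5 * h) * (w ^ 2 * g) := by ring
      have e3 : w ^ 2 * g ≤ w' ^ 2 * g := mul_le_mul_of_nonneg_right hw2 hg
      have e4 : 8 * h * (1 + 5 * h) * (w ^ 2 * g) ≤ 8 * h * (1 + 5 * h) * (w' ^ 2 * g) :=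
        mul_le_mul_of_nonneg_left e3 (by positivity)
      have e5 : 40 * h ^ 2 * (w' ^ 2 * g) ≤ 40 * h ^ 2 * (2 * P) :=
        mul_le_mul_of_nonneg_left hG (by positivity)
      have e6 : 8 * h * (1 + 5 * h) * (w' ^ 2 * g) =
          8 * h * (w' ^ 2 * g) + 40 * h ^ 2 * (w' ^ 2 * g) := by ring
      linarith
    -- the main term
    obtain ⟨X, hX⟩ : ∃ X, X = 16 * (w ^ 2 * L) - 4 * (w * L ^ 2) := ⟨_, rfl⟩
    obtain ⟨X', hX'⟩ : ∃ X', X' = 16 * P - 4 * (w' * L ^ 2) := ⟨_, rfl⟩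
    rw [← hX] at hmain
    have hX0 : 0 ≤ X := by
      have e1 : X = 4 * (w * L) * (4 * w - L) := by rw [hX]; ring
      rw [e1]
      exact mul_nonneg (by positivity) (by linarith)
    have hX1 : X ≤ 16 * P := by
      have e1 : 0 ≤ w * L ^ 2 := by positivity
      linarith
    have hδP0 : 0 ≤ δ * P := by positivity
    have hXX : X' - 128 * (δ * P) ≤ X := by
      have e1 : X' - X = (w' - w) * (16 * L * (w' + w) - 4 * L ^ 2) := by rw [hX, hX', hP]; ring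
      have e2 : 16 * L * (w' + w) - 4 * L ^ 2 ≤ 32 * (L * w') := by
        have f1 : 16 * L * (w' + w) ≤ 16 * L * (w' + w') :=
          mul_le_mul_of_nonneg_left (by linarith) (by positivity)
        have f2 : 0 ≤ 4 * L ^ 2 := by positivity
        have f3 : 16 * L * (w' + w') = 32 * (L * w') := by ring
        linarith
      have e3 : (w' - w) * (16 * L * (w' + w) - 4 * L ^ 2) ≤ (w' - w) * (32 * (L * w')) :=
        mul_le_mul_of_nonneg_left e2 (by linarith)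
      have e4 : (w' - w) * (32 * (L * w')) ≤ (δ * L) * (32 * (L * w')) :=
        mul_le_mul_of_nonneg_right (by linarith) (by positivity)
      have e5 : (δ * L) * (32 * (L * w')) = 32 * (δ * (w' * L ^ 2)) := by ring
      have e7 : δ * (w' * L ^ 2) ≤ δ * (4 * P) := mul_le_mul_of_nonneg_left hwL3 hδ0.le
      linarith
    have hIB : h * X' - 9 * (δ * P) ≤ I * (h / (2 * p) * X - δ * (w ^ 2 * L)) := by
      obtain ⟨b, hb⟩ : ∃ b, b = h / (2 * p) * X := ⟨_, rfl⟩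
      rw [← hb]
      have e1 : 2 * p * b = h * X := by
        rw [hb]
        field_simp
      have e2 : 0 ≤ b := by
        rw [hb]
        positivity
      have e3 : b ≤ P := by
        have f2 : h * X ≤ 1 / 100 * (16 * P) := mul_le_mul hh1 hX1 hX0 (by norm_num)
        have f4 : 6 * b ≤ 2 * p * b := mul_le_mul_of_nonneg_right (by linarith) e2
        linarith
      have e4 : (2 * p - δ) * b ≤ I * b := mul_le_mul_of_nonneg_right hI1 e2
      have e5 : δ * b ≤ δ * P := mul_le_mul_of_nonneg_left e3 hδ0.le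
      have e6 : I * (δ * (w ^ 2 * L)) ≤ 6.3 * (δ * P) := by
        have f1 : I ≤ 6.3 := by linarith
        have f2 : I * (δ * (w ^ 2 * L)) ≤ 6.3 * (δ * (w ^ 2 * L)) :=
          mul_le_mul_of_nonneg_right f1 (by positivity)
        have f3 : δ * (w ^ 2 * L) ≤ δ * P := mul_le_mul_of_nonneg_left hw2L hδ0.le
        linarith
      have e7 : h * X' ≤ h * X + 1.28 * (δ * P) := by
        have f1 : h * (X' - 128 * (δ * P)) ≤ h * X := mul_le_mul_of_nonneg_left hXX hh0.le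
        have f2 : h * (128 * (δ * P)) ≤ 1 / 100 * (128 * (δ * P)) :=
          mul_le_mul_of_nonneg_right hh1 (by positivity)
        have f3 : h * (X' - 128 * (δ * P)) = h * X' - h * (128 * (δ * P)) := by ring
        linarith
      have e8 : I * (b - δ * (w ^ 2 * L)) = I * b - I * (δ * (w ^ 2 * L)) := by ring
      have e9 : (2 * p - δ) * b = 2 * p * b - δ * b := by ring
      rw [e8]
      linarith
    obtain ⟨K, hK⟩ : ∃ K, K = 2 * h * (1 + 12 * h) + δ := ⟨_, rfl⟩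
    rw [← hK] at hmain
    have hK0 : 0 < K := by rw [hK]; positivity
    obtain ⟨T, hT⟩ : ∃ T, T = 8 * P - 4 * (w' ^ 2 * g) - 2 * (w' * L ^ 2) - ε * P :=
      ⟨_, rfl⟩
    rw [← hT]
    have hT1 : T ≤ 8 * P := by
      have e1 : 0 ≤ w' ^ 2 * g := by positivity
      linarith
    have hT2 : 2 * h * T = h * X' - 8 * h * (w' ^ 2 * g) - 2 * (h * ε * P) := by
      rw [hT, hX']; ring
    have hKT : K * T ≤ 2 * h * T + (24 * h ^ 2 + δ) * (8 * P) := by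
      have e1 : K * T = 2 * h * T + (24 * h ^ 2 + δ) * T := by rw [hK]; ring
      have e2 : (24 * h ^ 2 + δ) * T ≤ (24 * h ^ 2 + δ) * (8 * P) :=
        mul_le_mul_of_nonneg_left hT1 (by positivity)
      linarith
    have hhhP : h ^ 2 * P = h * ε * P / 300 := by
      calc h ^ 2 * P = h * h * P := by ring
        _ = h * (ε / 300) * P := by rw [← hhB]
        _ = _ := by ring
    have hδP' : δ * P = h * ε * P / 1000 := by rw [hδB]; ring
    have hone : 1 ≤ h * ε * P := by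
      have : h * ε * L ≤ h * ε * (16 * P) := mul_le_mul_of_nonneg_left hLP (by positivity)
      linarith
    have hfin : K * T ≤ K * D := by
      have e1 : (24 * h ^ 2 + δ) * (8 * P) = 192 * (h ^ 2 * P) + 8 * (δ * P) := by ring
      have e2 : 80 * h ^ 2 * P = 80 * (h ^ 2 * P) := by ring
      rw [e1] at hKT
      rw [e2] at hJ3
      linarith
    exact le_of_mul_le_mul_left hfin hK0

/-- NC2. The version of NC with the error `ε w'² L` and without `B`. PROOF. As `final_numeric2` (`NA_core`) in SD/NA.lean or NC; `h = ε/1000`, `δ = ε²/10⁶` or so. If `g ≥ 2 L` the claim is trivial: its left side is `≤ 0`. Otherwise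
`g ≤ 2 L`, `J ≤ 2 h (1 + 5 h) g` (as there; `η ≤ δ h`), so `4 w² J ≤ 8 h w'² g + 80 h² w'² L`. With `p = π`: `I (h/(2p) (16 w² L - 4 w L²) - δ w² L) ≥ h (16 w² L - 4 w L²) - (2p + 16) δ w² L` (`2p - δ ≤ I ≤ 2p`; `16 w² L - 4 w L² ≥ 0` as `L ≤ 4 w`)
and `16 w² L - 4 w L² ≥ 16 w'² L - 4 w' L² - 32 w' (δ L) L`, `w' L² ≤ 4 w'² L`. So `(2h(1+12h)+δ) D ≥ h (16 w'² L - 4 w' L²) - 8 h w'² g - (errors) w'² L - 1`, `1 ≤ (small) w'² L` for large `L`, divide by `2h(1+12h)+δ`. -/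
theorem final_numeric4 (ε : ℝ) (hε : 0 < ε) (hε1 : ε ≤ 1) : ∃ h δ : ℝ, 0 < h ∧ h ≤ 1 ∧ 0 < δ ∧
    32 * δ ≤ ε ∧ ∃ L₀ : ℝ, 1 ≤ L₀ ∧ ∀ L w w' D I g J η : ℝ, L₀ ≤ L → L ≤ 4 * w → w ≤ w' → w' ≤ w + δ * L →
      0 ≤ D → 2 * Real.pi - δ ≤ I → I ≤ 2 * Real.pi → 0 ≤ g → 0 < η → η ≤ δ * h →
      J ≤ 2 * (h + η) * (1 + 2 * (h + η) + 4 * (h + η) ^ 2) * g →
      I * (h / (2 * Real.pi) * (16 * (w ^ 2 * L) - 4 * (w * L ^ 2)) - δ * (w ^ 2 * L)) - 4 * w ^ 2 * J ≤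
        (2 * h * (1 + 12 * h) + δ) * D + 1 →
      8 * (w' ^ 2 * L) - 4 * (w' ^ 2 * g) - 2 * (w' * L ^ 2) - ε * (w' ^ 2 * L) ≤ D := by
  obtain ⟨h, hh⟩ : ∃ h, h = ε / 300 := ⟨_, rfl⟩
  obtain ⟨δ, hδ⟩ : ∃ δ, δ = h * ε / 1000 := ⟨_, rfl⟩
  have hh0 : 0 < h := by rw [hh]; positivity
  have hδ0 : 0 < δ := by rw [hδ]; positivity
  have hh1 : h ≤ 1 / 100 := by linarith
  have hδ1 : δ ≤ h / 1000 := by
    have e2 : h * ε ≤ h * 1 := mul_le_mul_of_nonneg_left hε1 hh0.le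
    linarith
  have hδ2 : 32 * δ ≤ ε := by
    have e3 : h * ε ≤ 1 / 100 * ε := mul_le_mul_of_nonneg_right hh1 hε.le
    linarith
  have hhε : h * ε ≤ 1 := by
    have e3 : h * ε ≤ 1 / 100 * ε := mul_le_mul_of_nonneg_right hh1 hε.le
    linarith
  have hhε0 : 0 < h * ε := by positivity
  have hL0 : 1 ≤ 16 / (h * ε) := by
    rw [le_div_iff₀ hhε0]
    linarith
  refine ⟨h, δ, hh0, by linarith, hδ0, hδ2, 16 / (h * ε), hL0, ?_⟩
  intro L w w' D I g J η h1 h2 h3 h4 h6 h7 h8 h9 h10 h11 h12 h13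
  have hL : 16 ≤ h * ε * L := by
    rw [div_le_iff₀ hhε0] at h1
    linarith
  exact NC_core ε h δ L w w' D I g J η Real.pi hε hε1 hh0 hh hh1 hδ hδ0 hδ1
    Real.pi_gt_three Real.pi_lt_d2 (hL0.trans h1) hL h2 h3 h4 h6 h7 h8 h9 h10 h11 h12 h13

end Pool.Agent.SW
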