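import Pool.Agent.Lib.MP_9cfc0a_nt.Mg.G019

set_option autoImplicit false

/-! Task PA: truncation of `f` on both sides. -/

namespace Pool.Agent.SW

open Complex MeasureTheory
open Pool.Agent.SK.E

/-- The truncation of `f` to `(a, z] ∩ (0, z]`. -/
noncomputable def cut2 (f : ℝ → ℂ) (a z : ℝ) : ℝ → ℂ := (Set.Ioc (max 0 a) z).indicator f

theorem PA_re (W x s : ℝ) : ((x : ℂ) * s * I - ((s ^ 2 / (2 * W ^ 2) : ℝ) : ℂ)).re = -(s ^ 2 / (2 * W ^ 2)) := by
  have : ((x : ℂ) * s * I).re = 0 := by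
    rw [← Complex.ofReal_mul, Complex.re_ofReal_mul]
    simp
  rw [Complex.sub_re, this, Complex.ofReal_re]
  ring

theorem PA_norm (W x s : ℝ) :
    ‖gk W x s‖ ≤ (1 / 2 + |x| + |s| / W ^ 2) * Real.exp (-(s ^ 2 / (2 * W ^ 2))) := by
  unfold gk
  rw [norm_mul, Complex.norm_exp, PA_re]
  refine mul_le_mul_of_nonneg_right ?_ (Real.exp_pos _).le
  refine (norm_sub_le _ _).trans ?_
  refine add_le_add ((norm_add_le _ _).trans ?_) ?_
  · refine add_le_add ?_ ?_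
    · norm_num
    · rw [norm_mul, Complex.norm_I, mul_one, Complex.norm_real, Real.norm_eq_abs]
  · rw [Complex.norm_real, Real.norm_eq_abs, abs_div, abs_of_nonneg (sq_nonneg W)]

theorem PA_refl (W x σ : ℝ) (hσ : 0 ≤ σ) : ‖gk W x σ‖ ≤ ‖gk W x (-σ)‖ := by
  unfold gk
  rw [norm_mul, norm_mul, Complex.norm_exp, Complex.norm_exp, PA_re, PA_re, neg_sq]
  refine mul_le_mul_of_nonneg_right ?_ (Real.exp_pos _).le
  have hre : ∀ s : ℝ, (1 / 2 + (x : ℂ) * I - ((s / W ^ 2 : ℝ) : ℂ)).re = 1 / 2 - s / W ^ 2 := by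
    intro s
    rw [Complex.sub_re, Complex.add_re, Complex.re_ofReal_mul, Complex.ofReal_re, Complex.I_re]
    norm_num
  have him : ∀ s : ℝ, (1 / 2 + (x : ℂ) * I - ((s / W ^ 2 : ℝ) : ℂ)).im = x := by
    intro s
    rw [Complex.sub_im, Complex.add_im, Complex.im_ofReal_mul, Complex.ofReal_im, Complex.I_im]
    norm_num
  rw [← sq_le_sq₀ (norm_nonneg _) (norm_nonneg _), ← Complex.normSq_eq_norm_sq, ← Complex.normSq_eq_norm_sq,
    Complex.normSq_apply, Complex.normSq_apply, hre σ, hre (-σ), him σ, him (-σ)]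
  have h1 : 0 ≤ σ / W ^ 2 := by positivity
  have h2 : -σ / W ^ 2 = -(σ / W ^ 2) := by ring
  rw [h2]
  nlinarith

theorem PA_cont (W x : ℝ) : Continuous (fun s : ℝ => gk W x s) := by
  unfold gk
  fun_prop

theorem PA_cont' (W s : ℝ) : Continuous (fun x : ℝ => gk W x s) := by
  unfold gk
  fun_prop

/-- the dominating function -/
noncomputable def PA_D (W A t v : ℝ) : ℝ :=
  6 * Real.exp (t / 2 + W ^ 2 / 4) * ((1 / 2 + A) * Real.exp (-(1 / (4 * W ^ 2)) * (v - t) ^ 2) +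
    (1 / W ^ 2) * |(v - t) * Real.exp (-(1 / (4 * W ^ 2)) * (v - t) ^ 2)|)

theorem PA_D_int (W A t : ℝ) (hW : 0 < W) : Integrable (PA_D W A t) := by
  have hb : (0 : ℝ) < 1 / (4 * W ^ 2) := by positivity
  have h1 : Integrable (fun v : ℝ => Real.exp (-(1 / (4 * W ^ 2)) * (v - t) ^ 2)) :=
    (integrable_exp_neg_mul_sq hb).comp_sub_right t
  have h2 : Integrable (fun v : ℝ => (v - t) * Real.exp (-(1 / (4 * W ^ 2)) * (v - t) ^ 2)) :=
    (integrable_mul_exp_neg_mul_sq hb).comp_sub_right t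
  exact ((h1.const_mul _).add (h2.abs.const_mul _)).const_mul _

theorem PA_dom (W A t x v : ℝ) (hW : 0 < W) (hx : |x| ≤ A) (a : ℂ)
    (ha : ‖a‖ ≤ 6 * Real.exp (v / 2)) : ‖a * gk W x (t - v)‖ ≤ PA_D W A t v := by
  have h1 := PA_norm W x (t - v)
  have e1 : |t - v| = |v - t| := abs_sub_comm _ _
  have e2 : (t - v) ^ 2 = (v - t) ^ 2 := by ring
  rw [e1, e2] at h1
  set σ : ℝ := v - t with hσ
  have h2 : v / 2 + -(σ ^ 2 / (2 * W ^ 2)) ≤ t / 2 + W ^ 2 / 4 + -(1 / (4 * W ^ 2)) * σ ^ 2 := by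
    have h3 : 0 ≤ (σ / (2 * W) - W / 2) ^ 2 := sq_nonneg _
    have h4 : (σ / (2 * W) - W / 2) ^ 2 = σ ^ 2 / (4 * W ^ 2) - σ / 2 + W ^ 2 / 4 := by
      field_simp
      ring
    have h5 : σ ^ 2 / (2 * W ^ 2) = σ ^ 2 / (4 * W ^ 2) + σ ^ 2 / (4 * W ^ 2) := by
      field_simp
      ring
    have h6 : -(1 / (4 * W ^ 2)) * σ ^ 2 = -(σ ^ 2 / (4 * W ^ 2)) := by ring
    rw [h5, h6]
    have h7 : v / 2 = t / 2 + σ / 2 := by rw [hσ]; ring
    rw [h7]
    linarith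
  have h8 : 0 ≤ |σ| / W ^ 2 := by positivity
  have hA : 0 ≤ A := le_trans (abs_nonneg _) hx
  rw [norm_mul]
  calc ‖a‖ * ‖gk W x (t - v)‖
      ≤ (6 * Real.exp (v / 2)) * ((1 / 2 + |x| + |σ| / W ^ 2) *
          Real.exp (-(σ ^ 2 / (2 * W ^ 2)))) :=
        mul_le_mul ha h1 (norm_nonneg _) (by positivity)
    _ = 6 * ((1 / 2 + |x| + |σ| / W ^ 2) * Real.exp (v / 2 + -(σ ^ 2 / (2 * W ^ 2)))) := by
        rw [Real.exp_add]
        ring
    _ ≤ 6 * ((1 / 2 + A + |σ| / W ^ 2) *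
          Real.exp (t / 2 + W ^ 2 / 4 + -(1 / (4 * W ^ 2)) * σ ^ 2)) := by
        refine mul_le_mul_of_nonneg_left ?_ (by norm_num)
        exact mul_le_mul (by linarith) (Real.exp_le_exp.2 h2) (Real.exp_pos _).le (by linarith)
    _ = PA_D W A t v := by
        unfold PA_D
        rw [← hσ, abs_mul, abs_of_pos (Real.exp_pos (-(1 / (4 * W ^ 2)) * σ ^ 2)), Real.exp_add]
        ring

/-- the part of `f` below `a - R` -/
theorem PA_low (C₁ W Y R x t a A : ℝ) (f g : ℝ → ℂ) (hW : 0 < W) (hR0 : 0 ≤ R) (hx : |x| ≤ A) (hat : a ≤ t)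
    (htY : t ≤ Y) (hf : Measurable f) (hfb : ∀ v, 0 < v → ‖f v‖ ≤ 6 * Real.exp (v / 2)) (hg : Measurable g)
    (hgf : g = (Set.Ioi (a - R)).indicator f)
    (hk1 : IntegrableOn (fun σ : ℝ => Real.exp (σ / 2) * ‖gk W x (-σ)‖) (Set.Ioi R))
    (hk2 : ∫ σ in Set.Ioi R, Real.exp (σ / 2) * ‖gk W x (-σ)‖ ≤ C₁ * W * Real.exp (-(3 / 4) * Y)) :
    ‖(∫ v in Set.Ioi (0 : ℝ), f v * gk W x (t - v)) - ∫ v in Set.Ioi (0 : ℝ), g v * gk W x (t - v)‖ ≤
      6 * C₁ * W * Real.exp (-(1 / 4) * Y) := by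
  have hgb : ∀ v, 0 < v → ‖g v‖ ≤ 6 * Real.exp (v / 2) := by
    intro v hv
    rw [hgf]
    by_cases h : v ∈ Set.Ioi (a - R)
    · rw [Set.indicator_of_mem h]
      exact hfb v hv
    · rw [Set.indicator_of_notMem h, norm_zero]
      positivity
  have hint : ∀ F : ℝ → ℂ, Measurable F → (∀ v, 0 < v → ‖F v‖ ≤ 6 * Real.exp (v / 2)) →
      IntegrableOn (fun v => F v * gk W x (t - v)) (Set.Ioi 0) := by
    intro F hF hFb
    refine ((PA_D_int W A t hW).integrableOn (s := Set.Ioi 0)).mono' ?_ ?_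
    · have h1 : Continuous (fun v : ℝ => gk W x (t - v)) :=
        (PA_cont W x).comp (by fun_prop : Continuous fun v : ℝ => t - v)
      exact (hF.aestronglyMeasurable.mul h1.aestronglyMeasurable)
    · refine (ae_restrict_iff' measurableSet_Ioi).2 (Filter.Eventually.of_forall fun v hv => ?_)
      exact PA_dom W A t x v hW hx (F v) (hFb v hv)
  rw [← integral_sub (hint f hf hfb) (hint g hg hgb)]
  set k : ℝ → ℝ := (Set.Ioi R).indicator (fun σ : ℝ => Real.exp (σ / 2) * ‖gk W x (-σ)‖) with hk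
  have hkint : Integrable k := hk1.integrable_indicator measurableSet_Ioi
  have hk0 : ∀ σ, 0 ≤ k σ := by
    intro σ
    rw [hk]
    exact Set.indicator_nonneg (fun σ _ => by positivity) σ
  have hkt : Integrable (fun v => k (t - v)) := hkint.comp_sub_left t
  have hkI : ∫ v, k (t - v) = ∫ σ in Set.Ioi R, Real.exp (σ / 2) * ‖gk W x (-σ)‖ := by
    rw [integral_sub_left_eq_self k volume t, hk, integral_indicator measurableSet_Ioi]
  have hne : ∀ᵐ v ∂(volume.restrict (Set.Ioi (0 : ℝ))), v ≠ t - R := by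
    refine ae_restrict_of_ae ?_
    rw [ae_iff]
    have : {v : ℝ | ¬ v ≠ t - R} = {t - R} := by
      ext v
      simp
    rw [this]
    exact Real.volume_singleton
  have hpt : ∀ᵐ v ∂(volume.restrict (Set.Ioi (0 : ℝ))),
      ‖f v * gk W x (t - v) - g v * gk W x (t - v)‖ ≤ 6 * Real.exp (Y / 2) * k (t - v) := by
    filter_upwards [ae_restrict_mem measurableSet_Ioi, hne] with v hv hvne
    rw [hgf]
    by_cases h : v ∈ Set.Ioi (a - R)
    · rw [Set.indicator_of_mem h, sub_self, norm_zero]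
      have := hk0 (t - v)
      positivity
    · rw [Set.indicator_of_notMem h, zero_mul, sub_zero, norm_mul]
      have h1 : v ≤ a - R := not_lt.1 h
      have h2 : R < t - v := by
        have h3 : v ≤ t - R := by linarith
        have h4 : v < t - R := lt_of_le_of_ne h3 hvne
        linarith
      have h5 : k (t - v) = Real.exp ((t - v) / 2) * ‖gk W x (-(t - v))‖ := by
        rw [hk, Set.indicator_of_mem (show t - v ∈ Set.Ioi R from h2)]
      have h6 := PA_refl W x (t - v) (by linarith)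
      have h7 : Real.exp (v / 2) ≤ Real.exp (Y / 2) := Real.exp_le_exp.2 (by linarith)
      have h8 : 1 ≤ Real.exp ((t - v) / 2) := Real.one_le_exp (by linarith)
      rw [h5]
      calc ‖f v‖ * ‖gk W x (t - v)‖ ≤ (6 * Real.exp (v / 2)) * ‖gk W x (-(t - v))‖ :=
            mul_le_mul (hfb v hv) h6 (norm_nonneg _) (by positivity)
        _ ≤ (6 * Real.exp (Y / 2)) * (Real.exp ((t - v) / 2) * ‖gk W x (-(t - v))‖) := by
            refine mul_le_mul (by linarith) ?_ (norm_nonneg _) (by positivity)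
            exact le_mul_of_one_le_left (norm_nonneg _) h8
  calc ‖∫ v in Set.Ioi (0 : ℝ), (f v * gk W x (t - v) - g v * gk W x (t - v))‖
      ≤ ∫ v in Set.Ioi (0 : ℝ), 6 * Real.exp (Y / 2) * k (t - v) :=
        norm_integral_le_of_norm_le (hkt.integrableOn.const_mul _) hpt
    _ = 6 * Real.exp (Y / 2) * ∫ v in Set.Ioi (0 : ℝ), k (t - v) := by rw [integral_const_mul]
    _ ≤ 6 * Real.exp (Y / 2) * ∫ v, k (t - v) := by
        refine mul_le_mul_of_nonneg_left ?_ (by positivity)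
        exact setIntegral_le_integral hkt (Filter.Eventually.of_forall fun v => hk0 (t - v))
    _ ≤ 6 * Real.exp (Y / 2) * (C₁ * W * Real.exp (-(3 / 4) * Y)) := by
        rw [hkI]
        exact mul_le_mul_of_nonneg_left hk2 (by positivity)
    _ = 6 * C₁ * W * Real.exp (-(1 / 4) * Y) := by
        have h5 : Real.exp (-(1 / 4) * Y) = Real.exp (Y / 2) * Real.exp (-(3 / 4) * Y) := by
          rw [← Real.exp_add]
          congr 1
          ring
        rw [h5]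
        ring

/-- PA. PROOF. `f = f₁ + f₂` with `f₂ = (Set.Ioi (a - R)).indicator f`, `f₁ = (Set.Iic (a - R)).indicator f`. `PP_cut` (SK/E5b.lean) for `f₂` and `y = b`:
`cut f₂ (b + R) = cut2 f (a - R) (b + R)`. `PP f = PP f₁ + PP f₂` (the inner integrals are integrable: copy the private lemmas `E5b_D`, `E5b_D_int`, `E5b_dom` of SK/E5b.lean and
`hint`, `hcont` in the proof of `PP_cut`), and for `|x| ≤ T₀ + 1`, `t ≥ a`:
`‖∫_{v > 0} f₁ v gk W x (t - v)‖ ≤ ∫_{0 < v ≤ a - R} 6 e^(v/2) ‖gk W x (t - v)‖ dv ≤ 6 e^(Y/2) ∫_{σ > R} e^(σ/2) ‖gk W x (-σ)‖ dσ ≤ 6 C₁ W e^(-Y/4)` (`kernel_tail` in SK/E5a.lean;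
`σ = t - v ≥ R`, `‖gk W x σ‖ ≤ ‖gk W x (-σ)‖` for `σ ≥ 0` since `|1/2 - σ/W²| ≤ 1/2 + σ/W²`, and `e^(v/2) ≤ e^(Y/2) ≤ e^(Y/2) e^(σ/2)`). Integrate over `x` (length `≤ 2`). -/
theorem PP_cut2 (T₀ : ℝ) (hT : 0 ≤ T₀) : ∃ C : ℝ, 0 ≤ C ∧ ∀ (f : ℝ → ℂ), Measurable f →
    (∀ v, 0 < v → ‖f v‖ ≤ 6 * Real.exp (v / 2)) → ∀ W Y R h u t a b : ℝ, 1 ≤ W → W ^ 2 ≤ Y →
    2 * W * Real.sqrt Y ≤ R → 0 ≤ h → h ≤ 1 → |u| ≤ T₀ → 0 ≤ a → a ≤ t → t ≤ b → b ≤ Y →
    ‖PP f W (u - h) (u + h) t - QQ (cut2 f (a - R) (b + R)) W (u - h) (u + h) t‖ ≤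
      C * W * Real.exp (-(1 / 4) * Y) := by
  obtain ⟨C₀, hC₀, hcut⟩ := PP_cut T₀ hT
  obtain ⟨C₁, hC₁, hker⟩ := kernel_tail (T₀ + 1) (by linarith)
  refine ⟨C₀ + 2 * C₁, by positivity, ?_⟩
  intro f hf hfb W Y R h u t a b hW hY hR hh hh1 hu ha hat htb hbY
  have hW0 : 0 < W := by linarith
  have hR0 : 0 ≤ R := le_trans (by positivity) hR
  obtain ⟨g, hg⟩ : ∃ g : ℝ → ℂ, g = (Set.Ioi (a - R)).indicator f := ⟨_, rfl⟩
  have hgm : Measurable g := by
    rw [hg]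
    exact hf.indicator measurableSet_Ioi
  have hgb : ∀ v, 0 < v → ‖g v‖ ≤ 6 * Real.exp (v / 2) := by
    intro v hv
    rw [hg]
    by_cases h : v ∈ Set.Ioi (a - R)
    · rw [Set.indicator_of_mem h]
      exact hfb v hv
    · rw [Set.indicator_of_notMem h, norm_zero]
      positivity
  have h1 := hcut g hgm hgb W Y R h u t b hW hY hR hh hh1 hu (by linarith) htb hbY
  have h2 : cut g (b + R) = cut2 f (a - R) (b + R) := by
    unfold cut cut2
    rw [hg, Set.indicator_indicator]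
    congr 1
    ext v
    simp only [Set.mem_inter_iff, Set.mem_Ioc, Set.mem_Ioi, max_lt_iff]
    constructor
    · rintro ⟨⟨h3, h4⟩, h5⟩
      exact ⟨⟨h3, h5⟩, h4⟩
    · rintro ⟨⟨h3, h5⟩, h4⟩
      exact ⟨⟨h3, h4⟩, h5⟩
  rw [h2] at h1
  have hxA : ∀ x ∈ Set.uIcc (u - h) (u + h), |x| ≤ T₀ + 1 := by
    intro x hx
    rw [Set.uIcc_of_le (by linarith)] at hx
    have h1 := abs_le.1 hu
    exact abs_le.2 ⟨by linarith [hx.1], by linarith [hx.2]⟩
  have hcont : ∀ F : ℝ → ℂ, Measurable F → (∀ v, 0 < v → ‖F v‖ ≤ 6 * Real.exp (v / 2)) →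
      ContinuousOn (fun x => ∫ v in Set.Ioi (0 : ℝ), F v * gk W x (t - v)) (Set.uIcc (u - h) (u + h)) := by
    intro F hF hFb
    refine continuousOn_of_dominated (bound := PA_D W (T₀ + 1) t) (fun x _ => ?_) (fun x hx => ?_)
      (PA_D_int W (T₀ + 1) t hW0).integrableOn ?_
    · have h1 : Continuous (fun v : ℝ => gk W x (t - v)) :=
        (PA_cont W x).comp (by fun_prop : Continuous fun v : ℝ => t - v)
      exact (hF.aestronglyMeasurable.mul h1.aestronglyMeasurable)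
    · refine (ae_restrict_iff' measurableSet_Ioi).2 (Filter.Eventually.of_forall fun v hv => ?_)
      exact PA_dom W (T₀ + 1) t x v hW0 (hxA x hx) (F v) (hFb v hv)
    · refine Filter.Eventually.of_forall fun v => ?_
      exact (continuous_const.mul (PA_cont' W (t - v))).continuousOn
  have h3 : ‖PP f W (u - h) (u + h) t - PP g W (u - h) (u + h) t‖ ≤ 2 * C₁ * W * Real.exp (-(1 / 4) * Y) := by
    unfold PP
    rw [← mul_sub, ← intervalIntegral.integral_sub ((hcont f hf hfb).intervalIntegrable)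
      ((hcont g hgm hgb).intervalIntegrable), norm_mul]
    have h6 : ‖∫ x in (u - h)..(u + h), ((∫ v in Set.Ioi (0 : ℝ), f v * gk W x (t - v)) -
        ∫ v in Set.Ioi (0 : ℝ), g v * gk W x (t - v))‖ ≤
        6 * C₁ * W * Real.exp (-(1 / 4) * Y) * |u + h - (u - h)| := by
      refine intervalIntegral.norm_integral_le_of_norm_le_const fun x hx => ?_
      have hx' := hxA x (Set.uIoc_subset_uIcc hx)
      obtain ⟨hk1, hk2⟩ := hker W Y R x hW hY hR hx'
      exact PA_low C₁ W Y R x t a (T₀ + 1) f g hW0 hR0 hx' hat (by linarith) hf hfb hgm hg hk1 hk2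
    have h7 : |u + h - (u - h)| ≤ 2 := by
      rw [show u + h - (u - h) = 2 * h by ring, abs_of_nonneg (by linarith)]
      linarith
    have h8 : ‖(1 / (2 * Real.pi) : ℂ)‖ ≤ 1 / 6 := by
      have h9 : (1 / (2 * Real.pi) : ℂ) = ((1 / (2 * Real.pi) : ℝ) : ℂ) := by push_cast; rfl
      rw [h9, Complex.norm_real, Real.norm_of_nonneg (by positivity)]
      exact one_div_le_one_div_of_le (by norm_num) (by linarith [Real.pi_gt_three])
    have h10 : 0 ≤ 6 * C₁ * W * Real.exp (-(1 / 4) * Y) := by positivity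
    calc _ ≤ (1 / 6) * (6 * C₁ * W * Real.exp (-(1 / 4) * Y) * 2) := by
          refine mul_le_mul h8 (h6.trans (mul_le_mul_of_nonneg_left h7 h10)) (norm_nonneg _)
            (by norm_num)
      _ = 2 * C₁ * W * Real.exp (-(1 / 4) * Y) := by ring
  calc ‖PP f W (u - h) (u + h) t - QQ (cut2 f (a - R) (b + R)) W (u - h) (u + h) t‖
      ≤ ‖PP f W (u - h) (u + h) t - PP g W (u - h) (u + h) t‖ +
        ‖PP g W (u - h) (u + h) t - QQ (cut2 f (a - R) (b + R)) W (u - h) (u + h) t‖ :=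
        norm_sub_le_norm_sub_add_norm_sub _ _ _
    _ ≤ 2 * C₁ * W * Real.exp (-(1 / 4) * Y) + C₀ * W * Real.exp (-(1 / 4) * Y) := add_le_add h3 h1
    _ = (C₀ + 2 * C₁) * W * Real.exp (-(1 / 4) * Y) := by ring

end Pool.Agent.SW
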