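import Pool.Agent.Lib.MP_9cfc0a_nt.Mg.G008
import Pool.Agent.Lib.MP_9cfc0a_nt.SW.PA

set_option autoImplicit false

/-! Task PB: the averaged Plancherel bound on one interval. -/

namespace Pool.Agent.SW

open Complex MeasureTheory
open Pool.Agent.SK.E

theorem PB_cut_norm (f : ℝ → ℂ) (a z s : ℝ) :
    ‖cut2 f a z s‖ ^ 2 = (Set.Ioc (max 0 a) z).indicator (fun s => ‖f s‖ ^ 2) s := by
  unfold cut2
  by_cases hs : s ∈ Set.Ioc (max 0 a) z
  · rw [Set.indicator_of_mem hs, Set.indicator_of_mem hs]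
  · rw [Set.indicator_of_notMem hs, Set.indicator_of_notMem hs]
    simp

theorem PB_int (f : ℝ → ℂ) (hf : Measurable f) (hb : ∀ v, 0 < v → ‖f v‖ ≤ 6 * Real.exp (v / 2))
    (a z : ℝ) :
    Integrable (cut2 f a z) ∧ IntegrableOn (fun s => ‖f s‖ ^ 2) (Set.Ioc (max 0 a) z) ∧
      Integrable (fun s => ‖cut2 f a z s‖ ^ 2) ∧
      ∫ s, ‖cut2 f a z s‖ ^ 2 = ∫ s in Set.Ioc (max 0 a) z, ‖f s‖ ^ 2 := by
  have hfin : volume (Set.Ioc (max 0 a) z) < ⊤ := measure_Ioc_lt_top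
  have hbz : ∀ v ∈ Set.Ioc (max 0 a) z, ‖f v‖ ≤ 6 * Real.exp (z / 2) := by
    intro v hv
    refine (hb v (lt_of_le_of_lt (le_max_left 0 a) hv.1)).trans ?_
    have := hv.2
    gcongr
  have h1 : IntegrableOn f (Set.Ioc (max 0 a) z) := by
    refine Measure.integrableOn_of_bounded (M := 6 * Real.exp (z / 2)) hfin.ne
      hf.aestronglyMeasurable ?_
    rw [ae_restrict_iff' measurableSet_Ioc]
    exact Filter.Eventually.of_forall hbz
  have h2 : IntegrableOn (fun s => ‖f s‖ ^ 2) (Set.Ioc (max 0 a) z) := by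
    refine Measure.integrableOn_of_bounded (M := (6 * Real.exp (z / 2)) ^ 2) hfin.ne
      (hf.norm.pow_const 2).aestronglyMeasurable ?_
    rw [ae_restrict_iff' measurableSet_Ioc]
    refine Filter.Eventually.of_forall fun v hv => ?_
    rw [Real.norm_of_nonneg (by positivity)]
    exact pow_le_pow_left₀ (norm_nonneg _) (hbz v hv) 2
  have h3 : (fun s => ‖cut2 f a z s‖ ^ 2) =
      (Set.Ioc (max 0 a) z).indicator (fun s => ‖f s‖ ^ 2) :=
    funext fun s => PB_cut_norm f a z s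
  refine ⟨?_, h2, ?_, ?_⟩
  · unfold cut2
    exact (integrable_indicator_iff measurableSet_Ioc).mpr h1
  · rw [h3]
    exact (integrable_indicator_iff measurableSet_Ioc).mpr h2
  · rw [h3]
    exact integral_indicator measurableSet_Ioc

/-- PB. PROOF. This is `hstep` in the proof of `avg_main` (SK/E6.lean; copy it, with the set up before it), with `PP_cut2` in place of `PP_cut`, `g = cut2 f (a - R) (b + R)` in place of
`cut f (y + R)` (adapt `E6_cut_norm`, `E6_int` to `cut2`: `Set.Ioc (max 0 (a-R)) (b+R)` has finite measure and `‖f‖ ≤ 6 e^((b+R)/2)` on it), `avg_bound g`; `b - a ≤ Y`. -/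
theorem avg_interval (T₀ : ℝ) (hT : 0 < T₀) : ∃ C : ℝ, 0 ≤ C ∧ ∀ (f : ℝ → ℂ), Measurable f →
    (∀ v, 0 < v → ‖f v‖ ≤ 6 * Real.exp (v / 2)) → ∀ W Y R h κ a b : ℝ, 1 ≤ W → W ^ 2 ≤ Y →
    2 * W * Real.sqrt Y ≤ R → 0 ≤ h → h ≤ 1 → 0 < κ → 0 ≤ a → a ≤ b → b ≤ Y →
    ∫⁻ u in Set.Ioc (-T₀) T₀, ENNReal.ofReal (1 / (1 / 4 + u ^ 2)) *
        ∫⁻ t in Set.Ioc a b, ENNReal.ofReal (‖PP f W (u - h) (u + h) t‖ ^ 2) ≤
      ENNReal.ofReal ((1 + κ) * (2 * h * (1 + 10 * h + 10 / W))) *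
          (∫⁻ v in Set.Ioc (max 0 (a - R)) (b + R), ENNReal.ofReal (‖f v‖ ^ 2)) +
        ENNReal.ofReal ((1 + 1 / κ) * (8 * T₀) * Y * (C * W * Real.exp (-(1 / 4) * Y)) ^ 2) := by
  obtain ⟨C, hC, hcut⟩ := PP_cut2 T₀ hT.le
  refine ⟨C, hC, ?_⟩
  intro f hf hb W Y R h κ a b hW hWY hR2 hh hh1 hκ ha hab hbY
  have hW0 : 0 < W := by linarith
  have hY1 : 1 ≤ Y := by nlinarith
  have hY0 : 0 < Y := by linarith
  set E : ℝ := C * W * Real.exp (-(1 / 4) * Y) with hE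
  have hE0 : 0 ≤ E := by positivity
  set C₀ : ℝ := 2 * h * (1 + 10 * h + 10 / W) with hC₀
  have hC₀0 : 0 ≤ C₀ := by positivity
  obtain ⟨w, hw⟩ : ∃ w : ℝ → ENNReal, ∀ u, w u = ENNReal.ofReal (1 / (1 / 4 + u ^ 2)) :=
    ⟨_, fun _ => rfl⟩
  obtain ⟨P, hP⟩ : ∃ P : ℝ → ℝ → ENNReal,
      ∀ u t, P u t = ENNReal.ofReal (‖PP f W (u - h) (u + h) t‖ ^ 2) := ⟨_, fun _ _ => rfl⟩
  simp only [← hw, ← hP]
  obtain ⟨g1, g2, g3, g4⟩ := PB_int f hf hb (a - R) (b + R)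
  set g : ℝ → ℂ := cut2 f (a - R) (b + R) with hg
  have hA := avg_bound g g1 g3 W h hW hh hh1
  rw [← hC₀] at hA
  simp only [← hw] at hA
  have hpt : ∀ u ∈ Set.Ioc (-T₀) T₀, w u * ∫⁻ t in Set.Ioc a b, P u t ≤
      ENNReal.ofReal (1 + κ) * (w u * ∫⁻ t : ℝ, ENNReal.ofReal (‖QQ g W (u - h) (u + h) t‖ ^ 2)) +
        ENNReal.ofReal (4 * ((1 + 1 / κ) * E ^ 2 * Y)) := by
    intro u hu
    have hu' : |u| ≤ T₀ := abs_le.mpr ⟨hu.1.le, hu.2⟩
    have h1 : ∫⁻ t in Set.Ioc a b, P u t ≤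
        ENNReal.ofReal (1 + κ) * (∫⁻ t : ℝ, ENNReal.ofReal (‖QQ g W (u - h) (u + h) t‖ ^ 2)) +
          ENNReal.ofReal ((1 + 1 / κ) * E ^ 2 * Y) := by
      calc ∫⁻ t in Set.Ioc a b, P u t ≤ ∫⁻ t in Set.Ioc a b,
            (ENNReal.ofReal (1 + κ) * ENNReal.ofReal (‖QQ g W (u - h) (u + h) t‖ ^ 2) +
              ENNReal.ofReal ((1 + 1 / κ) * E ^ 2)) := by
            refine setLIntegral_mono' measurableSet_Ioc fun t ht => ?_
            rw [hP, ← ENNReal.ofReal_mul (by positivity), ← ENNReal.ofReal_add (by positivity) (by positivity)]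
            exact ENNReal.ofReal_le_ofReal (E6_sq _ _ κ E hκ
              (hcut f hf hb W Y R h u t a b hW hWY hR2 hh hh1 hu' ha ht.1.le ht.2 hbY))
        _ = ENNReal.ofReal (1 + κ) * (∫⁻ t in Set.Ioc a b,
              ENNReal.ofReal (‖QQ g W (u - h) (u + h) t‖ ^ 2)) +
              ENNReal.ofReal ((1 + 1 / κ) * E ^ 2) * ENNReal.ofReal (b - a) := by
            rw [lintegral_add_right _ measurable_const, lintegral_const_mul' _ _ ENNReal.ofReal_ne_top,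
              setLIntegral_const, Real.volume_Ioc]
        _ ≤ _ := by
            refine add_le_add ?_ ?_
            · gcongr
              exact Measure.restrict_le_self
            · rw [← ENNReal.ofReal_mul (by positivity)]
              apply ENNReal.ofReal_le_ofReal
              have : b - a ≤ Y := by linarith
              gcongr
    have hw4 : w u ≤ ENNReal.ofReal 4 := by
      rw [hw]
      apply ENNReal.ofReal_le_ofReal
      rw [div_le_iff₀ (by positivity)]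
      nlinarith [sq_nonneg u]
    calc w u * ∫⁻ t in Set.Ioc a b, P u t
        ≤ w u * (ENNReal.ofReal (1 + κ) * (∫⁻ t : ℝ, ENNReal.ofReal (‖QQ g W (u - h) (u + h) t‖ ^ 2)) +
          ENNReal.ofReal ((1 + 1 / κ) * E ^ 2 * Y)) := by gcongr
      _ = ENNReal.ofReal (1 + κ) * (w u * ∫⁻ t : ℝ, ENNReal.ofReal (‖QQ g W (u - h) (u + h) t‖ ^ 2)) +
          w u * ENNReal.ofReal ((1 + 1 / κ) * E ^ 2 * Y) := by ring
      _ ≤ ENNReal.ofReal (1 + κ) * (w u * ∫⁻ t : ℝ, ENNReal.ofReal (‖QQ g W (u - h) (u + h) t‖ ^ 2)) +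
          ENNReal.ofReal 4 * ENNReal.ofReal ((1 + 1 / κ) * E ^ 2 * Y) := by gcongr
      _ = _ := by rw [← ENNReal.ofReal_mul (by norm_num)]
  calc ∫⁻ u in Set.Ioc (-T₀) T₀, w u * ∫⁻ t in Set.Ioc a b, P u t
      ≤ ∫⁻ u in Set.Ioc (-T₀) T₀, (ENNReal.ofReal (1 + κ) *
        (w u * ∫⁻ t : ℝ, ENNReal.ofReal (‖QQ g W (u - h) (u + h) t‖ ^ 2)) +
        ENNReal.ofReal (4 * ((1 + 1 / κ) * E ^ 2 * Y))) :=
        setLIntegral_mono' measurableSet_Ioc hpt
    _ = ENNReal.ofReal (1 + κ) * (∫⁻ u in Set.Ioc (-T₀) T₀,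
        (w u * ∫⁻ t : ℝ, ENNReal.ofReal (‖QQ g W (u - h) (u + h) t‖ ^ 2))) +
        ENNReal.ofReal (4 * ((1 + 1 / κ) * E ^ 2 * Y)) * ENNReal.ofReal (2 * T₀) := by
        rw [lintegral_add_right _ measurable_const, lintegral_const_mul' _ _ ENNReal.ofReal_ne_top,
          setLIntegral_const, Real.volume_Ioc]
        congr 3
        ring
    _ ≤ ENNReal.ofReal (1 + κ) * ENNReal.ofReal (C₀ * ∫ s, ‖g s‖ ^ 2) +
        ENNReal.ofReal ((1 + 1 / κ) * (8 * T₀) * Y * E ^ 2) := by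
        refine add_le_add ?_ ?_
        · gcongr
          exact (setLIntegral_le_lintegral _ _).trans hA
        · rw [← ENNReal.ofReal_mul (by positivity)]
          apply ENNReal.ofReal_le_ofReal
          apply le_of_eq
          ring
    _ = _ := by
        congr 1
        rw [g4, ← ENNReal.ofReal_mul (by positivity), ← mul_assoc,
          ENNReal.ofReal_mul (by positivity)]
        congr 1
        rw [ofReal_integral_eq_lintegral_ofReal g2 (Filter.Eventually.of_forall fun s => by positivity)]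

end Pool.Agent.SW
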