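import Pool.Agent.Lib.MP_9cfc0a_nt.Mg.G011
import Pool.Agent.Lib.MP_9cfc0a_nt.Mg.G057
import Pool.Agent.Lib.MP_9cfc0a_nt.SW.PB
import Pool.Agent.Lib.MP_9cfc0a_nt.Mg.G059

set_option autoImplicit false

/-! Task PD: the averaged Plancherel bound for two blocks. -/

namespace Pool.Agent.SW

open Complex MeasureTheory
open Pool.Agent.SK
open Pool.Agent.EM (psiC V psi)

/-- Tonelli for a family of intervals. -/
lemma PD_swap (wt : ℝ → ENNReal) (hwt : Measurable wt) (hfin : ∀ u, wt u ≠ ⊤) (P : ℝ → ℝ → ENNReal)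
    (hP : Measurable (fun p : ℝ × ℝ => P p.1 p.2)) (α β : ℝ → ℝ) (hα : Measurable α)
    (hβ : Measurable β) (T₀ w : ℝ) :
    ∫⁻ u in Set.Ioc (-T₀) T₀, wt u * ∫⁻ y in Set.Ioc 0 w, ∫⁻ t in Set.Ioc (α y) (β y), P u t =
      ∫⁻ y in Set.Ioc 0 w, ∫⁻ u in Set.Ioc (-T₀) T₀, wt u * ∫⁻ t in Set.Ioc (α y) (β y), P u t := by
  have hmeas : Measurable (fun p : ℝ × ℝ => wt p.1 * ∫⁻ t in Set.Ioc (α p.2) (β p.2), P p.1 t) := by
    refine (hwt.comp measurable_fst).mul ?_
    have e1 : (fun p : ℝ × ℝ => ∫⁻ t in Set.Ioc (α p.2) (β p.2), P p.1 t) = fun p : ℝ × ℝ =>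
        ∫⁻ t, {q : (ℝ × ℝ) × ℝ | α q.1.2 < q.2 ∧ q.2 ≤ β q.1.2}.indicator (fun q => P q.1.1 q.2) (p, t) := by
      funext p
      rw [← lintegral_indicator measurableSet_Ioc]
      refine lintegral_congr fun t => ?_
      by_cases ht : t ∈ Set.Ioc (α p.2) (β p.2)
      · rw [Set.indicator_of_mem ht, Set.indicator_of_mem (by exact ht)]
      · rw [Set.indicator_of_notMem ht, Set.indicator_of_notMem (by exact ht)]
    rw [e1]
    refine Measurable.lintegral_prod_right' ?_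
    refine Measurable.indicator ?_ ?_
    · exact hP.comp ((measurable_fst.comp measurable_fst).prodMk measurable_snd)
    · exact (measurableSet_lt (hα.comp (measurable_snd.comp measurable_fst)) measurable_snd).inter
        (measurableSet_le measurable_snd (hβ.comp (measurable_snd.comp measurable_fst)))
  have e2 : ∀ u, wt u * ∫⁻ y in Set.Ioc 0 w, ∫⁻ t in Set.Ioc (α y) (β y), P u t =
      ∫⁻ y in Set.Ioc 0 w, wt u * ∫⁻ t in Set.Ioc (α y) (β y), P u t := fun u =>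
    (lintegral_const_mul' (wt u) _ (hfin u)).symm
  rw [lintegral_congr e2]
  exact lintegral_lintegral_swap hmeas.aemeasurable

/-- The kernel in `ENNReal`. -/
lemma PD_kk (w s t : ℝ) : ENNReal.ofReal (kk w s t) =
    4 * ENNReal.ofReal (max 0 (w - t)) + 2 * ENNReal.ofReal (max 0 (w - |t - s|)) := by
  unfold kk
  rw [ENNReal.ofReal_add (by positivity) (by positivity), ENNReal.ofReal_mul (by norm_num),
    ENNReal.ofReal_mul (by norm_num)]
  norm_num

/-- The split of the kernel in an integral. -/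
lemma PD_split (F : ℝ → ENNReal) (hF : Measurable F) (w s Y : ℝ) :
    ∫⁻ t in Set.Ioc 0 Y, ENNReal.ofReal (kk w s t) * F t =
      4 * (∫⁻ t in Set.Ioc 0 Y, ENNReal.ofReal (max 0 (w - t)) * F t) +
        2 * ∫⁻ t in Set.Ioc 0 Y, ENNReal.ofReal (max 0 (w - |t - s|)) * F t := by
  have m1 : Measurable (fun t : ℝ => ENNReal.ofReal (max 0 (w - t)) * F t) :=
    (ENNReal.measurable_ofReal.comp (by fun_prop)).mul hF
  have m2 : Measurable (fun t : ℝ => ENNReal.ofReal (max 0 (w - |t - s|)) * F t) :=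
    (ENNReal.measurable_ofReal.comp (by fun_prop)).mul hF
  rw [← lintegral_const_mul _ m1, ← lintegral_const_mul _ m2, ← lintegral_add_left (m1.const_mul _)]
  refine lintegral_congr fun t => ?_
  rw [PD_kk]
  ring

/-- PD1. In `lintegral` form. PROOF. `ofReal (kk w s t) = 4 ofReal (max 0 (w - t)) + 2 ofReal (max 0 (w - |t-s|))`. For the first summand `∫⁻_{(0, s+w]} ofReal (max 0 (w-t)) P =
∫⁻_{(0,w]} ofReal (w-t) P` and `near_layer`; for the second `far_layer`. Exchange the integral over `u` with the one over the layer parameter (`lintegral_lintegral_swap`; measurability as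
`hmeas` in `avg_main`, SK/E6.lean, `PP_measurable`), apply `avg_interval` with `(a, b) = (0, y)`, resp. `(s - w + τ, s + τ)` and `Y := s + w` (`max 0 (0 - R) = 0`), and `near_shift`, `far_shift`. The
errors are integrated over `(0, w]`: in total `6 w` times. -/
theorem avg_blocks (T₀ : ℝ) (hT : 0 < T₀) : ∃ C : ℝ, 0 ≤ C ∧ ∀ (f : ℝ → ℂ), Measurable f →
    (∀ v, 0 < v → ‖f v‖ ≤ 6 * Real.exp (v / 2)) → ∀ W w s R h κ : ℝ, 1 ≤ W → W ^ 2 ≤ s + w → 0 < w → w ≤ s →
    2 * W * Real.sqrt (s + w) ≤ R → 0 ≤ h → h ≤ 1 → 0 < κ →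
    ∫⁻ u in Set.Ioc (-T₀) T₀, ENNReal.ofReal (1 / (1 / 4 + u ^ 2)) *
        ∫⁻ t in Set.Ioc 0 (s + w), ENNReal.ofReal (kk w s t) *
          ENNReal.ofReal (‖E.PP f W (u - h) (u + h) t‖ ^ 2) ≤
      ENNReal.ofReal ((1 + κ) * (2 * h * (1 + 10 * h + 10 / W)) *
        (∫ t in Set.Ioc 0 (s + w + R), kk (w + R) s t * ‖f t‖ ^ 2) +
          6 * w * ((1 + 1 / κ) * (8 * T₀) * (s + w) * (C * W * Real.exp (-(1 / 4) * (s + w))) ^ 2)) := by
  obtain ⟨C, hC, hav⟩ := avg_interval T₀ hT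
  refine ⟨C, hC, ?_⟩
  intro f hf hb W w s R h κ hW hWY hw hws hR hh hh1 hκ
  have hW0 : 0 < W := by linarith
  have hs0 : 0 < s := by linarith
  have hY0 : 0 < s + w := by linarith
  have hR0 : 0 ≤ R := by
    have : 0 ≤ 2 * W * Real.sqrt (s + w) := by positivity
    linarith
  obtain ⟨Er, hEr⟩ : ∃ Er, Er = (1 + 1 / κ) * (8 * T₀) * (s + w) * (C * W * Real.exp (-(1 / 4) * (s + w))) ^ 2 :=
    ⟨_, rfl⟩
  have hEr0 : 0 ≤ Er := by rw [hEr]; positivity
  obtain ⟨K, hK⟩ : ∃ K, K = (1 + κ) * (2 * h * (1 + 10 * h + 10 / W)) := ⟨_, rfl⟩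
  have hK0 : 0 ≤ K := by rw [hK]; positivity
  rw [← hEr, ← hK]
  obtain ⟨wt, hwt⟩ : ∃ wt : ℝ → ENNReal, ∀ u, wt u = ENNReal.ofReal (1 / (1 / 4 + u ^ 2)) :=
    ⟨_, fun _ => rfl⟩
  have hwm : Measurable wt := by
    have e : wt = fun u => ENNReal.ofReal (1 / (1 / 4 + u ^ 2)) := funext hwt
    rw [e]
    refine ENNReal.measurable_ofReal.comp ?_
    fun_prop
  have hwfin : ∀ u, wt u ≠ ⊤ := by
    intro u
    rw [hwt]
    exact ENNReal.ofReal_ne_top
  obtain ⟨P, hP⟩ : ∃ P : ℝ → ℝ → ENNReal,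
      ∀ u t, P u t = ENNReal.ofReal (‖E.PP f W (u - h) (u + h) t‖ ^ 2) := ⟨_, fun _ _ => rfl⟩
  have hPm : Measurable (fun p : ℝ × ℝ => P p.1 p.2) := by
    have e : (fun p : ℝ × ℝ => P p.1 p.2) =
        fun p : ℝ × ℝ => ENNReal.ofReal (‖E.PP f W (p.1 - h) (p.1 + h) p.2‖ ^ 2) :=
      funext fun p => hP p.1 p.2
    rw [e]
    exact ENNReal.measurable_ofReal.comp ((E.PP_measurable f hf W h hh).norm.pow_const 2)
  have hPu : ∀ u, Measurable (P u) := by
    intro u
    have h1 : Measurable (fun t : ℝ => ((u, t) : ℝ × ℝ)) := measurable_const.prodMk measurable_id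
    exact hPm.comp h1
  obtain ⟨F, hF⟩ : ∃ F : ℝ → ENNReal, ∀ t, F t = ENNReal.ofReal (‖f t‖ ^ 2) := ⟨_, fun _ => rfl⟩
  have hFm : Measurable F := by
    have e : F = fun t => ENNReal.ofReal (‖f t‖ ^ 2) := funext hF
    rw [e]
    exact ENNReal.measurable_ofReal.comp (hf.norm.pow_const 2)
  -- one interval
  have hone : ∀ a b : ℝ, 0 ≤ a → a ≤ b → b ≤ s + w →
      ∫⁻ u in Set.Ioc (-T₀) T₀, wt u * ∫⁻ t in Set.Ioc a b, P u t ≤
        ENNReal.ofReal K * (∫⁻ v in Set.Ioc (max 0 (a - R)) (b + R), F v) + ENNReal.ofReal Er := by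
    intro a b ha hab hb2
    have h1 := hav f hf hb W (s + w) R h κ a b hW hWY hR hh hh1 hκ ha hab hb2
    rw [← hK, ← hEr] at h1
    simp only [hwt, hP, hF]
    exact h1
  -- a family of intervals
  have hfam : ∀ α β : ℝ → ℝ, Measurable α → Measurable β →
      (∀ y ∈ Set.Ioc 0 w, 0 ≤ α y ∧ α y ≤ β y ∧ β y ≤ s + w) →
      ∫⁻ u in Set.Ioc (-T₀) T₀, wt u * ∫⁻ y in Set.Ioc 0 w, ∫⁻ t in Set.Ioc (α y) (β y), P u t ≤
        ENNReal.ofReal K * (∫⁻ y in Set.Ioc 0 w, ∫⁻ v in Set.Ioc (max 0 (α y - R)) (β y + R), F v) +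
          ENNReal.ofReal (w * Er) := by
    intro α β hα hβ hαβ
    rw [PD_swap wt hwm hwfin P hPm α β hα hβ T₀ w]
    calc ∫⁻ y in Set.Ioc 0 w, ∫⁻ u in Set.Ioc (-T₀) T₀, wt u * ∫⁻ t in Set.Ioc (α y) (β y), P u t
        ≤ ∫⁻ y in Set.Ioc 0 w, (ENNReal.ofReal K *
            (∫⁻ v in Set.Ioc (max 0 (α y - R)) (β y + R), F v) + ENNReal.ofReal Er) :=
          setLIntegral_mono' measurableSet_Ioc fun y hy =>
            hone (α y) (β y) (hαβ y hy).1 (hαβ y hy).2.1 (hαβ y hy).2.2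
      _ = ENNReal.ofReal K * (∫⁻ y in Set.Ioc 0 w, ∫⁻ v in Set.Ioc (max 0 (α y - R)) (β y + R), F v) +
          ENNReal.ofReal Er * ENNReal.ofReal w := by
          rw [lintegral_add_right _ measurable_const, lintegral_const_mul' _ _ ENNReal.ofReal_ne_top,
            setLIntegral_const, Real.volume_Ioc, sub_zero]
      _ = _ := by
          rw [mul_comm w Er, ENNReal.ofReal_mul hEr0]
  -- the near part
  have hnear : ∫⁻ u in Set.Ioc (-T₀) T₀, wt u * ∫⁻ t in Set.Ioc 0 (s + w),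
      ENNReal.ofReal (max 0 (w - t)) * P u t ≤
        ENNReal.ofReal K * (∫⁻ t in Set.Ioc 0 (s + w + R), ENNReal.ofReal (max 0 (w + R - t)) * F t) +
          ENNReal.ofReal (w * Er) := by
    have e1 : ∀ u, ∫⁻ t in Set.Ioc 0 (s + w), ENNReal.ofReal (max 0 (w - t)) * P u t =
        ∫⁻ y in Set.Ioc 0 w, ∫⁻ t in Set.Ioc 0 y, P u t := by
      intro u
      rw [near_layer (P u) (hPu u) w hw]
      rw [← lintegral_indicator measurableSet_Ioc, ← lintegral_indicator measurableSet_Ioc]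
      refine lintegral_congr fun t => ?_
      by_cases ht : t ∈ Set.Ioc 0 w
      · rw [Set.indicator_of_mem ht, Set.indicator_of_mem (show t ∈ Set.Ioc 0 (s + w) from
          ⟨ht.1, by linarith [ht.2]⟩), max_eq_right (by linarith [ht.2])]
      · rw [Set.indicator_of_notMem ht]
        by_cases ht2 : t ∈ Set.Ioc 0 (s + w)
        · rw [Set.indicator_of_mem ht2]
          have h1 : w < t := by
            by_contra hcon
            exact ht ⟨ht2.1, not_lt.1 hcon⟩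
          rw [max_eq_left (by linarith), ENNReal.ofReal_zero, zero_mul]
        · rw [Set.indicator_of_notMem ht2]
    rw [lintegral_congr fun u => by rw [e1 u]]
    refine (hfam (fun _ => 0) (fun y => y) measurable_const measurable_id
      (fun y hy => ⟨le_rfl, hy.1.le, by linarith [hy.2]⟩)).trans ?_
    refine add_le_add (mul_le_mul_right ?_ _) le_rfl
    have e2 : max 0 ((0 : ℝ) - R) = 0 := max_eq_left (by linarith)
    simp only [e2]
    exact near_shift F hFm w s R hw hR0 hws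
  -- the far part
  have hfar : ∫⁻ u in Set.Ioc (-T₀) T₀, wt u * ∫⁻ t in Set.Ioc 0 (s + w),
      ENNReal.ofReal (max 0 (w - |t - s|)) * P u t ≤
        ENNReal.ofReal K * (∫⁻ t in Set.Ioc 0 (s + w + R), ENNReal.ofReal (max 0 (w + R - |t - s|)) * F t) +
          ENNReal.ofReal (w * Er) := by
    rw [lintegral_congr fun u => by rw [← far_layer (P u) (hPu u) w s hw hws]]
    refine (hfam (fun τ => s - w + τ) (fun τ => s + τ) (by fun_prop) (by fun_prop)
      (fun y hy => ⟨by linarith [hy.1], by linarith, by linarith [hy.2]⟩)).trans ?_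
    exact add_le_add (mul_le_mul_right (far_shift F hFm w s R hw hR0 hws) _) le_rfl
  -- the left side
  have hleft : ∫⁻ u in Set.Ioc (-T₀) T₀, ENNReal.ofReal (1 / (1 / 4 + u ^ 2)) *
        ∫⁻ t in Set.Ioc 0 (s + w), ENNReal.ofReal (kk w s t) *
          ENNReal.ofReal (‖E.PP f W (u - h) (u + h) t‖ ^ 2) =
      4 * (∫⁻ u in Set.Ioc (-T₀) T₀, wt u * ∫⁻ t in Set.Ioc 0 (s + w),
          ENNReal.ofReal (max 0 (w - t)) * P u t) +
        2 * ∫⁻ u in Set.Ioc (-T₀) T₀, wt u * ∫⁻ t in Set.Ioc 0 (s + w),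
          ENNReal.ofReal (max 0 (w - |t - s|)) * P u t := by
    have m1 : Measurable (fun u => wt u * ∫⁻ t in Set.Ioc 0 (s + w),
        ENNReal.ofReal (max 0 (w - t)) * P u t) := by
      refine hwm.mul (Measurable.lintegral_prod_right' (f := fun p : ℝ × ℝ =>
        ENNReal.ofReal (max 0 (w - p.2)) * P p.1 p.2) ?_)
      exact (ENNReal.measurable_ofReal.comp (by fun_prop)).mul hPm
    have m2 : Measurable (fun u => wt u * ∫⁻ t in Set.Ioc 0 (s + w),
        ENNReal.ofReal (max 0 (w - |t - s|)) * P u t) := by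
      refine hwm.mul (Measurable.lintegral_prod_right' (f := fun p : ℝ × ℝ =>
        ENNReal.ofReal (max 0 (w - |p.2 - s|)) * P p.1 p.2) ?_)
      exact (ENNReal.measurable_ofReal.comp (by fun_prop)).mul hPm
    rw [← lintegral_const_mul _ m1, ← lintegral_const_mul _ m2, ← lintegral_add_left (m1.const_mul _)]
    refine lintegral_congr fun u => ?_
    have e1 : ∫⁻ t in Set.Ioc 0 (s + w), ENNReal.ofReal (kk w s t) *
        ENNReal.ofReal (‖E.PP f W (u - h) (u + h) t‖ ^ 2) =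
          ∫⁻ t in Set.Ioc 0 (s + w), ENNReal.ofReal (kk w s t) * P u t :=
      lintegral_congr fun t => by rw [hP]
    rw [e1, PD_split (P u) (hPu u) w s (s + w), ← hwt]
    ring
  -- the right side
  have hint : IntegrableOn (fun t => kk (w + R) s t * ‖f t‖ ^ 2) (Set.Ioc 0 (s + w + R)) := by
    obtain ⟨_, g2, _, _⟩ := E.E6_int f hf hb (s + w + R)
    refine Integrable.bdd_mul (c := 6 * (w + R)) g2 (kk_continuous (w + R) s).aestronglyMeasurable ?_
    rw [ae_restrict_iff' measurableSet_Ioc]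
    refine Filter.Eventually.of_forall fun t ht => ?_
    rw [Real.norm_of_nonneg (kk_nonneg _ _ _)]
    exact kk_le (w + R) s t (by linarith) ht.1.le
  have hright : ENNReal.ofReal (∫ t in Set.Ioc 0 (s + w + R), kk (w + R) s t * ‖f t‖ ^ 2) =
      4 * (∫⁻ t in Set.Ioc 0 (s + w + R), ENNReal.ofReal (max 0 (w + R - t)) * F t) +
        2 * ∫⁻ t in Set.Ioc 0 (s + w + R), ENNReal.ofReal (max 0 (w + R - |t - s|)) * F t := by
    rw [← PD_split F hFm (w + R) s (s + w + R), ofReal_integral_eq_lintegral_ofReal hint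
      (Filter.Eventually.of_forall fun t => mul_nonneg (kk_nonneg _ _ _) (by positivity))]
    refine lintegral_congr fun t => ?_
    rw [ENNReal.ofReal_mul (kk_nonneg _ _ _), hF]
  have hJ0 : 0 ≤ ∫ t in Set.Ioc 0 (s + w + R), kk (w + R) s t * ‖f t‖ ^ 2 :=
    setIntegral_nonneg measurableSet_Ioc fun t _ => mul_nonneg (kk_nonneg _ _ _) (by positivity)
  rw [hleft, ENNReal.ofReal_add (by positivity) (by positivity), ENNReal.ofReal_mul hK0, hright]
  have e6 : ENNReal.ofReal (6 * w * Er) = 6 * ENNReal.ofReal (w * Er) := by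
    rw [mul_assoc, ENNReal.ofReal_mul (by norm_num)]
    norm_num
  rw [e6]
  calc _ ≤ 4 * (ENNReal.ofReal K * (∫⁻ t in Set.Ioc 0 (s + w + R),
          ENNReal.ofReal (max 0 (w + R - t)) * F t) + ENNReal.ofReal (w * Er)) +
        2 * (ENNReal.ofReal K * (∫⁻ t in Set.Ioc 0 (s + w + R),
          ENNReal.ofReal (max 0 (w + R - |t - s|)) * F t) + ENNReal.ofReal (w * Er)) := by
        gcongr
    _ = _ := by ring

/-- PD2. PROOF. As `plancherel_avg` in SK/E9.lean (copy it; `Y := s + w`), with `avg_blocks`. The error is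
`6 w (1+1/κ) 8 T₀ C² Y W² e^(-Y/2) ≤ (..) Y³ e^(-Y/2) ≤ 1` for `Y = s + w ≥ W² ≥ W₀` large (`w ≤ Y`, `W² ≤ Y`). -/
theorem plancherel_blocks (h δ T₀ : ℝ) (hh : 0 < h) (hh1 : h ≤ 1) (hδ : 0 < δ) (hT : 0 < T₀) :
    ∃ W₀ : ℝ, 1 ≤ W₀ ∧ ∀ W w s R : ℝ, W₀ ≤ W → W ^ 2 ≤ s + w → 0 < w → w ≤ s →
      2 * W * Real.sqrt (s + w) ≤ R →
      ∀ (q : ℕ) [NeZero q] (χ : DirichletCharacter ℂ q),
      ∫ u in (-T₀)..T₀, 1 / (1 / 4 + u ^ 2) *
          ∫ t in (0 : ℝ)..(s + w), kk w s t * ‖PU χ W (u - h) (u + h) t‖ ^ 2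
        ≤ (2 * h * (1 + 12 * h) + δ) * (∫ t in (0 : ℝ)..(s + w + R), kk (w + R) s t * ‖ff χ t‖ ^ 2) + 1 := by
  obtain ⟨C, hC, H⟩ := avg_blocks T₀ hT
  set κ : ℝ := min 1 (δ / 88) with hκ
  have hκ0 : 0 < κ := lt_min (by norm_num) (by positivity)
  have hκ1 : κ ≤ δ / 88 := min_le_right _ _
  obtain ⟨Y₀, hY₀1, hY₀⟩ : ∃ Y₀ : ℝ, 1 ≤ Y₀ ∧ ∀ Y : ℝ, Y₀ ≤ Y →
      (6 * ((1 + 1 / κ) * (8 * T₀) * C ^ 2)) * (Y ^ 3 * Real.exp (-(1 / 2) * Y)) ≤ 1 := by
    set A : ℝ := 6 * ((1 + 1 / κ) * (8 * T₀) * C ^ 2) with hA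
    have hA0 : 0 ≤ A := by positivity
    have h1 : Filter.Tendsto (fun Y : ℝ => A * (Y ^ 3 * Real.exp (-(1 / 2) * Y))) Filter.atTop
        (nhds (A * 0)) := by
      refine Filter.Tendsto.const_mul A ?_
      have h2 := Real.tendsto_pow_mul_exp_neg_atTop_nhds_zero 3
      have h3 : Filter.Tendsto (fun Y : ℝ => (1 / 2) * Y) Filter.atTop Filter.atTop :=
        Filter.Tendsto.const_mul_atTop (by norm_num) Filter.tendsto_id
      have h4 := (h2.comp h3).const_mul 8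
      rw [mul_zero] at h4
      refine h4.congr fun Y => ?_
      simp only [Function.comp]
      rw [show -(1 / 2) * Y = -(1 / 2 * Y) by ring]
      ring
    rw [mul_zero] at h1
    have h5 := (h1.eventually (gt_mem_nhds (show (0 : ℝ) < 1 by norm_num))).and
      (Filter.eventually_ge_atTop (1 : ℝ))
    obtain ⟨Y₀, hY₀⟩ := Filter.eventually_atTop.1 h5
    refine ⟨max Y₀ 1, le_max_right _ _, fun Y hY => ?_⟩
    exact (hY₀ Y ((le_max_left _ _).trans hY)).1.le
  refine ⟨max Y₀ (40 / δ), le_max_of_le_left hY₀1, ?_⟩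
  intro W w s R hW hWY hw hws hR q _ χ
  have hW1 : 1 ≤ W := hY₀1.trans ((le_max_left _ _).trans hW)
  have hW0 : 0 < W := by linarith
  have hWδ : 40 / δ ≤ W := (le_max_right _ _).trans hW
  have hs0 : 0 < s := by linarith
  obtain ⟨Y, hY⟩ : ∃ Y, Y = s + w := ⟨_, rfl⟩
  have hwY : w ≤ Y := by linarith
  have hY0 : 0 < Y := by linarith
  have hWY' : W ≤ Y := by
    rw [← hY] at hWY
    nlinarith
  have hR0 : 0 ≤ R := by
    have : 0 ≤ 2 * W * Real.sqrt (s + w) := by positivity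
    linarith
  have hmain := H (ff χ) (ff_measurable χ) (fun v _ => ff_le χ v) W w s R h κ hW1 hWY hw hws hR hh.le hh1
    hκ0
  rw [← hY] at hmain hWY
  obtain ⟨DD, hDD⟩ : ∃ DD, DD = ∫ t in Set.Ioc 0 (Y + R), kk (w + R) s t * ‖ff χ t‖ ^ 2 := ⟨_, rfl⟩
  have hDD0 : 0 ≤ DD := by
    rw [hDD]
    exact setIntegral_nonneg measurableSet_Ioc fun t _ => mul_nonneg (kk_nonneg _ _ _) (by positivity)
  rw [← hDD] at hmain
  have hB : (1 + κ) * (2 * h * (1 + 10 * h + 10 / W)) * DD +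
      6 * w * ((1 + 1 / κ) * (8 * T₀) * Y * (C * W * Real.exp (-(1 / 4) * Y)) ^ 2) ≤
      (2 * h * (1 + 12 * h) + δ) * DD + 1 := by
    have e1 : (1 + κ) * (2 * h * (1 + 10 * h + 10 / W)) ≤ 2 * h * (1 + 12 * h) + δ := by
      have h10 : 10 / W ≤ δ / 4 := by
        rw [div_le_iff₀ hW0]
        have : 40 / δ * δ = 40 := by field_simp
        nlinarith
      have h11 : 10 / W ≤ 10 := by
        rw [div_le_iff₀ hW0]; linarith
      have h12 : 0 ≤ 10 / W := by positivity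
      set v := 10 / W with hv
      have h13 : 2 * h * (1 + 10 * h + v) ≤ 42 := by nlinarith
      have h14 : 0 ≤ 2 * h * (1 + 10 * h + v) := by positivity
      have h15 : κ * (2 * h * (1 + 10 * h + v)) ≤ δ / 2 := by
        calc κ * (2 * h * (1 + 10 * h + v)) ≤ (δ / 88) * 42 :=
              mul_le_mul hκ1 h13 h14 (by positivity)
          _ ≤ δ / 2 := by linarith
      have h16 : 2 * h * v ≤ δ / 2 := by nlinarith
      nlinarith
    have e2 : (1 + κ) * (2 * h * (1 + 10 * h + 10 / W)) * DD ≤ (2 * h * (1 + 12 * h) + δ) * DD :=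
      mul_le_mul_of_nonneg_right e1 hDD0
    have e3 : 6 * w * ((1 + 1 / κ) * (8 * T₀) * Y * (C * W * Real.exp (-(1 / 4) * Y)) ^ 2) ≤ 1 := by
      have e4 : 6 * w * ((1 + 1 / κ) * (8 * T₀) * Y * (C * W * Real.exp (-(1 / 4) * Y)) ^ 2) =
          6 * ((1 + 1 / κ) * (8 * T₀) * C ^ 2) * (w * (Y * W ^ 2) * Real.exp (-(1 / 2) * Y)) := by
        have : Real.exp (-(1 / 2) * Y) = Real.exp (-(1 / 4) * Y) ^ 2 := by
          rw [← Real.exp_nat_mul]; congr 1; push_cast; ring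
        rw [this]; ring
      rw [e4]
      refine le_trans ?_ (hY₀ Y ((le_max_left _ _).trans (hW.trans hWY')))
      refine mul_le_mul_of_nonneg_left ?_ (by positivity)
      refine mul_le_mul_of_nonneg_right ?_ (Real.exp_pos _).le
      calc w * (Y * W ^ 2) ≤ Y * (Y * Y) := by gcongr
        _ = Y ^ 3 := by ring
    linarith
  have hRpos : 0 ≤ (2 * h * (1 + 12 * h) + δ) * DD + 1 := by positivity
  have hmain2 := hmain.trans (ENNReal.ofReal_le_ofReal hB)
  rw [← hY, intervalIntegral.integral_of_le (show (0 : ℝ) ≤ Y + R by linarith), ← hDD,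
    intervalIntegral.integral_of_le (by linarith)]
  refine integral_le_of_lintegral_le _ _ ?_ hRpos (le_trans ?_ hmain2)
  · refine Filter.Eventually.of_forall fun u => ?_
    simp only [Pi.zero_apply]
    rw [intervalIntegral.integral_of_le hY0.le]
    exact mul_nonneg (by positivity) (setIntegral_nonneg measurableSet_Ioc fun t _ =>
      mul_nonneg (kk_nonneg _ _ _) (by positivity))
  · refine lintegral_mono fun u => ?_
    rw [ENNReal.ofReal_mul (by positivity), intervalIntegral.integral_of_le hY0.le]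
    refine mul_le_mul_right ?_ _
    refine (ofReal_integral_le _ _ ?_).trans ?_
    · exact Filter.Eventually.of_forall fun t => mul_nonneg (kk_nonneg _ _ _) (by positivity)
    · refine lintegral_mono fun t => ?_
      rw [ENNReal.ofReal_mul' (by positivity), PU_eq]

end Pool.Agent.SW
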