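import Pool.Agent.Lib.MP_9cfc0a_nt.Mg.G021
import Pool.Agent.Lib.MP_9cfc0a_nt.SW.CH2
import Pool.Agent.Lib.MP_9cfc0a_nt.SW.NC2
import Pool.Agent.Lib.MP_9cfc0a_nt.SW.PD

set_option autoImplicit false

/-! Task MA2: the lower bound for primitive characters. -/

namespace Pool.Agent.SW

open Complex MeasureTheory
open Pool.Agent.SK Pool.Agent.SD
open Pool.Agent.SO (prim NN)

private theorem MA2_gen2 (K : ℝ → ℝ) (hK : Continuous K) (F : ℝ × ℝ → ℂ) (hF : Continuous F) (A Y : ℝ) :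
    Continuous (fun u : ℝ => ∫ t in A..Y, K t * ‖F (u, t)‖ ^ 2) := by
  have h2 : Continuous (fun p : ℝ × ℝ => K p.2) := hK.comp continuous_snd
  have h3 : Continuous (fun p : ℝ × ℝ => K p.2 * ‖F (p.1, p.2)‖ ^ 2) :=
    h2.mul (hF.norm.pow 2)
  exact intervalIntegral.continuous_parametric_intervalIntegral_of_continuous'
    (f := fun (u : ℝ) (t : ℝ) => K t * ‖F (u, t)‖ ^ 2) h3 A Y

private theorem MA2_inner (q : ℕ) (χ : DirichletCharacter ℂ q) (W h w s A Y : ℝ) (hW : 0 < W) :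
    Continuous (fun u : ℝ => ∫ t in A..Y, kk w s t * ‖PU χ W (u - h) (u + h) t‖ ^ 2) :=
  MA2_gen2 (fun t => kk w s t) (kk_continuous w s) (fun p : ℝ × ℝ => PU χ W (p.1 - h) (p.1 + h) p.2)
    (PU_continuous₂ q χ W h hW) A Y

/-- The conditions on `L`. -/
private theorem MA2_threshold (W₀ : ℝ) : ∃ L₁ : ℝ, 16 ≤ L₁ ∧ ∀ L : ℝ, L₁ ≤ L →
    W₀ ≤ L ^ (1 / 2 - 1 / 4 : ℝ) ∧ (L ^ (1 / 2 - 1 / 4 : ℝ)) ^ 2 ≤ L / 4 := by
  have e1 : ∀ᶠ L : ℝ in Filter.atTop, (16 : ℝ) ≤ L := Filter.eventually_ge_atTop _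
  have e2 : ∀ᶠ L : ℝ in Filter.atTop, W₀ ≤ L ^ (1 / 2 - 1 / 4 : ℝ) :=
    (tendsto_rpow_atTop (by norm_num : (0 : ℝ) < 1 / 2 - 1 / 4)).eventually_ge_atTop _
  have e3 : ∀ᶠ L : ℝ in Filter.atTop, (4 : ℝ) ≤ L ^ (1 / 2 : ℝ) :=
    (tendsto_rpow_atTop (by norm_num : (0 : ℝ) < 1 / 2)).eventually_ge_atTop _
  obtain ⟨X, hX⟩ := Filter.eventually_atTop.mp (e1.and (e2.and e3))
  refine ⟨max X 16, le_max_right _ _, ?_⟩
  intro L hL
  obtain ⟨h1, h2, h3⟩ := hX L ((le_max_left _ _).trans hL)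
  have hL0 : 0 < L := by linarith
  refine ⟨h2, ?_⟩
  have e : (L ^ (1 / 2 - 1 / 4 : ℝ)) ^ 2 * L ^ (1 / 2 : ℝ) = L := by
    rw [← Real.rpow_natCast, ← Real.rpow_mul hL0.le, ← Real.rpow_add hL0]
    norm_num
  have h5 : 0 ≤ (L ^ (1 / 2 - 1 / 4 : ℝ)) ^ 2 := by positivity
  nlinarith [mul_le_mul_of_nonneg_left h3 h5]

/-- MA2. PROOF. As `prim_lower2` in SD/MA.lean (copy it; or `prim_lower3` in MA.lean), with `1` in place of its `ε` in `few_bad`. `h, δ, L₀` from `final_numeric4 ε`; `T₁` from `weight_integral δ`; `T₀ = T₁ + 2`; `η, θ` from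
`chain4 β δ h T₁`; given `κ`: `D, r₁` from `few_bad 1 (min θ κ) (T₁ + 2)`, `r₂` from `chain4 .. D`, `W₀` from `plancherel_blocks h δ T₁`. `W = L^(1/2-1/4)`, `R := 2 W √(s + w') ≤ δ L` (`choose_R β δ`),
`W² = L^(1/2) ≤ L/4 ≤ s + w` for large `L`. Let `w', s` be as in the hypothesis. If `w' < L/4 + R` then `8 w'² L - 2 w' L² = 2 w' L (4 w' - L)`, which is `≤ 0` for `w' ≤ L/4` and `≤ 8 δ w' L² ≤ 32 δ w'² L ≤ ε w'² L` otherwise, a contradiction
to `0 ≤ TB` (`TB_nonneg`, `gF_nonneg`). Otherwise `w := w' - R ≥ L/4`, `w ≤ s`, `R ≥ 2 W √(s+w)`; `chain4` for `|u| ≤ T₁`, add the nonnegative integral over `[0, √L]`, multiply by `1/(1/4+u²)`, integrate over `u` (`NW_int`, `NU_eq_NW`, `wt_upper`;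
continuity in `u` of the inner integral: `inner_continuous` in SK is for the weight `1 - t/Y`; prove the analogue for `kk w s t` from `PU_continuous₂`, `intervalIntegral.continuous_parametric_intervalIntegral_of_continuous'`),
`plancherel_blocks` (`s + w + R = s + w'`, `w + R = w'`), `final_numeric4` with `D = TB χ w' s`. -/
theorem prim_lower4 (ε β : ℝ) (hε : 0 < ε) (hε1 : ε ≤ 1) (hβ : 0 < β) (hβ1 : β ≤ 1 / 2) :
    ∃ T₀ : ℝ, 0 < T₀ ∧ ∀ κ : ℝ, 0 < κ → ∃ r₀ : ℕ, 3 ≤ r₀ ∧ ∀ (r : ℕ) [NeZero r], r₀ ≤ r →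
      ∀ S : Finset (DirichletCharacter ℂ r), S ⊆ prim r →
      (∀ χ ∈ S, ∃ w s : ℝ, 0 < w ∧ w ≤ s ∧ s + w ≤ Real.log r ^ (3 / 2 - β) ∧
        TB χ w s < 8 * (w ^ 2 * Real.log r) - 4 * (w ^ 2 * gF (GZ χ T₀)) - 2 * (w * Real.log r ^ 2) -
          ε * (w ^ 2 * Real.log r)) →
      (S.card : ℝ) ≤ κ * NN r := by
  obtain ⟨h, δ, hh, hh1, hδ, hδε, L₀, hL₀, hfin⟩ := final_numeric4 ε hε hε1
  obtain ⟨T₁, hT₁, hw1, hw2⟩ := weight_integral δ hδ
  obtain ⟨η, θ, hη, hη1, hηδ, hθ, hchain⟩ := chain4 β δ h T₁ hβ hβ1 hδ hh hh1 hT₁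
  refine ⟨T₁ + 2, by linarith, ?_⟩
  intro κ hκ
  obtain ⟨D, hD, r₁, hr₁, hfew⟩ := few_bad 1 (min θ κ) (T₁ + 2) (by norm_num) (by norm_num)
    (lt_min hθ hκ) (by linarith)
  obtain ⟨r₂, hr₂, hch⟩ := hchain D hD
  obtain ⟨W₀, hW₀, hpl⟩ := plancherel_blocks h δ T₁ hh hh1 hδ hT₁
  obtain ⟨L₁, hL₁, hthr⟩ := MA2_threshold W₀
  obtain ⟨L₂, hL₂, hRR⟩ := choose_R β δ hβ hβ1 hδ
  set X : ℝ := max L₀ (max L₁ L₂) with hX
  obtain ⟨r₃, hr₃⟩ := exists_nat_gt (Real.exp X)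
  refine ⟨max (max r₁ r₂) r₃, hr₁.trans ((le_max_left _ _).trans (le_max_left _ _)), ?_⟩
  intro r _ hr S hS hbad
  have hr1 : r₁ ≤ r := ((le_max_left _ _).trans (le_max_left _ _)).trans hr
  have hr2 : r₂ ≤ r := ((le_max_right _ _).trans (le_max_left _ _)).trans hr
  have hr3 : r₃ ≤ r := (le_max_right _ _).trans hr
  have hr0 : (0 : ℝ) < r := by
    have : 0 < r := by omega
    exact_mod_cast this
  have hLX : X ≤ Real.log r := by
    rw [Real.le_log_iff_exp_le hr0]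
    have h1 : (r₃ : ℝ) ≤ r := by exact_mod_cast hr3
    linarith
  have hLL0 : L₀ ≤ Real.log r := (le_max_left _ _).trans hLX
  have hLL1 : L₁ ≤ Real.log r := ((le_max_left _ _).trans (le_max_right _ _)).trans hLX
  have hLL2 : L₂ ≤ Real.log r := ((le_max_right _ _).trans (le_max_right _ _)).trans hLX
  have hres := hfew r hr1 S hS (fun χ hχ hG => ?_)
  · refine hres.trans ?_
    exact mul_le_mul_of_nonneg_right (min_le_right _ _) (SO.A3_NN_nonneg r)
  · obtain ⟨w', s, hw'0, hw's, hsB, hlt⟩ := hbad χ hχ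
    have hχp := hS hχ
    have hG' := M2_good_mono χ 1 _ θ D (T₁ + 2) (min_le_left _ _) hG
    set L : ℝ := Real.log r with hL
    have hL16 : 16 ≤ L := hL₁.trans hLL1
    have hL0 : 0 < L := by linarith
    obtain ⟨hW0W, hW2⟩ := hthr L hLL1
    have hWR := hRR L (s + w') hLL2 (by linarith) hsB
    set W : ℝ := L ^ (1 / 2 - 1 / 4 : ℝ) with hW
    have hW0 : 0 < W := by linarith
    have hTB := TB_nonneg χ w' s (by linarith)
    have hgF := gF_nonneg (GZ χ (T₁ + 2))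
    set R : ℝ := 2 * W * Real.sqrt (s + w') with hR
    have hR0 : 0 ≤ R := by positivity
    rcases lt_or_ge w' (L / 4 + R) with hcase | hcase
    · exfalso
      have h4 : 0 ≤ w' ^ 2 * gF (GZ χ (T₁ + 2)) := by positivity
      have h5 : 0 < w' * L := by positivity
      have h6 : 0 < w' ^ 2 * L := by positivity
      rcases le_or_gt w' (L / 4) with hc | hc
      · have h7 : w' * L * (4 * w' - L) ≤ 0 := by
          have h8 : 4 * w' - L ≤ 0 := by linarith
          nlinarith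
        nlinarith [mul_pos hε h6]
      · have h1 : w' * L * (4 * w' - L) ≤ w' * L * (4 * (δ * L)) := by
          refine mul_le_mul_of_nonneg_left ?_ h5.le
          linarith
        have h2 : δ * (w' * L) * L ≤ δ * (w' * L) * (4 * w') :=
          mul_le_mul_of_nonneg_left (by linarith) (by positivity)
        have h3 : 32 * δ * (w' ^ 2 * L) ≤ ε * (w' ^ 2 * L) := mul_le_mul_of_nonneg_right hδε h6.le
        nlinarith
    · obtain ⟨w, hwR⟩ : ∃ w : ℝ, w = w' - R := ⟨_, rfl⟩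
      have hw4 : L ≤ 4 * w := by linarith
      have hw0 : 0 < w := by linarith
      have hww : w ≤ w' := by linarith
      have hws : w ≤ s := by linarith
      have hswB : s + w ≤ L ^ (3 / 2 - β) := by linarith
      have hWR' : 2 * W * Real.sqrt (s + w) ≤ R := by
        rw [hR]
        refine mul_le_mul_of_nonneg_left (Real.sqrt_le_sqrt (by linarith)) (by positivity)
      have hP := hpl W w s R hW0W (by linarith) hw0 hws hWR' r χ
      have e1 : w + R = w' := by linarith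
      have e2 : s + w + R = s + w' := by linarith
      rw [e1, e2] at hP
      set Q : ℝ := h / (2 * Real.pi) * (16 * (w ^ 2 * L) - 4 * (w * L ^ 2)) - δ * (w ^ 2 * L) with hQ
      have hA0 : 0 ≤ L ^ (1 / 2 : ℝ) := by positivity
      have hinner : ∀ u ∈ Set.Icc (-T₁) T₁, Q - 4 * w ^ 2 * NU (GZ χ (T₁ + 2)) (h + η) u ≤
          ∫ t in (0 : ℝ)..(s + w), kk w s t * ‖PU χ W (u - h) (u + h) t‖ ^ 2 := by
        intro u hu
        have h1 := hch r hr2 χ hχp hG' u (abs_le.mpr ⟨hu.1, hu.2⟩) w s hw4 hws hswB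
        rw [← hL, ← hW] at h1
        have h1' : Q - 4 * w ^ 2 * NU (GZ χ (T₁ + 2)) (h + η) u ≤
            ∫ t in (L ^ (1 / 2 : ℝ))..(s + w), kk w s t * ‖PU χ W (u - h) (u + h) t‖ ^ 2 := by
          rw [hQ]
          linarith
        refine h1'.trans ?_
        have hcont : Continuous fun t : ℝ => kk w s t * ‖PU χ W (u - h) (u + h) t‖ ^ 2 := by
          have h2 := M2_PU_cont r χ W h u hW0
          exact (kk_continuous w s).mul (h2.norm.pow 2)
        rw [← intervalIntegral.integral_add_adjacent_intervals (a := 0) (b := L ^ (1 / 2 : ℝ)) (c := s + w)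
          (hcont.intervalIntegrable _ _) (hcont.intervalIntegrable _ _)]
        have h3 : 0 ≤ ∫ t in (0 : ℝ)..(L ^ (1 / 2 : ℝ)), kk w s t * ‖PU χ W (u - h) (u + h) t‖ ^ 2 := by
          refine intervalIntegral.integral_nonneg hA0 fun t ht => ?_
          exact mul_nonneg (kk_nonneg w s t) (by positivity)
        linarith
      have hwc : Continuous fun u : ℝ => 1 / (1 / 4 + u ^ 2) := by
        refine Continuous.div continuous_const (by fun_prop) fun u => ?_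
        positivity
      have hNint : IntervalIntegrable (fun u : ℝ => 1 / (1 / 4 + u ^ 2) * NU (GZ χ (T₁ + 2)) (h + η) u)
          volume (-T₁) T₁ := by
        have h2 := NW_int (GZ χ (T₁ + 2)) (fun _ => 1) (h + η) (-T₁) T₁
        simpa only [NU_eq_NW] using h2
      set J : ℝ := ∫ u in (-T₁)..T₁, 1 / (1 / 4 + u ^ 2) * NU (GZ χ (T₁ + 2)) (h + η) u with hJ
      have hJle : J ≤ 2 * (h + η) * (1 + 2 * (h + η) + 4 * (h + η) ^ 2) * gF (GZ χ (T₁ + 2)) := by
        have h2 := wt_upper (GZ χ (T₁ + 2)) (fun _ => 1) (h + η) T₁ (fun _ _ => zero_le_one)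
          (by linarith) hT₁.le
        rw [← gF_eq_gW] at h2
        simp only [← NU_eq_NW] at h2
        exact h2
      have hIB : (∫ u in (-T₁)..T₁, 1 / (1 / 4 + u ^ 2)) * Q - 4 * w ^ 2 * J ≤
          ∫ u in (-T₁)..T₁, 1 / (1 / 4 + u ^ 2) *
            ∫ t in (0 : ℝ)..(s + w), kk w s t * ‖PU χ W (u - h) (u + h) t‖ ^ 2 := by
        have hi1 : IntervalIntegrable (fun u : ℝ => 1 / (1 / 4 + u ^ 2) * Q) volume (-T₁) T₁ :=
          (hwc.mul continuous_const).intervalIntegrable _ _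
        have hi2 : IntervalIntegrable (fun u : ℝ => 4 * w ^ 2 * (1 / (1 / 4 + u ^ 2) *
            NU (GZ χ (T₁ + 2)) (h + η) u)) volume (-T₁) T₁ := hNint.const_mul _
        rw [hJ, ← intervalIntegral.integral_mul_const, ← intervalIntegral.integral_const_mul,
          ← intervalIntegral.integral_sub hi1 hi2]
        refine intervalIntegral.integral_mono_on (by linarith) (hi1.sub hi2)
          ((hwc.mul (MA2_inner r χ W h w s 0 (s + w) hW0)).intervalIntegrable _ _) fun u hu => ?_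
        have h5 : 0 ≤ 1 / (1 / 4 + u ^ 2) := by positivity
        have h4 := mul_le_mul_of_nonneg_left (hinner u hu) h5
        refine le_trans (le_of_eq ?_) h4
        ring
      have hfinal := hfin L w w' (TB χ w' s) _ (gF (GZ χ (T₁ + 2))) J η hLL0 hw4 hww (by linarith)
        hTB hw1 hw2 hgF hη hηδ hJle (hIB.trans hP)
      linarith

end Pool.Agent.SW
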