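import Pool.Agent.Lib.MP_9cfc0a_nt.Mg.G060

set_option autoImplicit false

/-! Task TC2: one character, from the primitive character to the character. -/

namespace Pool.Agent.SW

open Complex MeasureTheory
open Pool.Agent.SK MP9cfc0a.SK
open Pool.Agent.EM (psiC V psi)

theorem TC2_nonneg {q : ℕ} (χ : DirichletCharacter ℂ q) (w s : ℝ) (hws : 0 ≤ s + w) :
    0 ≤ TB χ w s := by
  unfold TB
  apply intervalIntegral.integral_nonneg hws
  intro t _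
  apply mul_nonneg _ (sq_nonneg _)
  unfold kk
  have h1 := le_max_left 0 (w - t)
  have h2 := le_max_left 0 (w - |t - s|)
  linarith

/-- TC2. PROOF. `L = log q`, `Lr = log (conductor)`, `(1 - δ) L ≤ Lr ≤ L`, `s + w ≤ L^(3/2-β) ≤ Lr^(3/2-β/2)` by `hL2` (see `one_char` in SD/FE.lean). If `w ≤ L/4` the claim is trivial: `8 w² L ≤ 2 w L²`, `0 ≤ TB`. Let `w ≥ L/4`.
`X := 8 w² Lr - 4 w² g - 2 w Lr² - (ε/8) w² Lr ≤ TB χ*`, `0 ≤ TB χ*`, `X ≤ 8 w² L`, so `(1 - η) TB χ* ≥ X - 8 η w² L` (two cases, `X ≥ 0` or `X < 0`) with `η = ε/64`: `8 η = ε/8`. `X ≥ 8 w² (1-δ) L - 4 w² g - 2 w L² - (ε/8) w² L`, `8 δ = ε/8`.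
`TB_induced`: the error `6 w 272/η L^(3/2) = 1632 (64/ε) w L^(3/2) ≤ (ε/8) w² L` by `hL` and `w ≥ L/4` (`w² L ≥ (1/4) w L²`). -/
theorem one_char4 (ε β δ : ℝ) (hε : 0 < ε) (hε1 : ε ≤ 1) (hβ : 0 < β) (hβ1 : β ≤ 1 / 2) (hδ : δ = ε / 64) (q : ℕ)
    [NeZero q] (hq : 3 ≤ q) (hL : 1632 * 2048 / ε ^ 2 ≤ (Real.log q) ^ (1 / 2 : ℝ))
    (hL2 : (1 - δ) ^ (-(3 / 2 - β / 2)) ≤ (Real.log q) ^ (β / 2))
    (χ : DirichletCharacter ℂ q) (hr : (q : ℝ) ^ (1 - δ) ≤ (χ.conductor : ℝ)) (g : ℝ) (hg : 0 ≤ g)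
    (h : ∀ w s : ℝ, 0 < w → w ≤ s → s + w ≤ Real.log χ.conductor ^ (3 / 2 - β / 2) →
      8 * (w ^ 2 * Real.log χ.conductor) - 4 * (w ^ 2 * g) - 2 * (w * Real.log χ.conductor ^ 2) -
        ε / 8 * (w ^ 2 * Real.log χ.conductor) ≤ TB χ.primitiveCharacter w s)
    (w s : ℝ) (hw : 0 < w) (hws : w ≤ s) (hs : s + w ≤ Real.log q ^ (3 / 2 - β)) :
    8 * (w ^ 2 * Real.log q) - 4 * (w ^ 2 * g) - 2 * (w * Real.log q ^ 2) - ε * (w ^ 2 * Real.log q) ≤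
      TB χ w s := by
  have hq3 : (3 : ℝ) ≤ q := by exact_mod_cast hq
  have hq0 : (0 : ℝ) < q := by linarith
  set L := Real.log q with hLdef
  have hL1 : 1 ≤ L := by
    rw [hLdef, Real.le_log_iff_exp_le hq0]
    exact Real.exp_one_lt_d9.le.trans (by linarith)
  have hL0 : 0 ≤ L := by linarith
  have hδ0 : 0 < δ := by rw [hδ]; positivity
  have hδ1 : δ ≤ 1 / 64 := by
    rw [hδ]
    linarith
  have hrq : (χ.conductor : ℝ) ≤ q := by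
    exact_mod_cast Nat.le_of_dvd (Nat.pos_of_ne_zero (NeZero.ne q))
      (DirichletCharacter.conductor_dvd_level χ)
  set r : ℝ := (χ.conductor : ℝ) with hrdef
  have hr0 : 0 < r := lt_of_lt_of_le (Real.rpow_pos_of_pos hq0 _) hr
  have hlr : (1 - δ) * L ≤ Real.log r := by
    have := Real.log_le_log (Real.rpow_pos_of_pos hq0 _) hr
    rwa [Real.log_rpow hq0] at this
  have hlr0 : 0 < Real.log r := by nlinarith
  have hlrL : Real.log r ≤ L := Real.log_le_log hr0 hrq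
  have hw20 : 0 ≤ w ^ 2 := sq_nonneg w
  have hw2g : 0 ≤ w ^ 2 * g := mul_nonneg hw20 hg
  have hw2L0 : 0 ≤ w ^ 2 * L := mul_nonneg hw20 hL0
  rcases le_or_gt w (L / 4) with hcase | hcase
  · have h1 : w * (w * L) ≤ L / 4 * (w * L) :=
      mul_le_mul_of_nonneg_right hcase (mul_nonneg hw.le hL0)
    have h2 : 0 ≤ ε * (w ^ 2 * L) := mul_nonneg hε.le hw2L0
    have h3 := TC2_nonneg χ w s (by linarith)
    nlinarith
  have hrange : s + w ≤ Real.log r ^ (3 / 2 - β / 2) := by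
    have ha : (0 : ℝ) ≤ 3 / 2 - β / 2 := by linarith
    have hd : (0 : ℝ) < 1 - δ := by linarith
    have h1 : ((1 - δ) * L) ^ (3 / 2 - β / 2) ≤ Real.log r ^ (3 / 2 - β / 2) :=
      Real.rpow_le_rpow (mul_nonneg hd.le hL0) hlr ha
    rw [Real.mul_rpow hd.le hL0] at h1
    have h2 : L ^ (3 / 2 - β / 2) = L ^ (3 / 2 - β) * L ^ (β / 2) := by
      rw [← Real.rpow_add (by linarith)]
      congr 1
      ring
    have h3 : (1 - δ) ^ (3 / 2 - β / 2) * (1 - δ) ^ (-(3 / 2 - β / 2)) = 1 := by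
      rw [← Real.rpow_add hd]
      simp
    have h4 : 0 ≤ (1 - δ) ^ (3 / 2 - β / 2) := Real.rpow_nonneg hd.le _
    have h5 : 1 ≤ (1 - δ) ^ (3 / 2 - β / 2) * L ^ (β / 2) := by
      have h50 := mul_le_mul_of_nonneg_left hL2 h4
      rwa [h3] at h50
    have h6 : 0 ≤ L ^ (3 / 2 - β) := Real.rpow_nonneg hL0 _
    have h7 : L ^ (3 / 2 - β) * 1 ≤ L ^ (3 / 2 - β) * ((1 - δ) ^ (3 / 2 - β / 2) * L ^ (β / 2)) :=
      mul_le_mul_of_nonneg_left h5 h6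
    have h8 : (1 - δ) ^ (3 / 2 - β / 2) * L ^ (3 / 2 - β / 2) =
        L ^ (3 / 2 - β) * ((1 - δ) ^ (3 / 2 - β / 2) * L ^ (β / 2)) := by
      rw [h2]
      ring
    linarith
  have h1 := h w s hw hws hrange
  have h2 := TB_induced q hq χ w s δ hw hws hδ0 (by linarith)
  set Lr := Real.log r with hLrdef
  have hw3 : L / 4 * (w * L) ≤ w * (w * L) :=
    mul_le_mul_of_nonneg_right hcase.le (mul_nonneg hw.le hL0)
  have h5 : 6 * w * (272 / δ * L ^ (3 / 2 : ℝ)) ≤ ε / 8 * (w ^ 2 * L) := by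
    have h6 : L ^ (3 / 2 : ℝ) * L ^ (1 / 2 : ℝ) = L ^ 2 := by
      rw [← Real.rpow_add (by linarith)]
      norm_num
    have hp3 : 0 < L ^ (3 / 2 : ℝ) := Real.rpow_pos_of_pos (by linarith) _
    have h7 : L ^ (3 / 2 : ℝ) * (1632 * 2048 / ε ^ 2) ≤ L ^ 2 := by
      rw [← h6]
      exact mul_le_mul_of_nonneg_left hL hp3.le
    have h8 : 6 * w * (272 / δ * L ^ (3 / 2 : ℝ)) =
        ε / 32 * (w * (L ^ (3 / 2 : ℝ) * (1632 * 2048 / ε ^ 2))) := by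
      rw [hδ]
      field_simp
      ring
    have h9 : w * (L ^ (3 / 2 : ℝ) * (1632 * 2048 / ε ^ 2)) ≤ w * L ^ 2 :=
      mul_le_mul_of_nonneg_left h7 hw.le
    have h10 : w * L ^ 2 ≤ 4 * (w ^ 2 * L) := by nlinarith
    have h11 : ε / 32 * (w * (L ^ (3 / 2 : ℝ) * (1632 * 2048 / ε ^ 2))) ≤ ε / 32 * (4 * (w ^ 2 * L)) :=
      mul_le_mul_of_nonneg_left (h9.trans h10) (by positivity)
    rw [h8]
    linarith
  have hT0 := TC2_nonneg χ.primitiveCharacter w s (by linarith)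
  set X := 8 * (w ^ 2 * Lr) - 4 * (w ^ 2 * g) - 2 * (w * Lr ^ 2) - ε / 8 * (w ^ 2 * Lr) with hX
  have hLrL2 : Lr ^ 2 ≤ L ^ 2 := pow_le_pow_left₀ hlr0.le hlrL 2
  have hw2Lr : w ^ 2 * Lr ≤ w ^ 2 * L := mul_le_mul_of_nonneg_left hlrL hw20
  have hw2Lr0 : 0 ≤ w ^ 2 * Lr := mul_nonneg hw20 hlr0.le
  have hwLr2 : 0 ≤ w * Lr ^ 2 := mul_nonneg hw.le (sq_nonneg _)
  have hεLr : 0 ≤ ε / 8 * (w ^ 2 * Lr) := mul_nonneg (by positivity) hw2Lr0
  have hXle : X ≤ 8 * (w ^ 2 * L) := by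
    rw [hX]
    linarith
  have h8δ : 8 * δ = ε / 8 := by
    rw [hδ]
    ring
  have h20 : X - ε / 8 * (w ^ 2 * L) ≤ (1 - δ) * TB χ.primitiveCharacter w s := by
    rcases le_or_gt 0 X with h0 | h0
    · have h21 : (1 - δ) * X ≤ (1 - δ) * TB χ.primitiveCharacter w s :=
        mul_le_mul_of_nonneg_left h1 (by linarith)
      have h22 : δ * X ≤ δ * (8 * (w ^ 2 * L)) := mul_le_mul_of_nonneg_left hXle hδ0.le
      have h23 : δ * (8 * (w ^ 2 * L)) = ε / 8 * (w ^ 2 * L) := by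
        rw [← h8δ]
        ring
      linarith
    · have h21 : 0 ≤ (1 - δ) * TB χ.primitiveCharacter w s := mul_nonneg (by linarith) hT0
      have h22 : 0 ≤ ε / 8 * (w ^ 2 * L) := mul_nonneg (by positivity) hw2L0
      linarith
  have h24 : w ^ 2 * L - δ * (w ^ 2 * L) ≤ w ^ 2 * Lr := by
    have h25 : w ^ 2 * ((1 - δ) * L) ≤ w ^ 2 * Lr := mul_le_mul_of_nonneg_left hlr hw20
    linarith
  have h27 : 8 * (δ * (w ^ 2 * L)) = ε / 8 * (w ^ 2 * L) := by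
    rw [← h8δ]
    ring
  have h28 : w * Lr ^ 2 ≤ w * L ^ 2 := mul_le_mul_of_nonneg_left hLrL2 hw.le
  have h29 : ε / 8 * (w ^ 2 * Lr) ≤ ε / 8 * (w ^ 2 * L) :=
    mul_le_mul_of_nonneg_left hw2Lr (by positivity)
  have h30 : 0 ≤ ε * (w ^ 2 * L) := mul_nonneg hε.le hw2L0
  rw [hX] at h20
  linarith

end Pool.Agent.SW
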