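import Pool.Agent.Lib.MP_9cfc0a_nt.SW.NE
import Pool.Agent.Lib.MP_9cfc0a_nt.Mg.G061

set_option autoImplicit false

/-! Task FN2: every window. -/

namespace Pool.Agent.SW

open Complex MeasureTheory
open Pool.Agent.SK Pool.Agent.SD MP9cfc0a.SK
open Pool.Agent.EM (psiC V psi)

/-- The number of the characters with a large energy in every window `[e^(s-L), e^(s+L)]`, `L ≤ s ≤ L^(3/2-β) - L`. -/
noncomputable def goodCount (q : ℕ) [NeZero q] (β c : ℝ) : ℕ :=
  Set.ncard {χ : DirichletCharacter ℂ q | ∀ s : ℝ, Real.log q ≤ s → s + Real.log q ≤ Real.log q ^ (3 / 2 - β) →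
    c * Real.log q ^ 3 ≤ FE (fun x => ‖psiC χ x‖ ^ 2) (Real.log q) s}

/-- The near weight is bounded. -/
lemma FN_bdd (w a b : ℝ) (ha : 1 ≤ a) (hb : Real.log b ≤ w) (g : ℝ → ℝ) (hg : IntegrableOn g (Set.Ioc a b)) :
    IntegrableOn (fun x => (w - Real.log x) * g x) (Set.Ioc a b) := by
  refine Integrable.bdd_mul (c := w) hg ?_ ?_
  · have : Measurable (fun x : ℝ => w - Real.log x) := by fun_prop
    exact this.aestronglyMeasurable
  · refine (ae_restrict_iff' measurableSet_Ioc).mpr (Filter.Eventually.of_forall fun x hx => ?_)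
    have h1 : 0 ≤ Real.log x := Real.log_nonneg (by linarith [hx.1])
    have h2 : Real.log x ≤ Real.log b := Real.log_le_log (by linarith [hx.1]) hx.2
    rw [Real.norm_of_nonneg (by linarith)]
    linarith

/-- The main term. -/
lemma FN_main (q : ℕ) (hq : 3 ≤ q) (w : ℝ) (hw : Real.log q ≤ w) :
    IntegrableOn (fun x : ℝ => (w - Real.log x) * (x * Real.log q / x ^ 2)) (Set.Ioc (q : ℝ) (Real.exp w)) ∧
    ∫ x in Set.Ioc (q : ℝ) (Real.exp w), (w - Real.log x) * (x * Real.log q / x ^ 2) =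
      Real.log q * (w - Real.log q) ^ 2 / 2 := by
  have hq3r : (3 : ℝ) ≤ q := by exact_mod_cast hq
  have hL0 : 0 < Real.log q := Real.log_pos (by linarith)
  have hw0 : 0 < w := by linarith
  have hy : (q : ℝ) ≤ Real.exp w := (Real.log_le_iff_le_exp (by linarith)).1 hw
  obtain ⟨h1, h2⟩ := main_term q hq (Real.exp w) hy
  rw [Real.log_exp] at h1 h2
  have h3 : (fun x : ℝ => (w - Real.log x) * (x * Real.log q / x ^ 2)) =
      fun x : ℝ => w * ((1 - Real.log x / w) * (x * Real.log q / x ^ 2)) := by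
    funext x
    have : w - Real.log x = w * (1 - Real.log x / w) := by
      field_simp
    rw [this]
    ring
  rw [h3]
  refine ⟨h1.const_mul w, ?_⟩
  rw [integral_const_mul, h2]
  field_simp

/-- The near part for `w ≥ log q`. -/
lemma FN_split (q : ℕ) (hq : 3 ≤ q) (w : ℝ) (hw : Real.log q ≤ w) :
    NE (fun x => V x q) w = (∫ x in Set.Ioc (1 : ℝ) q, (w - Real.log x) * (V x q / x ^ 2)) +
      (∫ x in Set.Ioc (q : ℝ) (Real.exp w), (w - Real.log x) * ((V x q - x * Real.log q) / x ^ 2)) +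
        Real.log q * (w - Real.log q) ^ 2 / 2 := by
  have hq3r : (3 : ℝ) ≤ q := by exact_mod_cast hq
  have hq1 : (1 : ℝ) ≤ q := by linarith
  have hy : (q : ℝ) ≤ Real.exp w := (Real.log_le_iff_le_exp (by linarith)).1 hw
  have iV := FN_bdd w 1 (Real.exp w) le_rfl (by rw [Real.log_exp]) _
    (EM.integrable_V_window q 1 (Real.exp w) le_rfl)
  have hu : Set.Ioc (1 : ℝ) q ∪ Set.Ioc (q : ℝ) (Real.exp w) = Set.Ioc 1 (Real.exp w) :=
    Set.Ioc_union_Ioc_eq_Ioc hq1 hy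
  have i1 : IntegrableOn (fun x => (w - Real.log x) * (V x q / x ^ 2)) (Set.Ioc (1 : ℝ) q) :=
    iV.mono_set (Set.Ioc_subset_Ioc_right hy)
  have i2 : IntegrableOn (fun x => (w - Real.log x) * (V x q / x ^ 2)) (Set.Ioc (q : ℝ) (Real.exp w)) :=
    iV.mono_set (Set.Ioc_subset_Ioc_left hq1)
  have hsplit : NE (fun x => V x q) w
      = (∫ x in Set.Ioc (1 : ℝ) q, (w - Real.log x) * (V x q / x ^ 2))
        + ∫ x in Set.Ioc (q : ℝ) (Real.exp w), (w - Real.log x) * (V x q / x ^ 2) := by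
    unfold NE
    rw [← hu]
    refine setIntegral_union ?_ measurableSet_Ioc i1 i2
    rw [Set.disjoint_left]
    intro x hx hx'
    exact absurd hx.2 (not_le.2 hx'.1)
  obtain ⟨m1, m2⟩ := FN_main q hq w hw
  have hdiff : ∫ x in Set.Ioc (q : ℝ) (Real.exp w), (w - Real.log x) * ((V x q - x * Real.log q) / x ^ 2)
      = (∫ x in Set.Ioc (q : ℝ) (Real.exp w), (w - Real.log x) * (V x q / x ^ 2))
        - ∫ x in Set.Ioc (q : ℝ) (Real.exp w), (w - Real.log x) * (x * Real.log q / x ^ 2) := by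
    rw [← integral_sub i2 m1]
    refine integral_congr_ae (Filter.Eventually.of_forall fun x => ?_)
    show (w - Real.log x) * ((V x q - x * Real.log q) / x ^ 2) =
      (w - Real.log x) * (V x q / x ^ 2) - (w - Real.log x) * (x * Real.log q / x ^ 2)
    rw [sub_div]
    ring
  rw [hsplit, hdiff, m2]
  ring

/-- The sum over the characters of the near parts. -/
lemma FN_sum (q : ℕ) [NeZero q] (S : Finset (DirichletCharacter ℂ q)) (hS : ∀ χ ∈ S, χ ≠ 1) (w : ℝ) :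
    ∑ χ ∈ S, NE (fun x => ‖psiC χ x‖ ^ 2) w ≤ (q.totient : ℝ) * NE (fun x => V x q) w := by
  have iV := FN_bdd w 1 (Real.exp w) le_rfl (by rw [Real.log_exp]) _
    (EM.integrable_V_window q 1 (Real.exp w) le_rfl)
  have iχ : ∀ χ ∈ S, IntegrableOn (fun x => (w - Real.log x) *
      (‖psiC χ x‖ ^ 2 / x ^ 2)) (Set.Ioc 1 (Real.exp w)) := fun χ _ =>
    FN_bdd w 1 (Real.exp w) le_rfl (by rw [Real.log_exp]) _
      (EM.integrable_psiC_sq_window χ 1 (Real.exp w) le_rfl)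
  unfold NE
  rw [← integral_finsetSum _ iχ, ← integral_const_mul]
  refine setIntegral_mono_on (integrable_finsetSum _ iχ) (iV.const_mul _) measurableSet_Ioc
    fun x hx => ?_
  have hx0 : 0 < x := by linarith [hx.1]
  have hw : 0 ≤ w - Real.log x := by
    have := (Real.log_le_iff_le_exp hx0).2 hx.2
    linarith
  have h2 := EM.variance_upper q x S hS
  rw [← Finset.mul_sum, ← Finset.sum_div]
  calc (w - Real.log x) * ((∑ χ ∈ S, ‖psiC χ x‖ ^ 2) / x ^ 2)
      ≤ (w - Real.log x) * (((q.totient : ℝ) * V x q) / x ^ 2) := by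
        refine mul_le_mul_of_nonneg_left ?_ hw
        exact div_le_div_of_nonneg_right h2 (by positivity)
    _ = _ := by ring

/-- FN2. PROOF. `blocks4 e β` with small `e` (`e = min ε 1/100`), `BE_split` (`EM.integrable_V_window`, `integrable_Vc_window`), `L = log q`.
(1) If `w ≤ L/4` the left side is `≤ 0` (`sig ≥ 2/3 - e`; `8 w² L ≤ 2 w L²`) and `FE ≥ 0`. `L/4 ≤ w ≤ L`: `4 NE V w ≤ (2/3) w³ + 4 C w L ≤ (2/3) w³ + e w² L` by `V_near` with `z = e^w`, `Y = w` (`w` large); the same for `Vc` with `Vc_near`.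
(2) `w ≥ L`: `NE V w = ∫_(1,q] + ∫_(q,e^w]`, the first is `≤ w L²/2 - L³/3 + C w L` (`V_near`, `z = q`, `Y = w`), the second is
`∫_(q,e^w] (w - log x)(V - x L)/x² + L (w-L)²/2` (see `main_term` and `excess` in SD/AA.lean).
(3) `w = L`: for `χ ∈ S`, `4 NE χ L + 2 FE χ L s ≥ (2 - e) L³` for all `s`. If `FE χ L s < c L³` for some `s` then `4 NE χ L > (2 - e - 2c) L³`; the number of those `χ ∈ S` is at most
`4 ∑_{χ ∈ S} NE χ L/((2 - e - 2c) L³) ≤ φ(q) ((2/3) + e)/(2 - e - 2c) ≤ (1/(3(1-c)) + 4e) φ(q)` (`∑_{χ ∈ S} ‖psiC χ x‖² ≤ φ(q) V` is `variance_upper`; `2 - 2c ≥ 2/3`). -/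
theorem windows4 (ε β : ℝ) (hε : 0 < ε) (hβ : 0 < β) (hβ1 : β ≤ 1 / 2) : ∃ T₀ : ℝ, 0 < T₀ ∧ ∀ T : ℝ, T₀ ≤ T →
    ∃ q₀ : ℕ, 3 ≤ q₀ ∧
    ∀ (q : ℕ) [NeZero q], q₀ ≤ q → (0 ≤ sig q T ∧ 2 / 3 - ε ≤ sig q T ∧ sig q T ≤ 1 + ε) ∧
      (∀ w s : ℝ, 0 < w → w ≤ Real.log q → w ≤ s → s + w ≤ Real.log q ^ (3 / 2 - β) →
        4 * (w ^ 2 * Real.log q) + 4 * (w ^ 2 * Real.log q) * (1 - sig q T) - 2 * (w * Real.log q ^ 2) -
          2 / 3 * w ^ 3 - ε * (w ^ 2 * Real.log q) ≤ 2 * FE (fun x => V x q) w s) ∧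
      (∀ c : ℕ, Nat.Coprime c q → ¬ c % q = 1 % q → ∀ w s : ℝ, 0 < w → w ≤ Real.log q → w ≤ s →
        s + w ≤ Real.log q ^ (3 / 2 - β) →
        4 * (w ^ 2 * Real.log q) - 2 * (w * Real.log q ^ 2) - 2 / 3 * w ^ 3 - ε * (w ^ 2 * Real.log q) ≤
          2 * FE (fun x => Vc x q c) w s) ∧
      (∀ w s : ℝ, Real.log q ≤ w → w ≤ s → s + w ≤ Real.log q ^ (3 / 2 - β) →
        2 * (w ^ 2 * Real.log q) + 4 * (w ^ 2 * Real.log q) * (1 - sig q T) - 2 / 3 * Real.log q ^ 3 -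
          4 * (∫ x in Set.Ioc (q : ℝ) (Real.exp w), (w - Real.log x) * ((V x q - x * Real.log q) / x ^ 2)) -
          ε * (w ^ 2 * Real.log q) ≤ 2 * FE (fun x => V x q) w s) ∧
      ∀ c : ℝ, 0 ≤ c → c ≤ 2 / 3 → (1 - 1 / (3 * (1 - c)) - ε) * (q.totient : ℝ) ≤ (goodCount q β c : ℝ) := by
  classical
  obtain ⟨C₁, hC₁, hV⟩ := V_near
  obtain ⟨C₂, hC₂, hVc⟩ := Vc_near
  obtain ⟨e, he0, he1, he2⟩ : ∃ e : ℝ, 0 < e ∧ 100 * e ≤ ε ∧ 100 * e ≤ 1 :=
    ⟨min ε 1 / 100, by positivity, by have := min_le_left ε 1; linarith,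
      by have := min_le_right ε 1; linarith⟩
  obtain ⟨T₀, hT₀, h⟩ := blocks4 e β he0 hβ hβ1
  refine ⟨T₀, hT₀, fun T hT => ?_⟩
  obtain ⟨q₀, hq₀, hq⟩ := h T hT
  refine ⟨max q₀ ⌈Real.exp (16 * (C₁ + C₂) / e)⌉₊, le_max_of_le_left hq₀, ?_⟩
  intro q _ hqq
  obtain ⟨⟨hs0, hs1, hs2⟩, ⟨S, hS1, hS2, hS3⟩, hbV, hbVc⟩ := hq q ((le_max_left _ _).trans hqq)
  have hq3 : 3 ≤ q := hq₀.trans ((le_max_left _ _).trans hqq)
  have hq3r : (3 : ℝ) ≤ q := by exact_mod_cast hq3
  have hL1 : 1 ≤ Real.log q := by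
    rw [Real.le_log_iff_exp_le (by linarith)]
    exact Real.exp_one_lt_d9.le.trans (by linarith)
  have hLC : 16 * (C₁ + C₂) / e ≤ Real.log q := by
    rw [Real.le_log_iff_exp_le (by linarith)]
    have h1 : Real.exp (16 * (C₁ + C₂) / e) ≤ (⌈Real.exp (16 * (C₁ + C₂) / e)⌉₊ : ℝ) :=
      Nat.le_ceil _
    have h2 : ((⌈Real.exp (16 * (C₁ + C₂) / e)⌉₊ : ℕ) : ℝ) ≤ (q : ℝ) := by
      exact_mod_cast (le_max_right _ _).trans hqq
    linarith
  have hLC' : 16 * (C₁ + C₂) ≤ Real.log q * e := (div_le_iff₀ he0).1 hLC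
  have hexpL : Real.exp (Real.log q) = q := Real.exp_log (by linarith)
  set L := Real.log q with hLdef
  have hL0 : 0 < L := by linarith
  have hL2 : 0 < L ^ 2 := by positivity
  have hL3 : 0 < L ^ 3 := by positivity
  have heL : ∀ w : ℝ, 100 * (e * (w ^ 2 * L)) ≤ ε * (w ^ 2 * L) := by
    intro w
    have h1 : 0 ≤ w ^ 2 * L := by positivity
    have h2 := mul_le_mul_of_nonneg_right he1 h1
    linarith
  have hCw : ∀ w : ℝ, L ≤ 4 * w → 4 * (C₁ * (w * L)) ≤ e * (w ^ 2 * L) ∧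
      4 * (C₂ * (w * L)) ≤ e * (w ^ 2 * L) := by
    intro w hwL
    have hw0 : 0 < w := by linarith
    have h4 : 0 ≤ w * L := mul_nonneg hw0.le hL0.le
    have h1 : 4 * (C₁ + C₂) ≤ e * w := by
      have := mul_le_mul_of_nonneg_left hwL he0.le
      linarith
    have h2 : 4 * (C₁ + C₂) * (w * L) ≤ e * w * (w * L) := mul_le_mul_of_nonneg_right h1 h4
    have h3 : e * w * (w * L) = e * (w ^ 2 * L) := by ring
    have h5 : 0 ≤ C₁ * (w * L) := mul_nonneg hC₁ h4
    have h6 : 0 ≤ C₂ * (w * L) := mul_nonneg hC₂ h4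
    constructor
    · nlinarith
    · nlinarith
  have hwq : ∀ w : ℝ, w ≤ L → Real.exp w ≤ (q : ℝ) := by
    intro w hw
    rw [← hexpL]
    exact Real.exp_le_exp.2 hw
  have hnear : ∀ w : ℝ, L ≤ 4 * w → w ≤ L →
      4 * NE (fun x => V x q) w ≤ 2 / 3 * w ^ 3 + e * (w ^ 2 * L) := by
    intro w hw4 hwL
    have hw0 : 0 < w := by linarith
    have h1 := hV q hq3 (Real.exp w) (Real.one_le_exp hw0.le) (hwq w hwL) w (by rw [Real.log_exp])
    rw [Real.log_exp] at h1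
    have h2 := (hCw w hw4).1
    have h3 : NE (fun x => V x q) w ≤ w * w ^ 2 / 2 - w ^ 3 / 3 + C₁ * (w * L) := h1
    nlinarith
  have hsmall : ∀ w : ℝ, 0 < w → 4 * w ≤ L → 8 * (w ^ 2 * L) ≤ 2 * (w * L ^ 2) := by
    intro w hw0 hw
    have h1 : 0 ≤ w * L := by positivity
    have h2 := mul_le_mul_of_nonneg_left hw h1
    nlinarith
  refine ⟨⟨hs0, by linarith, by linarith⟩, ?_, ?_, ?_, ?_⟩
  · intro w s hw0 hwL hws hswB
    have hwL2 : 0 ≤ w ^ 2 * L := by positivity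
    have hw3 : 0 ≤ w ^ 3 := by positivity
    rcases le_total (4 * w) L with hw4 | hw4
    · have h1 := hsmall w hw0 hw4
      have h2 : 0 ≤ FE (fun x => V x q) w s := FE_nonneg _ w s (fun x => EM.V_nonneg x q)
      have h3 : 0 ≤ (w ^ 2 * L) * sig q T := mul_nonneg hwL2 hs0
      have h4 : 0 ≤ ε * (w ^ 2 * L) := mul_nonneg hε.le hwL2
      nlinarith
    · have h1 := hbV w s hw0 hws hswB
      have h2 := BE_split (fun x => V x q) w s hw0.le hws
        (EM.integrable_V_window q 1 (Real.exp (s + w)) le_rfl)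
      have h3 := hnear w hw4 hwL
      have h4 := heL w
      have h5 : 0 ≤ e * (w ^ 2 * L) := mul_nonneg he0.le hwL2
      have h6 : w ^ 2 * (sig q T * L) = (w ^ 2 * L) * sig q T := by ring
      rw [h6] at h1
      linarith
  · intro c hc hc1 w s hw0 hwL hws hswB
    have hwL2 : 0 ≤ w ^ 2 * L := by positivity
    have hw3 : 0 ≤ w ^ 3 := by positivity
    rcases le_total (4 * w) L with hw4 | hw4
    · have h1 := hsmall w hw0 hw4
      have h2 : 0 ≤ FE (fun x => Vc x q c) w s := FE_nonneg _ w s (fun x => Vc_nonneg x q c)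
      have h4 : 0 ≤ ε * (w ^ 2 * L) := mul_nonneg hε.le hwL2
      linarith
    · have h1 := hbVc c hc hc1 w s hw0 hws hswB
      have h2 := BE_split (fun x => Vc x q c) w s hw0.le hws
        (integrable_Vc_window q c hc 1 (Real.exp (s + w)) le_rfl)
      have h3 := hVc q hq3 c hc (Real.exp w) (Real.one_le_exp hw0.le) (hwq w hwL) w
        (by rw [Real.log_exp])
      rw [Real.log_exp] at h3
      have h4 : NE (fun x => Vc x q c) w ≤ w * w ^ 2 / 2 - w ^ 3 / 3 + C₂ * (w * L) := h3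
      have h5 := (hCw w hw4).2
      have h6 := heL w
      have h7 : 0 ≤ e * (w ^ 2 * L) := mul_nonneg he0.le hwL2
      have h8 : w * w ^ 2 = w ^ 3 := by ring
      rw [h8] at h4
      linarith
  · intro w s hwL hws hswB
    have hw0 : 0 < w := by linarith
    have hwL2 : 0 ≤ w ^ 2 * L := by positivity
    have h1 := hbV w s hw0 hws hswB
    have h2 := BE_split (fun x => V x q) w s hw0.le hws
      (EM.integrable_V_window q 1 (Real.exp (s + w)) le_rfl)
    have h3 := FN_split q hq3 w hwL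
    have h4 := hV q hq3 q (by linarith) le_rfl w hwL
    have h5 := (hCw w (by linarith)).1
    have h6 := heL w
    have h7 : 0 ≤ e * (w ^ 2 * L) := mul_nonneg he0.le hwL2
    rw [← hLdef] at h3 h4
    nlinarith
  · intro c hc0 hc1
    have hφ0 : (0 : ℝ) ≤ (q.totient : ℝ) := Nat.cast_nonneg _
    set P : DirichletCharacter ℂ q → Prop := fun χ => ∀ s : ℝ, L ≤ s → s + L ≤ L ^ (3 / 2 - β) →
      c * L ^ 3 ≤ FE (fun x => ‖psiC χ x‖ ^ 2) L s with hPdef
    set D := S.filter (fun χ => ¬ P χ) with hDdef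
    have hDS : D ⊆ S := Finset.filter_subset _ _
    have hD1 : ∀ χ ∈ D, (2 - e - 2 * c) * L ^ 3 ≤ 4 * NE (fun x => ‖psiC χ x‖ ^ 2) L := by
      intro χ hχ
      have hχS : χ ∈ S := hDS hχ
      have hχP : ¬ P χ := (Finset.mem_filter.1 hχ).2
      rw [hPdef] at hχP
      push Not at hχP
      obtain ⟨s, hs1, hs2, hs3⟩ := hχP
      have h1 := hS3 χ hχS L s hL0 hs1 hs2
      have h2 := TB_eq_BE χ L s (by linarith)
      have h3 := BE_split (fun x => ‖psiC χ x‖ ^ 2) L s hL0.le hs1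
        (EM.integrable_psiC_sq_window χ 1 (Real.exp (s + L)) le_rfl)
      have h4 : L ^ 2 * L = L ^ 3 := by ring
      have h5 : L * L ^ 2 = L ^ 3 := by ring
      rw [h4, h5] at h1
      linarith
    have hD2 : (D.card : ℝ) * ((2 - e - 2 * c) * L ^ 3) ≤
        (q.totient : ℝ) * (2 / 3 * L ^ 3 + e * L ^ 3) := by
      calc (D.card : ℝ) * ((2 - e - 2 * c) * L ^ 3) = ∑ χ ∈ D, (2 - e - 2 * c) * L ^ 3 := by
            rw [Finset.sum_const, nsmul_eq_mul]
        _ ≤ ∑ χ ∈ D, 4 * NE (fun x => ‖psiC χ x‖ ^ 2) L := Finset.sum_le_sum hD1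
        _ = 4 * ∑ χ ∈ D, NE (fun x => ‖psiC χ x‖ ^ 2) L := by rw [Finset.mul_sum]
        _ ≤ 4 * ((q.totient : ℝ) * NE (fun x => V x q) L) := by
            have := FN_sum q D (fun χ hχ => hS2 χ (hDS hχ)) L
            linarith
        _ = (q.totient : ℝ) * (4 * NE (fun x => V x q) L) := by ring
        _ ≤ _ := by
            have h1 := hnear L (by linarith) le_rfl
            have h4 : L ^ 2 * L = L ^ 3 := by ring
            rw [h4] at h1
            exact mul_le_mul_of_nonneg_left h1 hφ0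
    have hD3 : (D.card : ℝ) * (2 - e - 2 * c) ≤ (q.totient : ℝ) * (2 / 3 + e) := by
      have h1 : (D.card : ℝ) * (2 - e - 2 * c) * L ^ 3 ≤ (q.totient : ℝ) * (2 / 3 + e) * L ^ 3 := by
        calc (D.card : ℝ) * (2 - e - 2 * c) * L ^ 3 = (D.card : ℝ) * ((2 - e - 2 * c) * L ^ 3) := by ring
          _ ≤ _ := hD2
          _ = _ := by ring
      exact le_of_mul_le_mul_right h1 hL3
    set r := 1 / (3 * (1 - c)) with hrdef
    have hr0 : 0 < r := by
      have : 0 < 3 * (1 - c) := by linarith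
      positivity
    have hr1 : r * (3 * (1 - c)) = 1 := by
      rw [hrdef]
      exact one_div_mul_cancel (by linarith)
    have hr2 : r ≤ 1 := by
      by_contra hcon
      rw [not_le] at hcon
      nlinarith
    have hr3 : 2 / 3 + e ≤ (r + 4 * e) * (2 - e - 2 * c) := by
      have h1 : (r + 4 * e) * (2 - e - 2 * c) = 2 / 3 * (r * (3 * (1 - c))) - r * e +
          4 * e * (2 - 2 * c) - 4 * e * e := by ring
      rw [h1, hr1]
      nlinarith
    have hD4 : (D.card : ℝ) ≤ (q.totient : ℝ) * (r + 4 * e) := by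
      have h1 : 0 < 2 - e - 2 * c := by linarith
      have h2 : (D.card : ℝ) * (2 - e - 2 * c) ≤ (q.totient : ℝ) * (r + 4 * e) * (2 - e - 2 * c) := by
        calc (D.card : ℝ) * (2 - e - 2 * c) ≤ (q.totient : ℝ) * (2 / 3 + e) := hD3
          _ ≤ (q.totient : ℝ) * ((r + 4 * e) * (2 - e - 2 * c)) :=
              mul_le_mul_of_nonneg_left hr3 hφ0
          _ = _ := by ring
      exact le_of_mul_le_mul_right h2 h1
    have hsub : ((S \ D : Finset (DirichletCharacter ℂ q)) : Set (DirichletCharacter ℂ q)) ⊆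
        {χ : DirichletCharacter ℂ q | ∀ s : ℝ, Real.log q ≤ s → s + Real.log q ≤ Real.log q ^ (3 / 2 - β) →
          c * Real.log q ^ 3 ≤ FE (fun x => ‖psiC χ x‖ ^ 2) (Real.log q) s} := by
      intro χ hχ
      rw [Finset.mem_coe, Finset.mem_sdiff] at hχ
      obtain ⟨h1, h2⟩ := hχ
      by_contra h3
      exact h2 (Finset.mem_filter.2 ⟨h1, h3⟩)
    have hcnt : ((S \ D).card : ℝ) ≤ (goodCount q β c : ℝ) := by
      have h1 := Set.ncard_le_ncard hsub (Set.toFinite _)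
      rw [Set.ncard_coe_finset] at h1
      unfold goodCount
      exact_mod_cast h1
    have hcard : ((S \ D).card : ℝ) = (S.card : ℝ) - (D.card : ℝ) := by
      have h1 := Finset.card_sdiff_add_card_eq_card hDS
      have h2 : ((S \ D).card : ℝ) + (D.card : ℝ) = (S.card : ℝ) := by exact_mod_cast h1
      linarith
    have hfin : (1 - r - ε) * (q.totient : ℝ) ≤
        (1 - e) * (q.totient : ℝ) - (q.totient : ℝ) * (r + 4 * e) := by
      nlinarith
    linarith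

end Pool.Agent.SW
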