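import Pool.Agent.Lib.MP_9cfc0a_nt.Mg.G057

set_option autoImplicit false

/-! Task RA: means over windows, and points. -/

namespace Pool.Agent.SW

open Complex MeasureTheory
open Pool.Agent.EM (psiC V psi)

/-- The logarithmic mean over the window `[X q^(-A), X q^A]`, normalized so that `x log q` has the mean `1`. -/
noncomputable def mean (q : ℕ) (A X : ℝ) (g : ℝ → ℝ) : ℝ :=
  1 / (A * Real.log q ^ 2) * ∫ x in (X / (q : ℝ) ^ A)..(X * (q : ℝ) ^ A),
    (1 - |Real.log (x / X)| / (A * Real.log q)) * g x / x ^ 2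

/-- The excess over Hooley's prediction on the first window. -/
noncomputable def excess (q : ℕ) (A : ℝ) : ℝ :=
  2 / (A * Real.log q ^ 2) * ∫ x in (q : ℝ)..((q : ℝ) ^ A),
    (1 - Real.log x / (A * Real.log q)) * (V x q - x * Real.log q) / x ^ 2

private lemma RA_card (q : ℕ) (hq : 2 ≤ q) :
    ((Finset.Icc 1 q).filter (fun a => Nat.Coprime a q)).card = q.totient := by
  rw [Nat.totient_eq_card_coprime]
  congr 1
  ext a
  simp only [Finset.mem_filter, Finset.mem_Icc, Finset.mem_range]
  constructor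
  · rintro ⟨⟨h1, h2⟩, h3⟩
    refine ⟨?_, h3.symm⟩
    rcases Nat.lt_or_ge a q with h | h
    · exact h
    · exfalso
      have : a = q := le_antisymm h2 h
      rw [this, Nat.coprime_self] at h3
      omega
  · rintro ⟨h1, h2⟩
    refine ⟨⟨?_, h1.le⟩, h2.symm⟩
    rcases Nat.eq_zero_or_pos a with h | h
    · exfalso
      rw [h, Nat.coprime_zero_right] at h2
      omega
    · exact h

private lemma RA_abs (s w x : ℝ) (hx : x ∈ Set.Ioc (Real.exp (s - w)) (Real.exp (s + w))) :
    |Real.log x - s| ≤ w := by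
  have hx0 : 0 < x := lt_trans (Real.exp_pos _) hx.1
  have h1 : s - w ≤ Real.log x := by
    rw [Real.le_log_iff_exp_le hx0]
    exact hx.1.le
  have h2 : Real.log x ≤ s + w := by
    rw [Real.log_le_iff_le_exp hx0]
    exact hx.2
  rw [abs_le]
  constructor <;> linarith

private lemma RA_cont (s w a b : ℝ) (ha : 0 < a) :
    ContinuousOn (fun x : ℝ => (w - |Real.log x - s|) / x) (Set.Icc a b) := by
  have hx0 : ∀ x ∈ Set.Icc a b, x ≠ 0 := fun x hx => (lt_of_lt_of_le ha hx.1).ne'
  apply ContinuousOn.div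
  · apply ContinuousOn.sub continuousOn_const
    apply ContinuousOn.abs
    exact (ContinuousOn.log continuousOn_id hx0).sub continuousOn_const
  · exact continuousOn_id
  · exact hx0

private lemma RA_integrable (s w : ℝ) : IntegrableOn (fun x : ℝ => (w - |Real.log x - s|) / x)
    (Set.Ioc (Real.exp (s - w)) (Real.exp (s + w))) := by
  exact ((RA_cont s w _ _ (Real.exp_pos _)).integrableOn_Icc).mono_set Set.Ioc_subset_Icc_self

private lemma RA_int (s w : ℝ) (hw : 0 ≤ w) :
    ∫ x in Set.Ioc (Real.exp (s - w)) (Real.exp (s + w)), (w - |Real.log x - s|) / x = w ^ 2 := by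
  have h1 : Real.exp (s - w) ≤ Real.exp s := Real.exp_le_exp.mpr (by linarith)
  have h2 : Real.exp s ≤ Real.exp (s + w) := Real.exp_le_exp.mpr (by linarith)
  rw [← intervalIntegral.integral_of_le (h1.trans h2)]
  have i1 : IntervalIntegrable (fun x : ℝ => (w - |Real.log x - s|) / x) volume
      (Real.exp (s - w)) (Real.exp s) :=
    ContinuousOn.intervalIntegrable_of_Icc h1 (RA_cont s w _ _ (Real.exp_pos _))
  have i2 : IntervalIntegrable (fun x : ℝ => (w - |Real.log x - s|) / x) volume
      (Real.exp s) (Real.exp (s + w)) :=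
    ContinuousOn.intervalIntegrable_of_Icc h2 (RA_cont s w _ _ (Real.exp_pos _))
  rw [← intervalIntegral.integral_add_adjacent_intervals i1 i2]
  have e1 : ∫ x in (Real.exp (s - w))..(Real.exp s), (w - |Real.log x - s|) / x = w ^ 2 / 2 := by
    have hd : ∀ x ∈ Set.uIcc (Real.exp (s - w)) (Real.exp s),
        HasDerivAt (fun x => (w - s + Real.log x) ^ 2 / 2) ((w - |Real.log x - s|) / x) x := by
      intro x hx
      rw [Set.uIcc_of_le h1] at hx
      have hx0 : 0 < x := lt_of_lt_of_le (Real.exp_pos _) hx.1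
      have hl : Real.log x ≤ s := by
        rw [Real.log_le_iff_le_exp hx0]
        exact hx.2
      have h := ((((Real.hasDerivAt_log hx0.ne').const_add (w - s)).pow 2).div_const 2)
      refine h.congr_deriv ?_
      rw [abs_of_nonpos (by linarith)]
      field_simp
      ring
    rw [intervalIntegral.integral_eq_sub_of_hasDerivAt hd i1]
    rw [Real.log_exp, Real.log_exp]
    ring
  have e2 : ∫ x in (Real.exp s)..(Real.exp (s + w)), (w - |Real.log x - s|) / x = w ^ 2 / 2 := by
    have hd : ∀ x ∈ Set.uIcc (Real.exp s) (Real.exp (s + w)),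
        HasDerivAt (fun x => -((w + s - Real.log x) ^ 2 / 2)) ((w - |Real.log x - s|) / x) x := by
      intro x hx
      rw [Set.uIcc_of_le h2] at hx
      have hx0 : 0 < x := lt_of_lt_of_le (Real.exp_pos _) hx.1
      have hl : s ≤ Real.log x := by
        rw [Real.le_log_iff_exp_le hx0]
        exact hx.1
      have h := ((((Real.hasDerivAt_log hx0.ne').const_sub (w + s)).pow 2).div_const 2).neg
      refine h.congr_deriv ?_
      rw [abs_of_nonneg (by linarith)]
      field_simp
      ring
    rw [intervalIntegral.integral_eq_sub_of_hasDerivAt hd i2]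
    rw [Real.log_exp, Real.log_exp]
    ring
  rw [e1, e2]
  ring

/-- RA1. PROOF. `X/q^A = exp (log X - A log q)`, `X q^A = exp (log X + A log q)` (`Real.rpow_def_of_pos`), `intervalIntegral.integral_of_le`, and pointwise `(1 - |log (x/X)|/(A L)) g/x² =
(1/(A L)) (A L - |log x - log X|) (g/x²)`. -/
theorem mean_eq (q : ℕ) (hq : 3 ≤ q) (A X : ℝ) (hA : 0 < A) (hX : 0 < X) (g : ℝ → ℝ) :
    mean q A X g = FE g (A * Real.log q) (Real.log X) / (A ^ 2 * Real.log q ^ 3) := by
  have hq1 : (1 : ℝ) < q := by exact_mod_cast (by omega : 1 < q)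
  have hL : 0 < Real.log q := Real.log_pos hq1
  have hq0 : (0 : ℝ) < q := by linarith
  have hw : 0 < A * Real.log q := mul_pos hA hL
  have hqA : (q : ℝ) ^ A = Real.exp (A * Real.log q) := by
    rw [Real.rpow_def_of_pos hq0, mul_comm]
  have e1 : X / (q : ℝ) ^ A = Real.exp (Real.log X - A * Real.log q) := by
    rw [Real.exp_sub, Real.exp_log hX, hqA]
  have e2 : X * (q : ℝ) ^ A = Real.exp (Real.log X + A * Real.log q) := by
    rw [Real.exp_add, Real.exp_log hX, hqA]
  unfold mean FE
  rw [e1, e2, intervalIntegral.integral_of_le (Real.exp_le_exp.mpr (by linarith))]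
  have h : ∫ x in Set.Ioc (Real.exp (Real.log X - A * Real.log q)) (Real.exp (Real.log X + A * Real.log q)),
      (1 - |Real.log (x / X)| / (A * Real.log q)) * g x / x ^ 2 =
      (1 / (A * Real.log q)) * ∫ x in Set.Ioc (Real.exp (Real.log X - A * Real.log q))
        (Real.exp (Real.log X + A * Real.log q)),
        (A * Real.log q - |Real.log x - Real.log X|) * (g x / x ^ 2) := by
    rw [← MeasureTheory.integral_const_mul]
    apply setIntegral_congr_fun measurableSet_Ioc
    intro x hx
    have hx0 : 0 < x := lt_trans (Real.exp_pos _) hx.1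
    simp only
    rw [Real.log_div hx0.ne' hX.ne']
    field_simp
  rw [h]
  field_simp

/-- RA2. -/
theorem excess_eq (q : ℕ) (hq : 3 ≤ q) (A : ℝ) (hA : 1 ≤ A) :
    excess q A = 2 / (A ^ 2 * Real.log q ^ 3) *
      ∫ x in Set.Ioc (q : ℝ) (Real.exp (A * Real.log q)),
        (A * Real.log q - Real.log x) * ((V x q - x * Real.log q) / x ^ 2) := by
  have hq1 : (1 : ℝ) < q := by exact_mod_cast (by omega : 1 < q)
  have hL : 0 < Real.log q := Real.log_pos hq1
  have hq0 : (0 : ℝ) < q := by linarith
  have hA0 : 0 < A := by linarith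
  have hw : 0 < A * Real.log q := mul_pos hA0 hL
  have hqA : (q : ℝ) ^ A = Real.exp (A * Real.log q) := by
    rw [Real.rpow_def_of_pos hq0, mul_comm]
  have hle : (q : ℝ) ≤ Real.exp (A * Real.log q) := by
    rw [← hqA]
    calc (q : ℝ) = (q : ℝ) ^ (1 : ℝ) := (Real.rpow_one _).symm
      _ ≤ (q : ℝ) ^ A := Real.rpow_le_rpow_of_exponent_le hq1.le hA
  unfold excess
  rw [hqA, intervalIntegral.integral_of_le hle]
  have h : ∫ x in Set.Ioc (q : ℝ) (Real.exp (A * Real.log q)),
      (1 - Real.log x / (A * Real.log q)) * (V x q - x * Real.log q) / x ^ 2 =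
      (1 / (A * Real.log q)) * ∫ x in Set.Ioc (q : ℝ) (Real.exp (A * Real.log q)),
        (A * Real.log q - Real.log x) * ((V x q - x * Real.log q) / x ^ 2) := by
    rw [← MeasureTheory.integral_const_mul]
    apply setIntegral_congr_fun measurableSet_Ioc
    intro x hx
    have hx0 : 0 < x := lt_trans hq0 hx.1
    simp only
    field_simp
  rw [h]
  field_simp

/-- RA3. PROOF. Suppose `g x < c (x log q)` for all `x` in the window. Then `FE g ≤ c FE (x log q) = c log q w²` (`w = A log q`; `∫ (w - |log x - s|) dx/x = w²` over the window: primitives on both sides of `X`), so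
`mean g ≤ c < c'` (`mean_eq`). If `c < 0` take `x = X`. -/
theorem exists_point (q : ℕ) (hq : 3 ≤ q) (A X c c' : ℝ) (hA : 0 < A) (hX : (q : ℝ) ^ A ≤ X) (g : ℝ → ℝ)
    (hg : ∀ x, 0 ≤ g x)
    (hgi : IntegrableOn (fun x => g x / x ^ 2) (Set.Ioc (X / (q : ℝ) ^ A) (X * (q : ℝ) ^ A)))
    (hc : c < c') (h : c' ≤ mean q A X g) :
    ∃ x : ℝ, X / (q : ℝ) ^ A ≤ x ∧ x ≤ X * (q : ℝ) ^ A ∧ c * (x * Real.log q) ≤ g x := by
  have hq1 : (1 : ℝ) < q := by exact_mod_cast (by omega : 1 < q)
  have hL : 0 < Real.log q := Real.log_pos hq1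
  have hq0 : (0 : ℝ) < q := by linarith
  have hw : 0 < A * Real.log q := mul_pos hA hL
  have hqA : (q : ℝ) ^ A = Real.exp (A * Real.log q) := by
    rw [Real.rpow_def_of_pos hq0, mul_comm]
  have hqA0 : 0 < (q : ℝ) ^ A := Real.rpow_pos_of_pos hq0 A
  have hqA1 : 1 ≤ (q : ℝ) ^ A := Real.one_le_rpow hq1.le hA.le
  have hX0 : 0 < X := lt_of_lt_of_le hqA0 hX
  have e1 : X / (q : ℝ) ^ A = Real.exp (Real.log X - A * Real.log q) := by
    rw [Real.exp_sub, Real.exp_log hX0, hqA]
  have e2 : X * (q : ℝ) ^ A = Real.exp (Real.log X + A * Real.log q) := by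
    rw [Real.exp_add, Real.exp_log hX0, hqA]
  rcases lt_or_ge c 0 with hc0 | hc0
  · refine ⟨X, ?_, ?_, ?_⟩
    · exact div_le_self hX0.le hqA1
    · exact le_mul_of_one_le_right hX0.le hqA1
    · have h1 : 0 ≤ X * Real.log q := (mul_pos hX0 hL).le
      have h2 : c * (X * Real.log q) ≤ 0 := mul_nonpos_of_nonpos_of_nonneg hc0.le h1
      exact h2.trans (hg X)
  · by_contra hno
    push Not at hno
    have hup : FE g (A * Real.log q) (Real.log X) ≤
        c * Real.log q * (A * Real.log q) ^ 2 := by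
      unfold FE
      rw [← RA_int (Real.log X) (A * Real.log q) hw.le, ← MeasureTheory.integral_const_mul]
      apply MeasureTheory.integral_mono_of_nonneg
      · rw [Filter.EventuallyLE, ae_restrict_iff' measurableSet_Ioc]
        refine Filter.Eventually.of_forall (fun x hx => ?_)
        have hx0 : 0 < x := lt_trans (Real.exp_pos _) hx.1
        have h1 := RA_abs (Real.log X) (A * Real.log q) x hx
        exact mul_nonneg (by linarith) (div_nonneg (hg x) (by positivity))
      · exact (RA_integrable (Real.log X) (A * Real.log q)).const_mul _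
      · rw [Filter.EventuallyLE, ae_restrict_iff' measurableSet_Ioc]
        refine Filter.Eventually.of_forall (fun x hx => ?_)
        have hx0 : 0 < x := lt_trans (Real.exp_pos _) hx.1
        have h1 := RA_abs (Real.log X) (A * Real.log q) x hx
        have h2 := hno x (by rw [e1]; exact hx.1.le) (by rw [e2]; exact hx.2)
        have h3 : g x / x ^ 2 ≤ c * Real.log q / x := by
          rw [div_le_div_iff₀ (by positivity) hx0]
          nlinarith [mul_le_mul_of_nonneg_right h2.le hx0.le]
        calc (A * Real.log q - |Real.log x - Real.log X|) * (g x / x ^ 2)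
            ≤ (A * Real.log q - |Real.log x - Real.log X|) * (c * Real.log q / x) :=
              mul_le_mul_of_nonneg_left h3 (by linarith)
          _ = c * Real.log q * ((A * Real.log q - |Real.log x - Real.log X|) / x) := by ring
    have hm := mean_eq q hq A X hA hX0 g
    have h4 : mean q A X g ≤ c := by
      rw [hm, div_le_iff₀ (by positivity)]
      calc FE g (A * Real.log q) (Real.log X) ≤ c * Real.log q * (A * Real.log q) ^ 2 := hup
        _ = c * (A ^ 2 * Real.log q ^ 3) := by ring
    linarith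

/-- RA4. PROOF. A sum of `φ(q)` terms (`VC_card` in SD/VC.lean is private; copy it). -/
theorem V_point (q : ℕ) (hq : 3 ≤ q) (x y : ℝ) (h : y ≤ V x q) :
    ∃ a : ℕ, Nat.Coprime a q ∧ y / (q.totient : ℝ) ≤ (psi x q a - x / (q.totient : ℝ)) ^ 2 := by
  have hc := RA_card q (by omega)
  have hφ : 0 < q.totient := Nat.totient_pos.mpr (by omega)
  have hφ' : (0 : ℝ) < (q.totient : ℝ) := by exact_mod_cast hφ
  have hne : ((Finset.Icc 1 q).filter (fun a => Nat.Coprime a q)).Nonempty := by
    rw [← Finset.card_pos, hc]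
    exact hφ
  have hs : ∑ a ∈ (Finset.Icc 1 q).filter (fun a => Nat.Coprime a q), y / (q.totient : ℝ) ≤
      ∑ a ∈ (Finset.Icc 1 q).filter (fun a => Nat.Coprime a q),
        (psi x q a - x / (q.totient : ℝ)) ^ 2 := by
    rw [Finset.sum_const, hc, nsmul_eq_mul, mul_div_cancel₀ _ hφ'.ne']
    exact h
  obtain ⟨a, ha, h1⟩ := Finset.exists_le_of_sum_le hne hs
  exact ⟨a, (Finset.mem_filter.mp ha).2, h1⟩

/-- RA5. -/
theorem Vc_point (q : ℕ) (hq : 3 ≤ q) (c : ℕ) (x y : ℝ) (h : y ≤ Vc x q c) :
    ∃ a : ℕ, Nat.Coprime a q ∧ 2 * y / (q.totient : ℝ) ≤ (psi x q a - psi x q (c * a)) ^ 2 := by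
  have hc := RA_card q (by omega)
  have hφ : 0 < q.totient := Nat.totient_pos.mpr (by omega)
  have hφ' : (0 : ℝ) < (q.totient : ℝ) := by exact_mod_cast hφ
  have hne : ((Finset.Icc 1 q).filter (fun a => Nat.Coprime a q)).Nonempty := by
    rw [← Finset.card_pos, hc]
    exact hφ
  have hs : ∑ a ∈ (Finset.Icc 1 q).filter (fun a => Nat.Coprime a q), 2 * y / (q.totient : ℝ) ≤
      ∑ a ∈ (Finset.Icc 1 q).filter (fun a => Nat.Coprime a q),
        (psi x q a - psi x q (c * a)) ^ 2 := by
    rw [Finset.sum_const, hc, nsmul_eq_mul, mul_div_cancel₀ _ hφ'.ne']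
    unfold Vc at h
    linarith
  obtain ⟨a, ha, h1⟩ := Finset.exists_le_of_sum_le hne hs
  exact ⟨a, (Finset.mem_filter.mp ha).2, h1⟩

end Pool.Agent.SW
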