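import Pool.Agent.Lib.MP_9cfc0a_nt.SW.FN2
import Pool.Agent.Lib.MP_9cfc0a_nt.SW.RA

set_option autoImplicit false

/-! Task RB2: the theorem. -/

namespace Pool.Agent.SW

open Complex MeasureTheory
open Pool.Agent.SD (sig)
open Pool.Agent.EM (psiC V psi)

private lemma RB2_log {q : ℕ} (hq : 3 ≤ q) {A ε β X : ℝ} (hβ : β ≤ ε) (hX : (q : ℝ) ^ A ≤ X)
    (hXB : X * (q : ℝ) ^ A ≤ Real.exp (Real.log q ^ (3 / 2 - ε))) :
    0 < X ∧ A * Real.log q ≤ Real.log X ∧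
      Real.log X + A * Real.log q ≤ Real.log q ^ (3 / 2 - β) ∧ 1 ≤ X / (q : ℝ) ^ A := by
  have hq3 : (3 : ℝ) ≤ q := by exact_mod_cast hq
  have hq0 : (0 : ℝ) < q := by linarith
  have hqA : (0 : ℝ) < (q : ℝ) ^ A := Real.rpow_pos_of_pos hq0 A
  have hX0 : 0 < X := lt_of_lt_of_le hqA hX
  have hL1 : 1 ≤ Real.log q := by
    rw [Real.le_log_iff_exp_le hq0]
    exact (Real.exp_one_lt_d9.le.trans (by norm_num)).trans hq3
  refine ⟨hX0, ?_, ?_, ?_⟩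
  · rw [← Real.log_rpow hq0]
    exact Real.log_le_log hqA hX
  · have h1 : Real.log (X * (q : ℝ) ^ A) ≤ Real.log q ^ (3 / 2 - ε) := by
      rw [← Real.log_exp (Real.log q ^ (3 / 2 - ε))]
      exact Real.log_le_log (mul_pos hX0 hqA) hXB
    rw [Real.log_mul hX0.ne' hqA.ne', Real.log_rpow hq0] at h1
    exact h1.trans (Real.rpow_le_rpow_of_exponent_le hL1 (by linarith))
  · rw [le_div_iff₀ hqA, one_mul]
    exact hX

private lemma RB2_div {A L F σ e : ℝ} (hA : 0 < A) (hL : 0 < L) (he : 0 < e)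
    (h : 4 * ((A * L) ^ 2 * L) + 4 * ((A * L) ^ 2 * L) * (1 - σ) - 2 * (A * L * L ^ 2) -
      2 / 3 * (A * L) ^ 3 - e * ((A * L) ^ 2 * L) ≤ 2 * F) :
    2 - 1 / A - A / 3 + 2 * (1 - σ) - e ≤ F / (A ^ 2 * L ^ 3) := by
  have h1 : 2 - 1 / A - A / 3 + 2 * (1 - σ) - e / 2 ≤ F / (A ^ 2 * L ^ 3) := by
    rw [le_div_iff₀ (by positivity)]
    have e1 : (2 - 1 / A - A / 3 + 2 * (1 - σ) - e / 2) * (A ^ 2 * L ^ 3) =
        (4 * ((A * L) ^ 2 * L) + 4 * ((A * L) ^ 2 * L) * (1 - σ) - 2 * (A * L * L ^ 2) -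
        2 / 3 * (A * L) ^ 3 - e * ((A * L) ^ 2 * L)) / 2 := by
      field_simp
      ring
    rw [e1]
    linarith
  linarith

private lemma RB2_div2 {A L F σ e J : ℝ} (hA : 1 ≤ A) (hL : 0 < L) (he : 0 < e)
    (h : 2 * ((A * L) ^ 2 * L) + 4 * ((A * L) ^ 2 * L) * (1 - σ) - 2 / 3 * L ^ 3 - 4 * J -
      e * ((A * L) ^ 2 * L) ≤ 2 * F) :
    1 - 1 / (3 * A ^ 2) + 2 * (1 - σ) - 2 / (A ^ 2 * L ^ 3) * J - e ≤ F / (A ^ 2 * L ^ 3) := by
  have hA0 : 0 < A := by linarith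
  have h1 : 1 - 1 / (3 * A ^ 2) + 2 * (1 - σ) - 2 / (A ^ 2 * L ^ 3) * J - e / 2 ≤
      F / (A ^ 2 * L ^ 3) := by
    rw [le_div_iff₀ (by positivity)]
    have e1 : (1 - 1 / (3 * A ^ 2) + 2 * (1 - σ) - 2 / (A ^ 2 * L ^ 3) * J - e / 2) *
        (A ^ 2 * L ^ 3) =
        (2 * ((A * L) ^ 2 * L) + 4 * ((A * L) ^ 2 * L) * (1 - σ) - 2 / 3 * L ^ 3 - 4 * J -
          e * ((A * L) ^ 2 * L)) / 2 := by
      field_simp
      ring
    rw [e1]
    linarith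
  linarith

/-- RB2. PROOF. As RB (see RB.lean; copy it), with `windows4 (ε/20) β`. We may assume `ε ≤ 1/100` and take `β = ε` (`(log q)^(3/2-ε) ≤ (log q)^(3/2-1/100)`, so the range of the statement for `ε > 1/100` is contained in that for `1/100`). `L = log q`, `w = A L`,
`s = log X`: `q^A ≤ X` is `w ≤ s`, `X q^A ≤ exp (L^(3/2-ε))` is `s + w ≤ L^(3/2-ε)`. `mean_eq`: `2 FE = 2 A² L³ mean`.
(1) Divide by `2 A² L³ = 2 w² L`: the error is `(ε/20)/2`. (2) `A ≥ 1`, `excess_eq`. (3) `c`: `goodCount`; the set is the same (`X = e^s`). (4) `exists_point` with `g = V`, `V_c`, `V_point`, `Vc_point`;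
`X/q^A ≥ 1` for the integrability (`integrable_V_window`, `integrable_Vc_window`); `2 (1 - sig) ≥ -ε/10`. -/
theorem main (ε : ℝ) (hε : 0 < ε) : ∃ T₀ : ℝ, ∀ T : ℝ, T₀ ≤ T → ∃ q₀ : ℕ, 3 ≤ q₀ ∧
    ∀ (q : ℕ) [NeZero q], q₀ ≤ q → (2 / 3 - ε ≤ sig q T ∧ sig q T ≤ 1 + ε) ∧
      (∀ A X : ℝ, 0 < A → A ≤ 1 → (q : ℝ) ^ A ≤ X → X * (q : ℝ) ^ A ≤ Real.exp (Real.log q ^ (3 / 2 - ε)) →
        2 - 1 / A - A / 3 + 2 * (1 - sig q T) - ε ≤ mean q A X (fun x => V x q) ∧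
        (∃ (x : ℝ) (a : ℕ), X / (q : ℝ) ^ A ≤ x ∧ x ≤ X * (q : ℝ) ^ A ∧ Nat.Coprime a q ∧
          (2 - 1 / A - A / 3 - ε) * (x * Real.log q / (q.totient : ℝ)) ≤
            (psi x q a - x / (q.totient : ℝ)) ^ 2) ∧
        ∀ c : ℕ, Nat.Coprime c q → ¬ c % q = 1 % q →
          2 - 1 / A - A / 3 - ε ≤ mean q A X (fun x => Vc x q c) ∧
          ∃ (x : ℝ) (a : ℕ), X / (q : ℝ) ^ A ≤ x ∧ x ≤ X * (q : ℝ) ^ A ∧ Nat.Coprime a q ∧
            2 * (2 - 1 / A - A / 3 - ε) * (x * Real.log q / (q.totient : ℝ)) ≤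
              (psi x q a - psi x q (c * a)) ^ 2) ∧
      (∀ A X : ℝ, 1 ≤ A → (q : ℝ) ^ A ≤ X → X * (q : ℝ) ^ A ≤ Real.exp (Real.log q ^ (3 / 2 - ε)) →
        1 - 1 / (3 * A ^ 2) + 2 * (1 - sig q T) - excess q A - ε ≤ mean q A X (fun x => V x q)) ∧
      ∀ c : ℝ, 0 ≤ c → c ≤ 2 / 3 → (1 - 1 / (3 * (1 - c)) - ε) * (q.totient : ℝ) ≤
        (Set.ncard {χ : DirichletCharacter ℂ q | ∀ X : ℝ, (q : ℝ) ≤ X → X * q ≤ Real.exp (Real.log q ^ (3 / 2 - ε)) →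
          c ≤ mean q 1 X (fun x => ‖psiC χ x‖ ^ 2)} : ℝ) := by
  obtain ⟨e, he⟩ : ∃ e, e = min ε (1 / 100) / 20 := ⟨_, rfl⟩
  have he0 : 0 < e := by
    rw [he]
    have : 0 < min ε (1 / 100) := lt_min hε (by norm_num)
    linarith
  have heε : 20 * e ≤ ε := by
    have := min_le_left ε (1 / 100)
    rw [he]
    linarith
  have he1 : e ≤ 1 / 2000 := by
    have := min_le_right ε (1 / 100)
    rw [he]
    linarith
  obtain ⟨β, hβ⟩ : ∃ β, β = min ε (1 / 100) := ⟨_, rfl⟩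
  have hβε : β ≤ ε := by
    rw [hβ]
    exact min_le_left _ _
  have hβ0 : 0 < β := by
    rw [hβ]
    exact lt_min hε (by norm_num)
  have hβ1 : β ≤ 1 / 2 := by
    rw [hβ]
    exact (min_le_right _ _).trans (by norm_num)
  obtain ⟨T₀, -, hT⟩ := windows4 e β he0 hβ0 hβ1
  refine ⟨T₀, fun T hTT => ?_⟩
  obtain ⟨q₀, hq₀, hq⟩ := hT T hTT
  refine ⟨q₀, hq₀, fun q _ hqq => ?_⟩
  obtain ⟨⟨hs0, hs1, hs2⟩, h1, h2, h3, h4⟩ := hq q hqq
  have hq3 : 3 ≤ q := hq₀.trans hqq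
  have hqr : (3 : ℝ) ≤ q := by exact_mod_cast hq3
  have hL : 0 < Real.log q := Real.log_pos (by linarith)
  refine ⟨⟨by linarith, by linarith⟩, ?_, ?_, ?_⟩
  · intro A X hA hA1 hX hXB
    obtain ⟨hX0, hws, hsB, h1X⟩ := RB2_log hq3 hβε hX hXB
    have hw0 : 0 < A * Real.log q := mul_pos hA hL
    have hwL : A * Real.log q ≤ Real.log q := by nlinarith
    -- the variance `V`
    have hVnn : ∀ x, 0 ≤ V x q := fun x => Finset.sum_nonneg fun a _ => sq_nonneg _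
    have hVm := mean_eq q hq3 A X hA hX0 (fun x => V x q)
    have hV1 : 2 - 1 / A - A / 3 + 2 * (1 - sig q T) - e ≤ mean q A X (fun x => V x q) := by
      rw [hVm]
      exact RB2_div hA hL he0 (h1 _ _ hw0 hwL hws hsB)
    refine ⟨by linarith, ?_, ?_⟩
    · obtain ⟨x, hx1, hx2, hx3⟩ := exists_point q hq3 A X (2 - 1 / A - A / 3 - ε)
        (2 - 1 / A - A / 3 - ε / 2) hA hX (fun x => V x q) hVnn
        (Pool.Agent.EM.integrable_V_window q _ _ h1X) (by linarith) (by linarith)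
      obtain ⟨a, ha, hax⟩ := V_point q hq3 x _ hx3
      refine ⟨x, a, hx1, hx2, ha, ?_⟩
      rw [← mul_div_assoc]
      exact hax
    · intro c hc hc1
      have hVnn' : ∀ x, 0 ≤ Vc x q c := fun x => Vc_nonneg x q c
      have hVm' := mean_eq q hq3 A X hA hX0 (fun x => Vc x q c)
      have hV1' : 2 - 1 / A - A / 3 + 2 * (1 - 1) - e ≤
          mean q A X (fun x => Vc x q c) := by
        rw [hVm']
        refine RB2_div hA hL he0 ?_
        have h5 := h2 c hc hc1 _ _ hw0 hwL hws hsB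
        linarith
      refine ⟨by linarith, ?_⟩
      obtain ⟨x, hx1, hx2, hx3⟩ := exists_point q hq3 A X (2 - 1 / A - A / 3 - ε)
        (2 - 1 / A - A / 3 - ε / 2) hA hX (fun x => Vc x q c) hVnn'
        (integrable_Vc_window q c hc _ _ h1X) (by linarith) (by linarith)
      obtain ⟨a, ha, hax⟩ := Vc_point q hq3 c x _ hx3
      refine ⟨x, a, hx1, hx2, ha, ?_⟩
      rw [← mul_div_assoc, mul_assoc]
      exact hax
  · intro A X hA hX hXB
    have hA0 : 0 < A := by linarith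
    obtain ⟨hX0, hws, hsB, h1X⟩ := RB2_log hq3 hβε hX hXB
    have hwL : Real.log q ≤ A * Real.log q := by nlinarith
    have h5 := RB2_div2 hA hL he0 (h3 _ _ hwL hws hsB)
    rw [← excess_eq q hq3 A hA, ← mean_eq q hq3 A X hA0 hX0 (fun x => V x q)] at h5
    linarith
  · intro c hc0 hc1
    have h5 := h4 c hc0 hc1
    have h6 : goodCount q β c ≤ Set.ncard {χ : DirichletCharacter ℂ q |
        ∀ X : ℝ, (q : ℝ) ≤ X → X * q ≤ Real.exp (Real.log q ^ (3 / 2 - ε)) →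
          c ≤ mean q 1 X (fun x => ‖psiC χ x‖ ^ 2)} := by
      refine Set.ncard_le_ncard ?_ (Set.toFinite _)
      intro χ hχ X hX hXB
      have e1 : (q : ℝ) ^ (1 : ℝ) = q := Real.rpow_one _
      obtain ⟨hX0, hws, hsB, h1X⟩ := RB2_log (A := 1) (X := X) hq3 hβε
        (by rw [e1]; exact hX) (by rw [e1]; exact hXB)
      rw [one_mul] at hws hsB
      have h7 := hχ (Real.log X) hws hsB
      rw [mean_eq q hq3 1 X one_pos hX0, one_mul, one_pow, one_mul, le_div_iff₀ (by positivity)]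
      exact h7
    have h7 : (goodCount q β c : ℝ) ≤ (Set.ncard {χ : DirichletCharacter ℂ q |
        ∀ X : ℝ, (q : ℝ) ≤ X → X * q ≤ Real.exp (Real.log q ^ (3 / 2 - ε)) →
          c ≤ mean q 1 X (fun x => ‖psiC χ x‖ ^ 2)} : ℝ) := by exact_mod_cast h6
    refine le_trans (mul_le_mul_of_nonneg_right ?_ (Nat.cast_nonneg _)) (h5.trans h7)
    linarith

end Pool.Agent.SW
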