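import Pool.Agent.Lib.MP_9cfc0a_nt.Mg.G015
import Pool.Agent.Lib.MP_9cfc0a_nt.Mg.G057

set_option autoImplicit false

/-! Task NE: the near part. -/

namespace Pool.Agent.SW

open Complex MeasureTheory
open Pool.Agent.EM (psiC V psi)

/-- NE1. PROOF. As `psi_weighted` in SD/VD.lean (copy it), with the real number `z` in place of `q` and `v(x) = (Y - log x) log x`: `v 1 = 0`, `|v z| ≤ Y log z`, `|v'(x)| = |Y - 2 log x|/x ≤ Y/x` on `[1, z]`,
`∫_1^z v(x) dx/x = Y (log z)²/2 - (log z)³/3`; the error is at most `2 C Y log z` with the `C` of `mertens_int`. -/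
theorem psi_near : ∃ C : ℝ, 0 ≤ C ∧ ∀ z : ℝ, 1 ≤ z → ∀ Y : ℝ, Real.log z ≤ Y →
    ∫ x in Set.Ioc (1 : ℝ) z, (Y - Real.log x) * (Chebyshev.psi x * Real.log x / x ^ 2) ≤
      Y * Real.log z ^ 2 / 2 - Real.log z ^ 3 / 3 + C * (Y * Real.log z) := by
  obtain ⟨C, hC0, hC⟩ := SD.mertens_int
  refine ⟨2 * C, by positivity, fun z hz1 Y hY => ?_⟩
  set L := Real.log z with hLdef
  have hL0 : 0 ≤ L := Real.log_nonneg hz1
  have hY0 : 0 ≤ Y := hL0.trans hY
  set g : ℝ → ℝ := fun t => Chebyshev.psi t / t ^ 2 with hg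
  have hne : ∀ t ∈ Set.uIcc (1 : ℝ) z, t ≠ 0 := by
    intro t ht
    rw [Set.uIcc_of_le hz1] at ht
    linarith [ht.1]
  have hgi : ∀ b : ℝ, 1 ≤ b → IntervalIntegrable g volume 1 b := by
    intro b hb
    have h1 : IntervalIntegrable Chebyshev.psi volume 1 b := Chebyshev.psi_mono.intervalIntegrable
    have h2 : ContinuousOn (fun t : ℝ => (t ^ 2)⁻¹) (Set.uIcc 1 b) := by
      refine ContinuousOn.inv₀ (by fun_prop) fun t ht => ?_
      rw [Set.uIcc_of_le hb] at ht
      have : t ≠ 0 := by linarith [ht.1]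
      positivity
    have h3 := h1.mul_continuousOn h2
    simpa only [hg, div_eq_mul_inv] using h3
  set R : ℝ → ℝ := fun x => (∫ t in (1 : ℝ)..x, g t) - Real.log x with hR
  have hRC : ∀ x : ℝ, 1 ≤ x → |R x| ≤ C := fun x hx => hC x hx
  set v : ℝ → ℝ := fun x => (Y - Real.log x) * Real.log x with hv
  set v' : ℝ → ℝ := fun x => (Y - 2 * Real.log x) / x with hv'
  have hvd : ∀ x : ℝ, 0 < x → HasDerivAt v (v' x) x := by
    intro x hx
    have h1 := Real.hasDerivAt_log hx.ne'
    have h2 := (h1.const_sub Y).mul h1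
    have he : -x⁻¹ * Real.log x + (Y - Real.log x) * x⁻¹ = v' x := by
      rw [hv']
      field_simp
      ring
    rw [← he]
    exact h2
  have hgm : Measurable g := Chebyshev.psi_mono.measurable.div (measurable_id.pow_const 2)
  have hRd : ∀ x ∈ Set.Ioo (1 : ℝ) z \ Set.range (Nat.cast : ℕ → ℝ), HasDerivAt R (g x - 1 / x) x := by
    intro x hx
    have hx1 : 1 < x := hx.1.1
    have hx0 : 0 < x := by linarith
    have hcont : ContinuousAt g x := by
      have hfl : ((⌊x⌋₊ : ℕ) : ℝ) < x := by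
        refine lt_of_le_of_ne (Nat.floor_le hx0.le) fun h => hx.2 ⟨_, h⟩
      have hfl2 : x < (⌊x⌋₊ : ℝ) + 1 := Nat.lt_floor_add_one x
      have hmem : Set.Ioo ((⌊x⌋₊ : ℕ) : ℝ) ((⌊x⌋₊ : ℝ) + 1) ∈ nhds x := Ioo_mem_nhds hfl hfl2
      have hev : (fun _ : ℝ => Chebyshev.psi (⌊x⌋₊ : ℝ)) =ᶠ[nhds x] Chebyshev.psi := by
        filter_upwards [hmem] with y hy
        rw [Chebyshev.psi_eq_psi_coe_floor y]
        congr 2
        symm
        rw [Nat.floor_eq_iff (le_trans (Nat.cast_nonneg _) hy.1.le)]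
        exact ⟨hy.1.le, hy.2⟩
      have h1 : ContinuousAt Chebyshev.psi x := (continuousAt_const).congr hev
      exact h1.div (by fun_prop) (by positivity)
    have h1 := intervalIntegral.integral_hasDerivAt_right (hgi x hx1.le)
      (hgm.stronglyMeasurable.stronglyMeasurableAtFilter) hcont
    have h2 := h1.sub (Real.hasDerivAt_log hx0.ne')
    rw [one_div]
    exact h2
  have hlogc : ContinuousOn Real.log (Set.uIcc (1 : ℝ) z) := by
    refine Real.continuousOn_log.mono fun t ht => ?_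
    exact hne t ht
  have hvc : ContinuousOn v (Set.uIcc (1 : ℝ) z) := by
    rw [hv]
    exact (continuousOn_const.sub hlogc).mul hlogc
  have hv'c : ContinuousOn v' (Set.uIcc (1 : ℝ) z) := by
    rw [hv']
    exact (continuousOn_const.sub (continuousOn_const.mul hlogc)).div
      continuousOn_id hne
  have hRc : ContinuousOn R (Set.uIcc (1 : ℝ) z) := by
    rw [hR]
    exact (intervalIntegral.continuousOn_primitive_interval' (hgi z hz1)
      (Set.left_mem_uIcc)).sub hlogc
  have h1c : ContinuousOn (fun x : ℝ => 1 / x) (Set.uIcc (1 : ℝ) z) :=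
    continuousOn_const.div continuousOn_id hne
  have i1 : IntervalIntegrable (fun x => v' x * R x) volume 1 z :=
    (hv'c.mul hRc).intervalIntegrable
  have i2 : IntervalIntegrable (fun x => v x * (1 / x)) volume 1 z :=
    (hvc.mul h1c).intervalIntegrable
  have i3 : IntervalIntegrable (fun x => v x * g x) volume 1 z :=
    (hgi z hz1).continuousOn_mul hvc
  have i4 : IntervalIntegrable (fun x => v x * (g x - 1 / x)) volume 1 z := by
    have : (fun x => v x * (g x - 1 / x)) = fun x => v x * g x - v x * (1 / x) := by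
      funext x; ring
    rw [this]
    exact i3.sub i2
  -- integration by parts
  have hparts := MeasureTheory.integral_eq_of_hasDerivAt_off_countable_of_le (fun x => v x * R x)
    (fun x => v' x * R x + v x * (g x - 1 / x)) hz1 (s := Set.range (Nat.cast : ℕ → ℝ))
    (Set.countable_range _) (by
      have := hvc.mul hRc
      rwa [Set.uIcc_of_le hz1] at this)
    (fun x hx => (hvd x (by linarith [hx.1.1])).mul (hRd x hx)) (i1.add i4)
  rw [intervalIntegral.integral_add i1 i4] at hparts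
  have hv1 : v 1 = 0 := by rw [hv]; simp
  have e4 : ∫ x in (1 : ℝ)..z, v x * (g x - 1 / x) =
      (∫ x in (1 : ℝ)..z, v x * g x) - ∫ x in (1 : ℝ)..z, v x * (1 / x) := by
    rw [← intervalIntegral.integral_sub i3 i2]
    refine intervalIntegral.integral_congr fun x _ => ?_
    ring
  have e5 : ∫ x in (1 : ℝ)..z, v x * (1 / x) = Y * L ^ 2 / 2 - L ^ 3 / 3 := by
    have hG : ∀ x ∈ Set.uIcc (1 : ℝ) z, HasDerivAt
        (fun x => Y * (Real.log x ^ 2) / 2 - Real.log x ^ 3 / 3) (v x * (1 / x)) x := by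
      intro x hx
      have h1 := Real.hasDerivAt_log (hne x hx)
      have h2 := (((h1.pow 2).const_mul Y).div_const 2).sub ((h1.pow 3).div_const 3)
      have hx0 := hne x hx
      have he : (Y * (↑(2 : ℕ) * Real.log x ^ (2 - 1) * x⁻¹)) / 2 -
          (↑(3 : ℕ) * Real.log x ^ (3 - 1) * x⁻¹) / 3 = v x * (1 / x) := by
        rw [hv]
        push_cast
        field_simp
      rw [← he]
      exact h2
    rw [intervalIntegral.integral_eq_sub_of_hasDerivAt hG i2]
    simp [hLdef]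
  have e6 : |∫ x in (1 : ℝ)..z, v' x * R x| ≤ C * Y * L := by
    refine (intervalIntegral.abs_integral_le_integral_abs hz1).trans ?_
    have i5 : IntervalIntegrable (fun x : ℝ => (C * Y) * (1 / x)) volume 1 z :=
      (continuousOn_const.mul h1c).intervalIntegrable
    have h1 : ∫ x in (1 : ℝ)..z, |v' x * R x| ≤ ∫ x in (1 : ℝ)..z, (C * Y) * (1 / x) := by
      refine intervalIntegral.integral_mono_on hz1 i1.abs i5 fun x hx => ?_
      have hx1 := hx.1
      have hx0 : 0 < x := by linarith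
      have hlx0 : 0 ≤ Real.log x := Real.log_nonneg hx1
      have hlx1 : Real.log x ≤ Y := (Real.log_le_log hx0 hx.2).trans hY
      have hv'b : |v' x| ≤ Y / x := by
        rw [hv']
        simp only
        rw [abs_div, abs_of_pos hx0]
        refine div_le_div_of_nonneg_right ?_ hx0.le
        rw [abs_le]
        constructor <;> linarith
      rw [abs_mul]
      calc |v' x| * |R x| ≤ (Y / x) * C :=
            mul_le_mul hv'b (hRC x hx1) (abs_nonneg _) (by positivity)
        _ = (C * Y) * (1 / x) := by ring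
    refine h1.trans (le_of_eq ?_)
    rw [intervalIntegral.integral_const_mul, integral_one_div_of_pos one_pos (by linarith), div_one]
  have hvq : |v z * R z| ≤ (Y * L) * C := by
    rw [abs_mul]
    refine mul_le_mul ?_ (hRC z hz1) (abs_nonneg _) (by positivity)
    have h4 : v z = (Y - L) * L := rfl
    rw [h4, abs_of_nonneg (mul_nonneg (by linarith) (by linarith))]
    nlinarith
  have e7 : ∫ x in Set.Ioc (1 : ℝ) z, (Y - Real.log x) * (Chebyshev.psi x * Real.log x / x ^ 2) =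
      ∫ x in (1 : ℝ)..z, v x * g x := by
    rw [intervalIntegral.integral_of_le hz1]
    refine setIntegral_congr_fun measurableSet_Ioc fun x _ => ?_
    rw [hv, hg]
    simp only
    ring
  rw [e7]
  have h6 := abs_le.1 e6
  have h7 := abs_le.1 hvq
  simp only [hv1, zero_mul, sub_zero] at hparts
  linarith [h6.1, h6.2, h7.1, h7.2]

/-- The weight `Y - log x` on `[1, z]`. -/
private lemma NE_w {z Y : ℝ} (hY : Real.log z ≤ Y) {x : ℝ}
    (hx : x ∈ Set.Ioc (1 : ℝ) z) : 0 ≤ Y - Real.log x ∧ Y - Real.log x ≤ Y := by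
  have h1 : 0 ≤ Real.log x := Real.log_nonneg hx.1.le
  have h2 : Real.log x ≤ Y := (Real.log_le_log (by linarith [hx.1]) hx.2).trans hY
  constructor <;> linarith

private lemma NE_wi {z Y : ℝ} (hY : Real.log z ≤ Y) {f : ℝ → ℝ}
    (hf : IntegrableOn f (Set.Ioc (1 : ℝ) z)) :
    IntegrableOn (fun x => (Y - Real.log x) * f x) (Set.Ioc (1 : ℝ) z) := by
  have hwm : Measurable (fun x : ℝ => Y - Real.log x) := by fun_prop
  refine Integrable.bdd_mul (c := Y) hf hwm.aestronglyMeasurable ?_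
  refine (ae_restrict_iff' measurableSet_Ioc).mpr (Filter.Eventually.of_forall fun x hx => ?_)
  have h := NE_w hY hx
  rw [Real.norm_of_nonneg h.1]
  exact h.2

private lemma NE_psi {z : ℝ} (hz1 : 1 ≤ z) :
    IntegrableOn (fun x => Chebyshev.psi x * Real.log x / x ^ 2) (Set.Ioc (1 : ℝ) z) := by
  have h1 : IntervalIntegrable Chebyshev.psi volume 1 z := Chebyshev.psi_mono.intervalIntegrable
  have hne : ∀ t ∈ Set.uIcc (1 : ℝ) z, t ≠ 0 := by
    intro t ht
    rw [Set.uIcc_of_le hz1] at ht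
    linarith [ht.1]
  have h2 : ContinuousOn (fun t : ℝ => Real.log t * (t ^ 2)⁻¹) (Set.uIcc (1 : ℝ) z) := by
    refine (Real.continuousOn_log.mono fun t ht => hne t ht).mul ?_
    refine ContinuousOn.inv₀ (by fun_prop) fun t ht => ?_
    have := hne t ht
    positivity
  have h3 := h1.mul_continuousOn h2
  have h4 := (intervalIntegrable_iff_integrableOn_Ioc_of_le hz1).1 h3
  refine h4.congr_fun (fun x _ => ?_) measurableSet_Ioc
  simp only
  ring

/-- NE2. PROOF. `V_le` (SD/VC.lean), `psi_near`, and `∫_1^z (Y - log x)/φ(q) dx ≤ Y z/φ(q) ≤ Y q/φ(q) ≤ Y (1 + 2 log q) ≤ 3 Y log q` (`totient_log` in SD/VA.lean); see `V_initial` in SD/VD.lean. -/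
theorem V_near : ∃ C : ℝ, 0 ≤ C ∧ ∀ q : ℕ, 3 ≤ q → ∀ z : ℝ, 1 ≤ z → z ≤ q → ∀ Y : ℝ, Real.log z ≤ Y →
    ∫ x in Set.Ioc (1 : ℝ) z, (Y - Real.log x) * (V x q / x ^ 2) ≤
      Y * Real.log z ^ 2 / 2 - Real.log z ^ 3 / 3 + C * (Y * Real.log q) := by
  obtain ⟨C, hC0, hC⟩ := psi_near
  refine ⟨C + 3, by positivity, fun q hq z hz1 hzq Y hY => ?_⟩
  have h0 := hC z hz1 Y hY
  have hq3 : (3 : ℝ) ≤ q := by exact_mod_cast hq
  have hL0 : 0 ≤ Real.log z := Real.log_nonneg hz1
  have hY0 : 0 ≤ Y := hL0.trans hY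
  have hLq : Real.log z ≤ Real.log q := Real.log_le_log (by linarith) hzq
  have hL1 : 1 ≤ Real.log q := by
    rw [Real.le_log_iff_exp_le (by linarith)]
    exact Real.exp_one_lt_d9.le.trans (by linarith)
  have hφ : (0 : ℝ) < (q.totient : ℝ) := by
    exact_mod_cast Nat.totient_pos.2 (by omega)
  have iV : IntegrableOn (fun x => (Y - Real.log x) * (V x q / x ^ 2)) (Set.Ioc (1 : ℝ) z) :=
    NE_wi hY (Pool.Agent.EM.integrable_V_window q 1 z le_rfl)
  have iψw := NE_wi hY (NE_psi hz1)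
  have ic : IntegrableOn (fun _ : ℝ => 1 / (q.totient : ℝ)) (Set.Ioc (1 : ℝ) z) := by simp
  have icw := NE_wi hY ic
  have hsum : ∫ x in Set.Ioc (1 : ℝ) z, (Y - Real.log x) * (V x q / x ^ 2) ≤
      (∫ x in Set.Ioc (1 : ℝ) z, (Y - Real.log x) * (Chebyshev.psi x * Real.log x / x ^ 2)) +
      ∫ x in Set.Ioc (1 : ℝ) z, (Y - Real.log x) * (1 / (q.totient : ℝ)) := by
    rw [← integral_add iψw icw]
    refine setIntegral_mono_on iV (iψw.add icw) measurableSet_Ioc fun x hx => ?_
    have h1 := SD.V_le q (by omega) x hx.1.le (hx.2.trans hzq)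
    have h2 := NE_w hY hx
    have hx0 : 0 < x := by linarith [hx.1]
    show (Y - Real.log x) * (V x q / x ^ 2) ≤ (Y - Real.log x) *
      (Chebyshev.psi x * Real.log x / x ^ 2) + (Y - Real.log x) * (1 / (q.totient : ℝ))
    rw [← mul_add]
    refine mul_le_mul_of_nonneg_left ?_ h2.1
    calc V x q / x ^ 2 ≤ (Chebyshev.psi x * Real.log x + x ^ 2 / (q.totient : ℝ)) / x ^ 2 :=
          div_le_div_of_nonneg_right h1 (by positivity)
      _ = Chebyshev.psi x * Real.log x / x ^ 2 + 1 / (q.totient : ℝ) := by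
          field_simp
  have hc : ∫ x in Set.Ioc (1 : ℝ) z, (Y - Real.log x) * (1 / (q.totient : ℝ)) ≤
      3 * (Y * Real.log q) := by
    have h1 : ∫ x in Set.Ioc (1 : ℝ) z, (Y - Real.log x) * (1 / (q.totient : ℝ)) ≤
        ∫ _x in Set.Ioc (1 : ℝ) z, Y * (1 / (q.totient : ℝ)) := by
      have ic2 : IntegrableOn (fun _ : ℝ => Y * (1 / (q.totient : ℝ))) (Set.Ioc (1 : ℝ) z) :=
        ic.const_mul Y
      refine setIntegral_mono_on icw ic2 measurableSet_Ioc fun x hx => ?_
      have h2 := NE_w hY hx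
      have h3 : 0 ≤ 1 / (q.totient : ℝ) := by positivity
      exact mul_le_mul_of_nonneg_right h2.2 h3
    refine h1.trans ?_
    rw [setIntegral_const]
    simp only [Measure.real, Real.volume_Ioc, smul_eq_mul]
    rw [ENNReal.toReal_ofReal (by linarith)]
    have h4 := SD.totient_log q (by omega)
    have h5 : (z - 1) * (1 / (q.totient : ℝ)) ≤ 3 * Real.log q := by
      rw [mul_one_div, div_le_iff₀ hφ]
      nlinarith
    calc (z - 1) * (Y * (1 / (q.totient : ℝ))) = Y * ((z - 1) * (1 / (q.totient : ℝ))) := by ring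
      _ ≤ Y * (3 * Real.log q) := mul_le_mul_of_nonneg_left h5 hY0
      _ = 3 * (Y * Real.log q) := by ring
  have h8 : C * (Y * Real.log z) ≤ C * (Y * Real.log q) :=
    mul_le_mul_of_nonneg_left (mul_le_mul_of_nonneg_left hLq hY0) hC0
  linarith

/-- NE3. PROOF. `Vc_le`, `psi_near` (`log z ≤ log q`, `0 ≤ Y`). -/
theorem Vc_near : ∃ C : ℝ, 0 ≤ C ∧ ∀ (q : ℕ) [NeZero q], 3 ≤ q → ∀ c : ℕ, Nat.Coprime c q → ∀ z : ℝ, 1 ≤ z → z ≤ q →
    ∀ Y : ℝ, Real.log z ≤ Y →
    ∫ x in Set.Ioc (1 : ℝ) z, (Y - Real.log x) * (Vc x q c / x ^ 2) ≤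
      Y * Real.log z ^ 2 / 2 - Real.log z ^ 3 / 3 + C * (Y * Real.log q) := by
  obtain ⟨C, hC0, hC⟩ := psi_near
  refine ⟨C, hC0, fun q _ hq c hc z hz1 hzq Y hY => ?_⟩
  have h0 := hC z hz1 Y hY
  have hL0 : 0 ≤ Real.log z := Real.log_nonneg hz1
  have hY0 : 0 ≤ Y := hL0.trans hY
  have hLq : Real.log z ≤ Real.log q := Real.log_le_log (by linarith) hzq
  have iV : IntegrableOn (fun x => (Y - Real.log x) * (Vc x q c / x ^ 2)) (Set.Ioc (1 : ℝ) z) :=
    NE_wi hY (integrable_Vc_window q c hc 1 z le_rfl)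
  have iψw := NE_wi hY (NE_psi hz1)
  have hsum : ∫ x in Set.Ioc (1 : ℝ) z, (Y - Real.log x) * (Vc x q c / x ^ 2) ≤
      ∫ x in Set.Ioc (1 : ℝ) z, (Y - Real.log x) * (Chebyshev.psi x * Real.log x / x ^ 2) := by
    refine setIntegral_mono_on iV iψw measurableSet_Ioc fun x hx => ?_
    have h1 := Vc_le q (by omega) c hc x hx.1.le (hx.2.trans hzq)
    have h2 := NE_w hY hx
    have hx0 : 0 < x := by linarith [hx.1]
    exact mul_le_mul_of_nonneg_left (div_le_div_of_nonneg_right h1 (by positivity)) h2.1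
  have h8 : C * (Y * Real.log z) ≤ C * (Y * Real.log q) :=
    mul_le_mul_of_nonneg_left (mul_le_mul_of_nonneg_left hLq hY0) hC0
  linarith

end Pool.Agent.SW
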