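import Pool.Agent.Lib.MP_9cfc0a_nt.Mg.G012

set_option autoImplicit false

/-! Task KA, part 1: the key inequality for a finite measure on `[0, Y]` in place of Lebesgue measure on the interval. -/

namespace Pool.Agent.SW

open Complex MeasureTheory
open scoped ComplexConjugate

/-- continuous functions are integrable -/
theorem KA_int {E : Type*} [NormedAddCommGroup E] (μ : Measure ℝ) [IsFiniteMeasure μ] (Y : ℝ)
    (hμ : μ (Set.Icc 0 Y)ᶜ = 0) (g : ℝ → E) (hg : Continuous g) : Integrable g μ := by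
  have h1 : IntegrableOn g (Set.Icc 0 Y) μ := hg.integrableOn_Icc
  have h2 : μ.restrict (Set.Icc 0 Y) = μ := by
    refine Measure.restrict_eq_self_of_ae_mem ?_
    rw [ae_iff]
    exact hμ
  rw [IntegrableOn, h2] at h1
  exact h1

/-- parametric integrals are continuous -/
theorem KA_par {E : Type*} [NormedAddCommGroup E] [NormedSpace ℝ E] (μ : Measure ℝ) [IsFiniteMeasure μ] (Y : ℝ)
    (hμ : μ (Set.Icc 0 Y)ᶜ = 0) (f : ℝ → ℝ → E) (hf : Continuous f.uncurry) :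
    Continuous fun s => ∫ s', f s s' ∂μ := by
  have h2 : μ.restrict (Set.Icc 0 Y) = μ := by
    refine Measure.restrict_eq_self_of_ae_mem ?_
    rw [ae_iff]
    exact hμ
  have h := continuous_parametric_integral_of_continuous (μ := μ) hf (isCompact_Icc : IsCompact (Set.Icc (0 : ℝ) Y))
  rw [h2] at h
  exact h

theorem KA_memLp (μ : Measure ℝ) [IsFiniteMeasure μ] (Y : ℝ) (hμ : μ (Set.Icc 0 Y)ᶜ = 0) (g : ℝ → ℂ)
    (hg : Continuous g) : MemLp g 2 μ := by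
  rw [memLp_two_iff_integrable_sq_norm hg.aestronglyMeasurable]
  exact KA_int μ Y hμ _ (by fun_prop : Continuous fun x => ‖g x‖ ^ 2)

noncomputable def ctm (μ : Measure ℝ) [IsFiniteMeasure μ] (Y : ℝ) (hμ : μ (Set.Icc 0 Y)ᶜ = 0) (g : ℝ → ℂ)
    (hg : Continuous g) : Lp ℂ 2 μ := (KA_memLp μ Y hμ g hg).toLp g

theorem inner_ctm (μ : Measure ℝ) [IsFiniteMeasure μ] (Y : ℝ) (hμ : μ (Set.Icc 0 Y)ᶜ = 0) (f g : ℝ → ℂ)
    (hf : Continuous f) (hg : Continuous g) :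
    inner ℂ (ctm μ Y hμ f hf) (ctm μ Y hμ g hg) = ∫ s, conj (f s) * g s ∂μ := by
  rw [L2.inner_def]
  refine integral_congr_ae ?_
  filter_upwards [(KA_memLp μ Y hμ f hf).coeFn_toLp, (KA_memLp μ Y hμ g hg).coeFn_toLp] with s h1 h2
  show inner ℂ ((ctm μ Y hμ f hf) s) ((ctm μ Y hμ g hg) s) = _
  unfold ctm
  rw [h1, h2, RCLike.inner_apply']

theorem norm_sq_ctm (μ : Measure ℝ) [IsFiniteMeasure μ] (Y : ℝ) (hμ : μ (Set.Icc 0 Y)ᶜ = 0) (f : ℝ → ℂ)
    (hf : Continuous f) : ‖ctm μ Y hμ f hf‖ ^ 2 = ∫ s, ‖f s‖ ^ 2 ∂μ := by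
  have h := inner_self_eq_norm_sq_to_K (𝕜 := ℂ) (ctm μ Y hμ f hf)
  rw [inner_ctm μ Y hμ] at h
  have h2 : ∫ s, conj (f s) * f s ∂μ = ((∫ s, ‖f s‖ ^ 2 ∂μ : ℝ) : ℂ) := by
    rw [← integral_complex_ofReal]
    refine integral_congr_ae (Filter.Eventually.of_forall fun s => ?_)
    show conj (f s) * f s = ((‖f s‖ ^ 2 : ℝ) : ℂ)
    rw [Complex.conj_mul']
    push_cast
    rfl
  rw [h2] at h
  have h3 : ((∫ s, ‖f s‖ ^ 2 ∂μ : ℝ) : ℂ) = ((‖ctm μ Y hμ f hf‖ ^ 2 : ℝ) : ℂ) := by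
    rw [h]; push_cast; rfl
  exact (Complex.ofReal_injective h3).symm

theorem ctm_congr (μ : Measure ℝ) [IsFiniteMeasure μ] (Y : ℝ) (hμ : μ (Set.Icc 0 Y)ᶜ = 0) {f g : ℝ → ℂ}
    (hf : Continuous f) (hg : Continuous g) (h : ∀ s, f s = g s) : ctm μ Y hμ f hf = ctm μ Y hμ g hg := by
  have : f = g := funext h
  subst this
  rfl

theorem ctm_zero (μ : Measure ℝ) [IsFiniteMeasure μ] (Y : ℝ) (hμ : μ (Set.Icc 0 Y)ᶜ = 0) :
    ctm μ Y hμ (fun _ => 0) continuous_const = 0 := by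
  unfold ctm
  exact MemLp.toLp_zero _

theorem ctm_add (μ : Measure ℝ) [IsFiniteMeasure μ] (Y : ℝ) (hμ : μ (Set.Icc 0 Y)ᶜ = 0) (f g : ℝ → ℂ)
    (hf : Continuous f) (hg : Continuous g) :
    ctm μ Y hμ (fun s => f s + g s) (hf.add hg) = ctm μ Y hμ f hf + ctm μ Y hμ g hg := by
  unfold ctm
  exact MemLp.toLp_add _ _

theorem ctm_smul (μ : Measure ℝ) [IsFiniteMeasure μ] (Y : ℝ) (hμ : μ (Set.Icc 0 Y)ᶜ = 0) (a : ℂ) (f : ℝ → ℂ)
    (hf : Continuous f) :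
    ctm μ Y hμ (fun s => a * f s) (continuous_const.mul hf) = a • ctm μ Y hμ f hf := by
  unfold ctm
  exact MemLp.toLp_const_smul a _

theorem ctm_sum {ι : Type*} (μ : Measure ℝ) [IsFiniteMeasure μ] (Y : ℝ) (hμ : μ (Set.Icc 0 Y)ᶜ = 0) (S : Finset ι)
    (a : ι → ℂ) (f : ι → ℝ → ℂ) (hf : ∀ i, Continuous (f i)) :
    ctm μ Y hμ (fun s => ∑ i ∈ S, a i * f i s) (continuous_finsetSum _ fun i _ => continuous_const.mul (hf i))
      = ∑ i ∈ S, a i • ctm μ Y hμ (f i) (hf i) := by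
  classical
  induction S using Finset.induction_on with
  | empty =>
    rw [Finset.sum_empty, ← ctm_zero μ Y hμ]
    exact ctm_congr _ _ _ _ _ fun s => by simp
  | insert j S hj ih =>
    rw [Finset.sum_insert hj, ← ih, ← ctm_smul, ← ctm_add]
    exact ctm_congr _ _ _ _ _ fun s => by rw [Finset.sum_insert hj]

/-- An orthonormal system of exponential sums which spans the exponentials. -/
theorem KA_basis (μ : Measure ℝ) [IsFiniteMeasure μ] (Y : ℝ) (hμ : μ (Set.Icc 0 Y)ᶜ = 0) (S : Finset ℂ) :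
    ∃ (r : ℕ) (e : Fin r → ℝ → ℂ),
    r ≤ S.card ∧ (∀ i, Continuous (e i)) ∧
    (∀ i, ∫ s, ‖e i s‖ ^ 2 ∂μ = 1) ∧
    (∀ g : ℝ → ℂ, Continuous g →
      ∑ i, ‖∫ s, g s * e i s ∂μ‖ ^ 2 ≤ ∫ s, ‖g s‖ ^ 2 ∂μ) ∧
    (∀ z ∈ S, ∀ g : ℝ → ℂ, Continuous g →
      ∑ i, (∫ s, g s * e i s ∂μ) * (∫ s, conj (e i s) * exp (z * s) ∂μ) =
        ∫ s, g s * exp (z * s) ∂μ) := by
  classical
  have hcu : ∀ z : ℂ, Continuous fun s : ℝ => exp (z * s) := fun z => by fun_prop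
  set u : ℂ → Lp ℂ 2 μ := fun z => ctm μ Y hμ _ (hcu z) with hu
  set W := Submodule.span ℂ (((S.image u : Finset _)) : Set (Lp ℂ 2 μ)) with hW
  have : FiniteDimensional ℂ W := FiniteDimensional.span_finset ℂ _
  set b := stdOrthonormalBasis ℂ W with hb
  have hex : ∀ i : Fin (Module.finrank ℂ W), ∃ (g : ℝ → ℂ) (hg : Continuous g),
      ctm μ Y hμ g hg = (b i : Lp ℂ 2 μ) := by
    intro i
    have hi : ((b i : W) : Lp ℂ 2 μ) ∈
        Submodule.span ℂ (((S.image u : Finset _)) : Set (Lp ℂ 2 μ)) := (b i).2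
    rw [Finset.coe_image, Submodule.mem_span_image_finset_iff_exists_fun] at hi
    obtain ⟨c, hc⟩ := hi
    refine ⟨fun s => ∑ z : S, c z * exp (z * s), by fun_prop, ?_⟩
    rw [← hc]
    exact ctm_sum μ Y hμ Finset.univ (fun z : S => c z) (fun (z : S) s => exp (z * s)) fun z => hcu z
  choose e he heb using hex
  have hon : Orthonormal ℂ (fun i => ((b i : W) : Lp ℂ 2 μ)) :=
    b.orthonormal.comp_linearIsometry W.subtypeₗᵢ
  have hinn : ∀ (i : Fin (Module.finrank ℂ W)) (g : ℝ → ℂ) (hg : Continuous g),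
      inner ℂ (ctm μ Y hμ (fun s => conj (g s)) (Complex.continuous_conj.comp hg))
        ((b i : W) : Lp ℂ 2 μ) = ∫ s, g s * e i s ∂μ := by
    intro i g hg
    rw [← heb i, inner_ctm μ Y hμ]
    refine integral_congr_ae (Filter.Eventually.of_forall fun s => ?_)
    show conj (conj (g s)) * e i s = _
    rw [Complex.conj_conj]
  refine ⟨Module.finrank ℂ W, e, ?_, he, ?_, ?_, ?_⟩
  · exact (finrank_span_finset_le_card (R := ℂ) (S.image u)).trans Finset.card_image_le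
  · intro i
    rw [← norm_sq_ctm μ Y hμ _ (he i), heb i, hon.1 i]
    norm_num
  · intro g hg
    have h1 := hon.sum_inner_products_le (ctm μ Y hμ (fun s => conj (g s)) (Complex.continuous_conj.comp hg))
      (s := Finset.univ)
    rw [norm_sq_ctm μ Y hμ] at h1
    refine le_trans (le_of_eq ?_) (h1.trans (le_of_eq ?_))
    · refine Finset.sum_congr rfl fun i _ => ?_
      rw [← hinn i g hg, ← norm_inner_symm]
    · refine integral_congr_ae (Filter.Eventually.of_forall fun s => ?_)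
      show ‖conj (g s)‖ ^ 2 = _
      rw [RCLike.norm_conj]
  · intro z hz g hg
    have hzW : u z ∈ W := Submodule.subset_span (by
      rw [Finset.coe_image]; exact Set.mem_image_of_mem u hz)
    have h1 := b.sum_repr' (⟨u z, hzW⟩ : W)
    have h2 : ∑ i, (inner ℂ (b i) (⟨u z, hzW⟩ : W)) •
        ((b i : W) : Lp ℂ 2 μ) = u z := by
      have := congrArg (fun x : W => (x : Lp ℂ 2 μ)) h1
      simpa using this
    have h3 := congrArg (fun x => inner ℂ (ctm μ Y hμ (fun s => conj (g s))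
      (Complex.continuous_conj.comp hg)) x) h2
    simp only [inner_sum, inner_smul_right] at h3
    have h4 : inner ℂ (ctm μ Y hμ (fun s => conj (g s)) (Complex.continuous_conj.comp hg)) (u z)
        = ∫ s, g s * exp (z * s) ∂μ := by
      rw [hu, inner_ctm μ Y hμ]
      refine integral_congr_ae (Filter.Eventually.of_forall fun s => ?_)
      show conj (conj (g s)) * _ = _
      rw [Complex.conj_conj]
    rw [← h4, ← h3]
    refine Finset.sum_congr rfl fun i _ => ?_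
    rw [hinn i g hg, mul_comm]
    congr 1
    have : (inner ℂ (b i) (⟨u z, hzW⟩ : W)) =
        inner ℂ ((b i : W) : Lp ℂ 2 μ) (u z) := rfl
    rw [this, ← heb i, hu, inner_ctm μ Y hμ]

/-- The operator with kernel `G (s - s')` applied to `e`. -/
noncomputable def KGm (μ : Measure ℝ) (G : ℝ → ℂ) (e : ℝ → ℂ) (s : ℝ) : ℂ := ∫ s', G (s - s') * e s' ∂μ

theorem KA_KGc (μ : Measure ℝ) [IsFiniteMeasure μ] (Y : ℝ) (hμ : μ (Set.Icc 0 Y)ᶜ = 0) (G : ℝ → ℂ)
    (hG : Continuous G) (e : ℝ → ℂ) (he : Continuous e) : Continuous (KGm μ G e) :=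
  KA_par μ Y hμ (fun s s' => G (s - s') * e s') (by
    show Continuous fun p : ℝ × ℝ => G (p.1 - p.2) * e p.2
    fun_prop)

theorem KA_rem (μ : Measure ℝ) [IsFiniteMeasure μ] (Y : ℝ) (hμ : μ (Set.Icc 0 Y)ᶜ = 0) (h : ℝ → ℂ)
    (hh : Continuous h) : ∫ s, (h s).re ∂μ = (∫ s, h s ∂μ).re :=
  Complex.reCLM.integral_comp_comm (KA_int μ Y hμ h hh)

theorem KA_congr {E : Type*} [NormedAddCommGroup E] [NormedSpace ℝ E] (μ : Measure ℝ) (f g : ℝ → E)
    (h : ∀ s, f s = g s) : ∫ s, f s ∂μ = ∫ s, g s ∂μ :=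
  integral_congr_ae (Filter.Eventually.of_forall h)

theorem KA_supp (μ : Measure ℝ) (Y : ℝ) (hμ : μ (Set.Icc 0 Y)ᶜ = 0) : ∀ᵐ s ∂μ, s ∈ Set.Icc 0 Y := by
  rw [ae_iff]
  exact hμ

/-- the `L¹` norm -/
theorem KA_l1 (μ : Measure ℝ) [IsFiniteMeasure μ] (Y : ℝ) (hμ : μ (Set.Icc 0 Y)ᶜ = 0) (hM : 0 < μ.real Set.univ)
    (e : ℝ → ℂ) (he : Continuous e)
    (h1 : ∫ s, ‖e s‖ ^ 2 ∂μ = 1) : ∫ s, ‖e s‖ ∂μ ≤ √(μ.real Set.univ) := by
  obtain ⟨M, hMM⟩ : ∃ M : ℝ, M = μ.real Set.univ := ⟨_, rfl⟩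
  rw [← hMM] at hM ⊢
  have hs : 0 < √M := Real.sqrt_pos.2 hM
  have hss : √M * √M = M := Real.mul_self_sqrt hM.le
  have h : ∫ s, ‖e s‖ ∂μ ≤ ∫ s, (1 / (2 * √M) + √M / 2 * ‖e s‖ ^ 2) ∂μ := by
    refine integral_mono (KA_int μ Y hμ _ he.norm)
      (KA_int μ Y hμ _ (by fun_prop : Continuous fun s => 1 / (2 * √M) + √M / 2 * ‖e s‖ ^ 2)) fun s => ?_
    show ‖e s‖ ≤ 1 / (2 * √M) + √M / 2 * ‖e s‖ ^ 2
    have h0 := sq_nonneg (1 - √M * ‖e s‖)
    have : ‖e s‖ = (2 * √M * ‖e s‖) / (2 * √M) := by field_simp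
    rw [this]
    have e2 : 1 / (2 * √M) + √M / 2 * ‖e s‖ ^ 2 = (1 + (√M * ‖e s‖) ^ 2) / (2 * √M) := by
      field_simp
    rw [show √M / 2 * ((2 * √M * ‖e s‖) / (2 * √M)) ^ 2 = √M / 2 * ‖e s‖ ^ 2 by
      congr 2; field_simp, e2]
    gcongr
    nlinarith
  refine h.trans (le_of_eq ?_)
  rw [integral_add (integrable_const _) (KA_int μ Y hμ _ (by fun_prop : Continuous fun s => √M / 2 * ‖e s‖ ^ 2)),
    integral_const_mul, h1, integral_const, smul_eq_mul, ← hMM]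
  have : M * (1 / (2 * √M)) = √M / 2 := by
    field_simp
    linarith
  rw [this]; ring

/-- the Hilbert-Schmidt inequality for a finite system -/
theorem KA_genm {ι : Type*} [Fintype ι] (μ : Measure ℝ) [IsFiniteMeasure μ] (Y : ℝ) (hμ : μ (Set.Icc 0 Y)ᶜ = 0)
    (M : ℝ) (G : ℝ → ℂ) (hG : Continuous G) (a : ι → ℝ → ℂ) (ha : ∀ i, Continuous (a i)) :
    2 * M * ∑ i, (∫ s, conj (a i s) * KGm μ G (a i) s ∂μ).re -
      M ^ 2 * ∑ i, ∑ j, ‖∫ s, conj (a i s) * a j s ∂μ‖ ^ 2 ≤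
      ∫ s, ∫ s', ‖G (s - s')‖ ^ 2 ∂μ ∂μ := by
  have hac : ∀ i, Continuous fun s => conj (a i s) := fun i => Complex.continuous_conj.comp (ha i)
  have hKG : ∀ i, Continuous (KGm μ G (a i)) := fun i => KA_KGc μ Y hμ G hG (a i) (ha i)
  have hA : Continuous fun s : ℝ => ∫ s', ‖G (s - s')‖ ^ 2 ∂μ :=
    KA_par μ Y hμ (fun s s' => ‖G (s - s')‖ ^ 2) (by
      show Continuous fun p : ℝ × ℝ => ‖G (p.1 - p.2)‖ ^ 2
      fun_prop)
  set g : ι → ι → ℂ := fun i j => ∫ s, conj (a i s) * a j s ∂μ with hg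
  -- the inner integral
  have hin : ∀ s : ℝ, ∫ s', ‖G (s - s') - M * ∑ i, a i s * conj (a i s')‖ ^ 2 ∂μ =
      (∫ s', ‖G (s - s')‖ ^ 2 ∂μ) - 2 * M * (∑ i, conj (a i s) * KGm μ G (a i) s).re +
        M ^ 2 * (∑ i, ∑ j, (a i s * conj (a j s)) * g i j).re := by
    intro s
    have h1 : ∀ s' : ℝ, ‖G (s - s') - M * ∑ i, a i s * conj (a i s')‖ ^ 2 =
        ‖G (s - s')‖ ^ 2 - 2 * M * (∑ i, conj (a i s) * (G (s - s') * a i s')).re +
          M ^ 2 * (∑ i, ∑ j, (a i s * conj (a j s)) * (conj (a i s') * a j s')).re :=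
      fun s' => SD.KA_expand M (G (s - s')) (fun i => a i s) (fun i => a i s')
    have c1 : Continuous fun s' : ℝ => ‖G (s - s')‖ ^ 2 := by fun_prop
    have c2 : Continuous fun s' : ℝ => ∑ i, conj (a i s) * (G (s - s') * a i s') := by
      refine continuous_finsetSum _ fun i _ => ?_
      have := ha i
      fun_prop
    have c3 : Continuous fun s' : ℝ => ∑ i, ∑ j, (a i s * conj (a j s)) * (conj (a i s') * a j s') := by
      refine continuous_finsetSum _ fun i _ => continuous_finsetSum _ fun j _ => ?_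
      have := ha j
      have := hac i
      fun_prop
    simp_rw [h1]
    rw [integral_add, integral_sub, integral_const_mul,
      integral_const_mul, KA_rem μ Y hμ _ c2, KA_rem μ Y hμ _ c3]
    · congr 1
      · congr 1
        congr 2
        rw [integral_finsetSum]
        · refine Finset.sum_congr rfl fun i _ => ?_
          rw [integral_const_mul]
          rfl
        · intro i _
          have := ha i
          exact KA_int μ Y hμ _ (by fun_prop : Continuous fun s' => conj (a i s) * (G (s - s') * a i s'))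
      · congr 2
        rw [integral_finsetSum]
        · refine Finset.sum_congr rfl fun i _ => ?_
          rw [integral_finsetSum]
          · refine Finset.sum_congr rfl fun j _ => ?_
            rw [integral_const_mul]
          · intro j _
            have := ha j
            have := hac i
            exact KA_int μ Y hμ _ (by fun_prop : Continuous fun s' => (a i s * conj (a j s)) * (conj (a i s') * a j s'))
        · intro i _
          refine KA_int μ Y hμ _ (continuous_finsetSum _ fun j _ => ?_ : Continuous fun s' => ∑ j, (a i s * conj (a j s)) * (conj (a i s') * a j s'))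
          have := ha j
          have := hac i
          fun_prop
    · exact KA_int μ Y hμ _ c1
    · exact KA_int μ Y hμ _ (continuous_const.mul (Complex.continuous_re.comp c2))
    · exact KA_int μ Y hμ _ (c1.sub (continuous_const.mul (Complex.continuous_re.comp c2)))
    · exact KA_int μ Y hμ _ (continuous_const.mul (Complex.continuous_re.comp c3))
  have hpos : 0 ≤ ∫ s, ∫ s', ‖G (s - s') - M * ∑ i, a i s * conj (a i s')‖ ^ 2 ∂μ ∂μ :=
    integral_nonneg fun s => integral_nonneg fun s' => by positivity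
  simp_rw [hin] at hpos
  have c2 : Continuous fun s : ℝ => ∑ i, conj (a i s) * KGm μ G (a i) s :=
    continuous_finsetSum _ fun i _ => (hac i).mul (hKG i)
  have c3 : Continuous fun s : ℝ => ∑ i, ∑ j, (a i s * conj (a j s)) * g i j :=
    continuous_finsetSum _ fun i _ => continuous_finsetSum _ fun j _ => ((ha i).mul (hac j)).mul continuous_const
  rw [integral_add, integral_sub, integral_const_mul,
      integral_const_mul, KA_rem μ Y hμ _ c2, KA_rem μ Y hμ _ c3] at hpos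
  · have e1 : (∫ s, ∑ i, conj (a i s) * KGm μ G (a i) s ∂μ).re =
        ∑ i, (∫ s, conj (a i s) * KGm μ G (a i) s ∂μ).re := by
      rw [integral_finsetSum, Complex.re_sum]
      intro i _
      exact KA_int μ Y hμ _ ((hac i).mul (hKG i))
    have e2 : (∫ s, ∑ i, ∑ j, (a i s * conj (a j s)) * g i j ∂μ).re =
        ∑ i, ∑ j, ‖∫ s, conj (a i s) * a j s ∂μ‖ ^ 2 := by
      rw [integral_finsetSum, Complex.re_sum]
      · refine Finset.sum_congr rfl fun i _ => ?_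
        rw [integral_finsetSum, Complex.re_sum]
        · refine Finset.sum_congr rfl fun j _ => ?_
          rw [integral_mul_const, SD.KA_normsq]
          congr 1
          rw [mul_comm]
          congr 1
          rw [← integral_conj]
          refine KA_congr μ _ _ fun s => ?_
          show a i s * conj (a j s) = conj (conj (a i s) * a j s)
          rw [map_mul, Complex.conj_conj]
        · intro j _
          exact KA_int μ Y hμ _ (((ha i).mul (hac j)).mul continuous_const)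
      · intro i _
        exact KA_int μ Y hμ _ (continuous_finsetSum _ fun j _ => ((ha i).mul (hac j)).mul continuous_const)
    rw [e1, e2] at hpos
    linarith
  · exact KA_int μ Y hμ _ hA
  · exact KA_int μ Y hμ _ (continuous_const.mul (Complex.continuous_re.comp c2))
  · exact KA_int μ Y hμ _ (hA.sub (continuous_const.mul (Complex.continuous_re.comp c2)))
  · exact KA_int μ Y hμ _ (continuous_const.mul (Complex.continuous_re.comp c3))

theorem KA_swapm (μ : Measure ℝ) (u v : ℝ → ℂ) :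
    ‖∫ s, conj (u s) * v s ∂μ‖ = ‖∫ s, conj (v s) * u s ∂μ‖ := by
  rw [← Complex.norm_conj, ← integral_conj]
  congr 1
  refine KA_congr μ _ _ fun s => ?_
  show conj (conj (u s) * v s) = conj (v s) * u s
  rw [map_mul, Complex.conj_conj]
  ring

theorem KA_two (μ : Measure ℝ) [IsFiniteMeasure μ] (Y : ℝ) (hμ : μ (Set.Icc 0 Y)ᶜ = 0)
    (M : ℝ) (G : ℝ → ℂ) (hG : Continuous G) (r₁ r₂ : ℕ) (e : Fin r₁ → ℝ → ℂ) (f : Fin r₂ → ℝ → ℂ)
    (he : ∀ i, Continuous (e i)) (hf : ∀ i, Continuous (f i))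
    (he1 : ∀ i, ∫ s, ‖e i s‖ ^ 2 ∂μ = 1) (hf1 : ∀ i, ∫ s, ‖f i s‖ ^ 2 ∂μ = 1)
    (hb1 : ∀ g : ℝ → ℂ, Continuous g →
      ∑ i, ‖∫ s, g s * e i s ∂μ‖ ^ 2 ≤ ∫ s, ‖g s‖ ^ 2 ∂μ)
    (hb2 : ∀ g : ℝ → ℂ, Continuous g →
      ∑ i, ‖∫ s, g s * f i s ∂μ‖ ^ 2 ≤ ∫ s, ‖g s‖ ^ 2 ∂μ) :
    2 * M * (∑ i, (∫ s, conj (e i s) * KGm μ G (e i) s ∂μ).re +
        ∑ i, (∫ s, conj (f i s) * KGm μ G (f i) s ∂μ).re) - M ^ 2 * ((r₁ : ℝ) + 3 * (r₂ : ℝ)) ≤
      ∫ s, ∫ s', ‖G (s - s')‖ ^ 2 ∂μ ∂μ := by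
  have h1 : ∀ i : Fin r₁ ⊕ Fin r₂, Continuous (Sum.elim e f i) := by
    rintro (i | i)
    · exact he i
    · exact hf i
  have hgen := KA_genm μ Y hμ M G hG (Sum.elim e f) h1
  simp only [Fintype.sum_sum_type, Sum.elim_inl, Sum.elim_inr] at hgen
  have hconj : ∀ (u : ℝ → ℂ), Continuous u → Continuous fun s => conj (u s) :=
    fun u hu => Complex.continuous_conj.comp hu
  have hn : ∀ (u : ℝ → ℂ), ∫ s, ‖conj (u s)‖ ^ 2 ∂μ = ∫ s, ‖u s‖ ^ 2 ∂μ := by
    intro u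
    refine KA_congr μ _ _ fun s => ?_
    show ‖conj (u s)‖ ^ 2 = ‖u s‖ ^ 2
    rw [Complex.norm_conj]
  have b1 : ∀ u : ℝ → ℂ, Continuous u → ∫ s, ‖u s‖ ^ 2 ∂μ = 1 →
      ∑ i, ‖∫ s, conj (u s) * e i s ∂μ‖ ^ 2 ≤ 1 := by
    intro u hu hu1
    have h := hb1 (fun s => conj (u s)) (hconj u hu)
    rw [hn u, hu1] at h
    exact h
  have b2 : ∀ u : ℝ → ℂ, Continuous u → ∫ s, ‖u s‖ ^ 2 ∂μ = 1 →
      ∑ i, ‖∫ s, conj (u s) * f i s ∂μ‖ ^ 2 ≤ 1 := by
    intro u hu hu1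
    have h := hb2 (fun s => conj (u s)) (hconj u hu)
    rw [hn u, hu1] at h
    exact h
  have c11 : ∑ i, ∑ j, ‖∫ s, conj (e i s) * e j s ∂μ‖ ^ 2 ≤ r₁ := by
    calc _ ≤ ∑ _i : Fin r₁, (1 : ℝ) := Finset.sum_le_sum fun i _ => b1 (e i) (he i) (he1 i)
      _ = r₁ := by simp
  have c21 : ∑ i, ∑ j, ‖∫ s, conj (f i s) * e j s ∂μ‖ ^ 2 ≤ r₂ := by
    calc _ ≤ ∑ _i : Fin r₂, (1 : ℝ) := Finset.sum_le_sum fun i _ => b1 (f i) (hf i) (hf1 i)
      _ = r₂ := by simp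
  have c22 : ∑ i, ∑ j, ‖∫ s, conj (f i s) * f j s ∂μ‖ ^ 2 ≤ r₂ := by
    calc _ ≤ ∑ _i : Fin r₂, (1 : ℝ) := Finset.sum_le_sum fun i _ => b2 (f i) (hf i) (hf1 i)
      _ = r₂ := by simp
  have c12 : ∑ i, ∑ j, ‖∫ s, conj (e i s) * f j s ∂μ‖ ^ 2 ≤ r₂ := by
    rw [Finset.sum_comm]
    have : ∑ j, ∑ i, ‖∫ s, conj (e i s) * f j s ∂μ‖ ^ 2 =
        ∑ j, ∑ i, ‖∫ s, conj (f j s) * e i s ∂μ‖ ^ 2 :=
      Finset.sum_congr rfl fun j _ => Finset.sum_congr rfl fun i _ => by rw [KA_swapm μ (e i) (f j)]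
    rw [this]
    exact c21
  have hY2 : 0 ≤ M ^ 2 := by positivity
  simp only [Finset.sum_add_distrib] at hgen
  have hsum : ∑ i, ∑ j, ‖∫ s, conj (e i s) * e j s ∂μ‖ ^ 2 +
      ∑ i, ∑ j, ‖∫ s, conj (e i s) * f j s ∂μ‖ ^ 2 +
      (∑ i, ∑ j, ‖∫ s, conj (f i s) * e j s ∂μ‖ ^ 2 +
      ∑ i, ∑ j, ‖∫ s, conj (f i s) * f j s ∂μ‖ ^ 2) ≤ (r₁ : ℝ) + 3 * r₂ := by
    linarith
  have := mul_le_mul_of_nonneg_left hsum hY2
  linarith

/-- The error for one function. -/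
theorem KA_err (μ : Measure ℝ) [IsFiniteMeasure μ] (Y : ℝ) (hμ : μ (Set.Icc 0 Y)ᶜ = 0)
    (hM : 0 < μ.real Set.univ) (η : ℝ) (hη : 0 ≤ η) (S : Finset ℂ) (c : ℂ → ℂ) (G : ℝ → ℂ) (hG : Continuous G)
    (hE : ∀ t : ℝ, |t| ≤ Y → ‖G t - ∑ z ∈ S, c z * exp (z * t)‖ ≤ η)
    (e : ℝ → ℂ) (he : Continuous e) (he1 : ∫ s, ‖e s‖ ^ 2 ∂μ = 1) :
    ‖(∫ s, conj (e s) * KGm μ G e s ∂μ) -
      ∑ z ∈ S, c z * ((∫ s, exp (-z * s) * e s ∂μ) * (∫ s, conj (e s) * exp (z * s) ∂μ))‖ ≤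
      η * μ.real Set.univ := by
  have h2 := he
  have h1 : Continuous (KGm μ G e) := KA_KGc μ Y hμ G hG e he
  have hl1 := KA_l1 μ Y hμ hM e he he1
  obtain ⟨M, hMM⟩ : ∃ M : ℝ, M = μ.real Set.univ := ⟨_, rfl⟩
  rw [← hMM] at hM hl1 ⊢
  set I : ℂ → ℂ := fun z => ∫ s, exp (-z * s) * e s ∂μ with hI
  set J : ℂ → ℂ := fun z => ∫ s, conj (e s) * exp (z * s) ∂μ with hJ
  show ‖(∫ s, conj (e s) * KGm μ G e s ∂μ) - ∑ z ∈ S, c z * (I z * J z)‖ ≤ η * M
  set D : ℝ → ℂ := fun s => KGm μ G e s - ∑ z ∈ S, c z * exp (z * s) * I z with hD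
  have hDb : ∀ s ∈ Set.Icc (0 : ℝ) Y, ‖D s‖ ≤ η * √M := by
    intro s hs
    have e1 : ∑ z ∈ S, c z * exp (z * s) * I z =
        ∫ s', (∑ z ∈ S, c z * exp (z * (s - s' : ℝ))) * e s' ∂μ := by
      have : ∀ s' : ℝ, (∑ z ∈ S, c z * exp (z * (s - s' : ℝ))) * e s' =
          ∑ z ∈ S, c z * exp (z * s) * (exp (-z * s') * e s') := by
        intro s'
        rw [Finset.sum_mul]
        refine Finset.sum_congr rfl fun z _ => ?_
        have : exp (z * (s - s' : ℝ)) = exp (z * s) * exp (-z * s') := by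
          rw [← exp_add]; congr 1; push_cast; ring
        rw [this]; ring
      rw [KA_congr μ _ _ this, integral_finsetSum]
      · refine Finset.sum_congr rfl fun z _ => ?_
        rw [integral_const_mul]
      · intro z _
        exact KA_int μ Y hμ _ (by fun_prop : Continuous fun s' : ℝ => c z * exp (z * s) * (exp (-z * s') * e s'))
    have e2 : D s = ∫ s', (G (s - s') - ∑ z ∈ S, c z * exp (z * (s - s' : ℝ))) * e s' ∂μ := by
      rw [hD]
      show (∫ s', G (s - s') * e s' ∂μ) - _ = _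
      rw [e1, ← integral_sub]
      · refine KA_congr μ _ _ fun s' => ?_
        show G (s - s') * e s' - _ * e s' = _
        ring
      · exact KA_int μ Y hμ _ (by fun_prop : Continuous fun s' => G (s - s') * e s')
      · exact KA_int μ Y hμ _ (by fun_prop : Continuous fun s' : ℝ => (∑ z ∈ S, c z * exp (z * (s - s' : ℝ))) * e s')
    rw [e2]
    calc ‖∫ s', (G (s - s') - ∑ z ∈ S, c z * exp (z * (s - s' : ℝ))) * e s' ∂μ‖
        ≤ ∫ s', η * ‖e s'‖ ∂μ := by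
          refine norm_integral_le_of_norm_le (KA_int μ Y hμ _ (by fun_prop : Continuous fun s' => η * ‖e s'‖)) ?_
          filter_upwards [KA_supp μ Y hμ] with s' hs'
          rw [norm_mul]
          gcongr
          refine hE _ ?_
          rw [abs_le]
          constructor <;> linarith [hs.1, hs.2, hs'.1, hs'.2]
      _ = η * ∫ s', ‖e s'‖ ∂μ := by rw [integral_const_mul]
      _ ≤ η * √M := by gcongr
  have e3 : ∑ z ∈ S, c z * (I z * J z) = ∫ s, conj (e s) * ∑ z ∈ S, c z * exp (z * s) * I z ∂μ := by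
    have : ∀ s : ℝ, conj (e s) * ∑ z ∈ S, c z * exp (z * s) * I z =
        ∑ z ∈ S, c z * I z * (conj (e s) * exp (z * s)) := by
      intro s
      rw [Finset.mul_sum]
      exact Finset.sum_congr rfl fun z _ => by ring
    rw [KA_congr μ _ _ this, integral_finsetSum]
    · refine Finset.sum_congr rfl fun z _ => ?_
      rw [integral_const_mul]
      ring
    · intro z _
      exact KA_int μ Y hμ _ (continuous_const.mul ((Complex.continuous_conj.comp h2).mul (by fun_prop)))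
  have hsumc : Continuous fun s : ℝ => ∑ z ∈ S, c z * exp (z * s) * I z := by fun_prop
  have hi1 : Integrable (fun s => conj (e s) * KGm μ G e s) μ :=
    KA_int μ Y hμ _ ((Complex.continuous_conj.comp h2).mul h1)
  have hi2 : Integrable (fun s : ℝ => conj (e s) * ∑ z ∈ S, c z * exp (z * s) * I z) μ :=
    KA_int μ Y hμ _ ((Complex.continuous_conj.comp h2).mul hsumc)
  rw [e3, ← integral_sub hi1 hi2]
  calc ‖∫ s, (conj (e s) * KGm μ G e s - conj (e s) * ∑ z ∈ S, c z * exp (z * s) * I z) ∂μ‖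
      ≤ ∫ s, ‖e s‖ * (η * √M) ∂μ := by
        refine norm_integral_le_of_norm_le
          (KA_int μ Y hμ _ (by fun_prop : Continuous fun s => ‖e s‖ * (η * √M))) ?_
        filter_upwards [KA_supp μ Y hμ] with s hs
        have : conj (e s) * KGm μ G e s - conj (e s) * ∑ z ∈ S, c z * exp (z * s) * I z
            = conj (e s) * D s := by rw [hD]; ring
        rw [this, norm_mul, RCLike.norm_conj]
        gcongr
        exact hDb s hs
    _ = (∫ s, ‖e s‖ ∂μ) * (η * √M) := by rw [integral_mul_const]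
    _ ≤ √M * (η * √M) := by gcongr
    _ = η * M := by rw [mul_left_comm, Real.mul_self_sqrt hM.le]

/-- The reflection `z ↦ -conj z` conjugates the product. -/
theorem KA_symm (μ : Measure ℝ) (e : ℝ → ℂ) (z : ℂ) :
    (∫ s : ℝ, exp (-(-(conj z)) * s) * e s ∂μ) * (∫ s : ℝ, conj (e s) * exp (-(conj z) * s) ∂μ) =
      conj ((∫ s : ℝ, exp (-z * s) * e s ∂μ) * (∫ s : ℝ, conj (e s) * exp (z * s) ∂μ)) := by
  have e1 : ∀ (w : ℂ) (s : ℝ), conj (exp (w * s)) = exp (conj w * s) := by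
    intro w s
    rw [← Complex.exp_conj, map_mul, Complex.conj_ofReal]
  rw [map_mul, ← integral_conj, ← integral_conj]
  have h1 : ∀ s : ℝ, conj (exp (-z * s) * e s) = conj (e s) * exp (-(conj z) * s) := by
    intro s
    rw [map_mul, e1, map_neg, mul_comm]
  have h2 : ∀ s : ℝ, conj (conj (e s) * exp (z * s)) = exp (-(-(conj z)) * s) * e s := by
    intro s
    rw [map_mul, e1, Complex.conj_conj, neg_neg, mul_comm]
  rw [KA_congr μ _ _ h1, KA_congr μ _ _ h2, mul_comm]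

/-- The trace of an exponential in the span. -/
theorem KA_trace (μ : Measure ℝ) [IsFiniteMeasure μ] (A : Finset ℂ) (r : ℕ) (e : Fin r → ℝ → ℂ)
    (hspan : ∀ z ∈ A, ∀ g : ℝ → ℂ, Continuous g →
      ∑ i, (∫ s, g s * e i s ∂μ) * (∫ s, conj (e i s) * exp (z * s) ∂μ) =
        ∫ s, g s * exp (z * s) ∂μ) (z : ℂ) (hz : z ∈ A ∨ -(conj z) ∈ A) :
    ∑ i, (∫ s, exp (-z * s) * e i s ∂μ) * (∫ s, conj (e i s) * exp (z * s) ∂μ) = ((μ.real Set.univ : ℝ) : ℂ) := by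
  have main : ∀ w ∈ A,
      ∑ i, (∫ s, exp (-w * s) * e i s ∂μ) * (∫ s, conj (e i s) * exp (w * s) ∂μ) =
        ((μ.real Set.univ : ℝ) : ℂ) := by
    intro w hw
    have := hspan w hw (fun s => exp (-w * s)) (by fun_prop)
    rw [this]
    have e4 : ∀ s : ℝ, exp (-w * s) * exp (w * s) = 1 := fun s => by
      rw [← exp_add]; simp
    rw [KA_congr μ _ _ e4, integral_const]
    simp
  rcases hz with hz | hz
  · exact main z hz
  · have h := main _ hz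
    have h2 := congrArg (starRingEnd ℂ) h
    rw [map_sum, Complex.conj_ofReal] at h2
    rw [← h2]
    refine Finset.sum_congr rfl fun i _ => ?_
    have h3 := KA_symm μ (e i) z
    rw [h3, Complex.conj_conj]

/-- On the line the product is a nonnegative real number. -/
theorem KA_line (μ : Measure ℝ) (e : ℝ → ℂ) (z : ℂ) (hz : z.re = 0) :
    (∫ s, exp (-z * s) * e s ∂μ) * (∫ s, conj (e s) * exp (z * s) ∂μ) =
      ((‖∫ s, conj (e s) * exp (z * s) ∂μ‖ ^ 2 : ℝ) : ℂ) := by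
  have hzc : conj z = -z := by
    apply Complex.ext <;> simp [hz]
  have e1 : ∀ s : ℝ, conj (conj (e s) * exp (z * s)) = exp (-z * s) * e s := by
    intro s
    rw [map_mul, Complex.conj_conj, ← Complex.exp_conj, map_mul, Complex.conj_ofReal, mul_comm, hzc]
  have h1 : (∫ s, exp (-z * s) * e s ∂μ) = conj (∫ s, conj (e s) * exp (z * s) ∂μ) := by
    rw [← integral_conj]
    exact (KA_congr μ _ _ e1).symm
  rw [h1, Complex.conj_mul']
  push_cast
  rfl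

theorem KA_sum (μ : Measure ℝ) [IsFiniteMeasure μ] (Y : ℝ) (hμ : μ (Set.Icc 0 Y)ᶜ = 0)
    (hM : 0 < μ.real Set.univ) (η : ℝ) (hη : 0 ≤ η) (S : Finset ℂ) (c : ℂ → ℂ) (G : ℝ → ℂ) (hG : Continuous G)
    (hE : ∀ t : ℝ, |t| ≤ Y → ‖G t - ∑ z ∈ S, c z * exp (z * t)‖ ≤ η) (r : ℕ)
    (e : Fin r → ℝ → ℂ) (he : ∀ i, Continuous (e i)) (he1 : ∀ i, ∫ s, ‖e i s‖ ^ 2 ∂μ = 1) :
    (∑ z ∈ S, c z * ∑ i, (∫ s, exp (-z * s) * e i s ∂μ) *
        (∫ s, conj (e i s) * exp (z * s) ∂μ)).re - (r : ℝ) * (η * μ.real Set.univ) ≤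
      ∑ i, (∫ s, conj (e i s) * KGm μ G (e i) s ∂μ).re := by
  have h1 : ∀ i : Fin r, (∑ z ∈ S, c z * ((∫ s, exp (-z * s) * e i s ∂μ) *
        (∫ s, conj (e i s) * exp (z * s) ∂μ))).re - η * μ.real Set.univ ≤
      (∫ s, conj (e i s) * KGm μ G (e i) s ∂μ).re := by
    intro i
    have h2 := KA_err μ Y hμ hM η hη S c G hG hE (e i) (he i) (he1 i)
    have h3 := (Complex.abs_re_le_norm _).trans h2
    rw [Complex.sub_re] at h3
    have h4 := (abs_le.1 h3).1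
    linarith
  have h5 := Finset.sum_le_sum (s := Finset.univ) fun i _ => h1 i
  rw [Finset.sum_sub_distrib, Finset.sum_const, Finset.card_univ, Fintype.card_fin, nsmul_eq_mul] at h5
  have h6 : (∑ z ∈ S, c z * ∑ i, (∫ s, exp (-z * s) * e i s ∂μ) *
        (∫ s, conj (e i s) * exp (z * s) ∂μ)).re =
      ∑ i, (∑ z ∈ S, c z * ((∫ s, exp (-z * s) * e i s ∂μ) *
        (∫ s, conj (e i s) * exp (z * s) ∂μ))).re := by
    rw [← Complex.re_sum, Finset.sum_comm]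
    congr 1
    exact Finset.sum_congr rfl fun z _ => Finset.mul_sum _ _ _
  rw [h6]
  exact h5

/-- The key inequality with two projections, `M = μ(ℝ)`. -/
theorem KA_key2 (μ : Measure ℝ) [IsFiniteMeasure μ] (Y : ℝ) (hY : 0 ≤ Y) (hμ : μ (Set.Icc 0 Y)ᶜ = 0)
    (hM : 0 < μ.real Set.univ) (η : ℝ) (S D : Finset ℂ) (hDS : D ⊆ S)
    (hS : ∀ z ∈ S, -(conj z) ∈ S) (hD : ∀ z ∈ D, -(conj z) ∈ D) (hre : ∀ z ∈ S, z ∉ D → z.re = 0)
    (c : ℂ → ℂ) (hc : ∀ z ∈ S, z ∉ D → 0 ≤ (c z).re) (G : ℝ → ℂ) (hG : Continuous G)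
    (hE : ∀ t : ℝ, |t| ≤ Y → ‖G t - ∑ z ∈ S, c z * exp (z * t)‖ ≤ η) :
    μ.real Set.univ ^ 2 * (2 * (∑ z ∈ S, c z).re + 2 * (∑ z ∈ D, c z).re -
        ((S.filter (fun z => 0 ≤ z.re)).card : ℝ) -
        3 * ((D.filter (fun z => 0 ≤ z.re)).card : ℝ) - 4 * η * (S.card : ℝ)) ≤
      ∫ s, ∫ s', ‖G (s - s')‖ ^ 2 ∂μ ∂μ := by
  classical
  have hη : 0 ≤ η := (norm_nonneg _).trans (hE 0 (by rw [abs_zero]; exact hY))
  obtain ⟨r₁, e, hr1, he, he1, heb, hes⟩ := KA_basis μ Y hμ (S.filter (fun z => 0 ≤ z.re))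
  obtain ⟨r₂, f, hr2, hf, hf1, hfb, hfs⟩ := KA_basis μ Y hμ (D.filter (fun z => 0 ≤ z.re))
  have hmemS : ∀ z ∈ S, z ∈ S.filter (fun z => 0 ≤ z.re) ∨ -(conj z) ∈ S.filter (fun z => 0 ≤ z.re) := by
    intro z hz
    rcases le_or_gt 0 z.re with h | h
    · exact Or.inl (Finset.mem_filter.2 ⟨hz, h⟩)
    · refine Or.inr (Finset.mem_filter.2 ⟨hS z hz, ?_⟩)
      rw [Complex.neg_re, Complex.conj_re]
      linarith
  have hmemD : ∀ z ∈ D, z ∈ D.filter (fun z => 0 ≤ z.re) ∨ -(conj z) ∈ D.filter (fun z => 0 ≤ z.re) := by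
    intro z hz
    rcases le_or_gt 0 z.re with h | h
    · exact Or.inl (Finset.mem_filter.2 ⟨hz, h⟩)
    · refine Or.inr (Finset.mem_filter.2 ⟨hD z hz, ?_⟩)
      rw [Complex.neg_re, Complex.conj_re]
      linarith
  have h1 := KA_sum μ Y hμ hM η hη S c G hG hE r₁ e he he1
  have h2 := KA_sum μ Y hμ hM η hη S c G hG hE r₂ f hf hf1
  obtain ⟨M, hMM⟩ : ∃ M : ℝ, M = μ.real Set.univ := ⟨_, rfl⟩
  have htr1 : ∀ z ∈ S, ∑ i, (∫ s, exp (-z * s) * e i s ∂μ) * (∫ s, conj (e i s) * exp (z * s) ∂μ) = (M : ℂ) := by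
    intro z hz
    rw [hMM]
    exact KA_trace μ _ r₁ e hes z (hmemS z hz)
  have htr2 : ∀ z ∈ D, ∑ i, (∫ s, exp (-z * s) * f i s ∂μ) * (∫ s, conj (f i s) * exp (z * s) ∂μ) = (M : ℂ) := by
    intro z hz
    rw [hMM]
    exact KA_trace μ _ r₂ f hfs z (hmemD z hz)
  rw [← hMM] at hM h1 h2 ⊢
  have h3 : (∑ z ∈ S, c z * ∑ i, (∫ s, exp (-z * s) * e i s ∂μ) *
        (∫ s, conj (e i s) * exp (z * s) ∂μ)).re = M * (∑ z ∈ S, c z).re := by
    have h4 : ∑ z ∈ S, c z * ∑ i, (∫ s, exp (-z * s) * e i s ∂μ) *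
        (∫ s, conj (e i s) * exp (z * s) ∂μ) = (M : ℂ) * ∑ z ∈ S, c z := by
      rw [Finset.mul_sum]
      refine Finset.sum_congr rfl fun z hz => ?_
      rw [htr1 z hz, mul_comm]
    rw [h4, Complex.re_ofReal_mul]
  have h5 : M * (∑ z ∈ D, c z).re ≤ (∑ z ∈ S, c z * ∑ i, (∫ s, exp (-z * s) * f i s ∂μ) *
        (∫ s, conj (f i s) * exp (z * s) ∂μ)).re := by
    rw [← Finset.sum_sdiff hDS, Complex.add_re]
    have h6 : (∑ z ∈ D, c z * ∑ i, (∫ s, exp (-z * s) * f i s ∂μ) *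
        (∫ s, conj (f i s) * exp (z * s) ∂μ)).re = M * (∑ z ∈ D, c z).re := by
      have h4 : ∑ z ∈ D, c z * ∑ i, (∫ s, exp (-z * s) * f i s ∂μ) *
          (∫ s, conj (f i s) * exp (z * s) ∂μ) = (M : ℂ) * ∑ z ∈ D, c z := by
        rw [Finset.mul_sum]
        refine Finset.sum_congr rfl fun z hz => ?_
        rw [htr2 z hz, mul_comm]
      rw [h4, Complex.re_ofReal_mul]
    have h7 : 0 ≤ (∑ z ∈ S \ D, c z * ∑ i, (∫ s, exp (-z * s) * f i s ∂μ) *
        (∫ s, conj (f i s) * exp (z * s) ∂μ)).re := by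
      rw [Complex.re_sum]
      refine Finset.sum_nonneg fun z hz => ?_
      obtain ⟨hzS, hzD⟩ := Finset.mem_sdiff.1 hz
      have h8 : ∑ i, (∫ s, exp (-z * s) * f i s ∂μ) *
          (∫ s, conj (f i s) * exp (z * s) ∂μ) =
          ((∑ i, ‖∫ s, conj (f i s) * exp (z * s) ∂μ‖ ^ 2 : ℝ) : ℂ) := by
        rw [Complex.ofReal_sum]
        exact Finset.sum_congr rfl fun i _ => KA_line μ (f i) z (hre z hzS hzD)
      rw [h8, mul_comm, Complex.re_ofReal_mul]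
      exact mul_nonneg (Finset.sum_nonneg fun i _ => sq_nonneg _) (hc z hzS hzD)
    linarith
  have h9 := KA_two μ Y hμ M G hG r₁ r₂ e f he hf he1 hf1 heb hfb
  rw [h3] at h1
  have hr1' : (r₁ : ℝ) ≤ ((S.filter (fun z => 0 ≤ z.re)).card : ℝ) := by exact_mod_cast hr1
  have hr2' : (r₂ : ℝ) ≤ ((D.filter (fun z => 0 ≤ z.re)).card : ℝ) := by exact_mod_cast hr2
  have hAS : ((S.filter (fun z => 0 ≤ z.re)).card : ℝ) ≤ (S.card : ℝ) := by
    exact_mod_cast Finset.card_filter_le _ _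
  have hBS : ((D.filter (fun z => 0 ≤ z.re)).card : ℝ) ≤ (S.card : ℝ) := by
    exact_mod_cast (Finset.card_filter_le _ _).trans (Finset.card_le_card hDS)
  obtain ⟨a, ha⟩ : ∃ a, a = ∑ i, (∫ s, conj (e i s) * KGm μ G (e i) s ∂μ).re := ⟨_, rfl⟩
  obtain ⟨b, hb⟩ : ∃ b, b = ∑ i, (∫ s, conj (f i s) * KGm μ G (f i) s ∂μ).re := ⟨_, rfl⟩
  obtain ⟨X, hX⟩ : ∃ X, X = ∫ s, ∫ s', ‖G (s - s')‖ ^ 2 ∂μ ∂μ := ⟨_, rfl⟩
  obtain ⟨CS, hCS⟩ : ∃ CS, CS = (∑ z ∈ S, c z).re := ⟨_, rfl⟩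
  obtain ⟨CD, hCD⟩ : ∃ CD, CD = (∑ z ∈ D, c z).re := ⟨_, rfl⟩
  rw [← ha, ← hCS] at h1
  rw [← hb] at h2
  rw [← hCD] at h5
  rw [← ha, ← hb, ← hX] at h9
  rw [← hCS, ← hCD, ← hX]
  have hηM : 0 ≤ η * M := mul_nonneg hη hM.le
  have h12 : (r₁ : ℝ) * (η * M) ≤ (S.card : ℝ) * (η * M) :=
    mul_le_mul_of_nonneg_right (hr1'.trans hAS) hηM
  have h13 : (r₂ : ℝ) * (η * M) ≤ (S.card : ℝ) * (η * M) :=
    mul_le_mul_of_nonneg_right (hr2'.trans hBS) hηM
  have h14 : M ^ 2 * (r₁ : ℝ) ≤ M ^ 2 * ((S.filter (fun z => 0 ≤ z.re)).card : ℝ) :=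
    mul_le_mul_of_nonneg_left hr1' (by positivity)
  have h15 : M ^ 2 * (r₂ : ℝ) ≤ M ^ 2 * ((D.filter (fun z => 0 ≤ z.re)).card : ℝ) :=
    mul_le_mul_of_nonneg_left hr2' (by positivity)
  have h16 : M * CS + M * CD - 2 * ((S.card : ℝ) * (η * M)) ≤ a + b := by linarith
  have h17 : 2 * M * (M * CS + M * CD - 2 * ((S.card : ℝ) * (η * M))) ≤ 2 * M * (a + b) :=
    mul_le_mul_of_nonneg_left h16 (by linarith)
  have h18 : 2 * M * (M * CS + M * CD - 2 * ((S.card : ℝ) * (η * M))) =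
      M ^ 2 * (2 * CS + 2 * CD - 4 * η * (S.card : ℝ)) := by ring
  linarith [h9, h14, h15, h17, h18]

/-- The key inequality with multiplicities. -/
theorem KA_key_mult (μ : Measure ℝ) [IsFiniteMeasure μ] (Y : ℝ) (hY : 0 ≤ Y) (hμ : μ (Set.Icc 0 Y)ᶜ = 0)
    (hM : 0 < μ.real Set.univ) (η : ℝ) (S : Finset ℂ) (hS : ∀ z ∈ S, -(conj z) ∈ S)
    (m : ℂ → ℝ) (hm : ∀ z ∈ S, m z = 1 ∨ 2 ≤ m z) (hms : ∀ z, m (-(conj z)) = m z)
    (c : ℂ → ℂ) (hc : ∀ z ∈ S, z.re = 0 → m z = 1 → 0 ≤ (c z).re ∧ (c z).re ≤ 1)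
    (G : ℝ → ℂ) (hG : Continuous G)
    (hE : ∀ t : ℝ, |t| ≤ Y → ‖G t - ∑ z ∈ S, c z * exp (z * t)‖ ≤ η) :
    μ.real Set.univ ^ 2 * (2 * (2 * (∑ z ∈ S, c z).re - ∑ z ∈ S, m z) -
        ((S.filter (fun z => z.re = 0 ∧ m z = 1)).card : ℝ) - 4 * η * (S.card : ℝ)) ≤
      ∫ s, ∫ s', ‖G (s - s')‖ ^ 2 ∂μ ∂μ := by
  have hre' : ∀ z : ℂ, (-(conj z)).re = -z.re := fun z => by simp
  have h1 := KA_key2 μ Y hY hμ hM η S (S.filter (fun z => ¬ (z.re = 0 ∧ m z = 1))) (Finset.filter_subset _ _) hS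
    (fun z hz => by
      rw [Finset.mem_filter] at hz ⊢
      refine ⟨hS z hz.1, fun h => hz.2 ⟨?_, ?_⟩⟩
      · have h0 := h.1
        rw [hre' z] at h0
        linarith
      · rw [← hms z]
        exact h.2)
    (fun z hz hz' => by
      rw [Finset.mem_filter] at hz'
      by_contra h0
      exact hz' ⟨hz, fun h => h0 h.1⟩)
    c
    (fun z hz hz' => by
      rw [Finset.mem_filter] at hz'
      have h0 : z.re = 0 ∧ m z = 1 := by
        by_contra h0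
        exact hz' ⟨hz, h0⟩
      exact (hc z hz h0.1 h0.2).1)
    G hG hE
  refine le_trans (mul_le_mul_of_nonneg_left ?_ (by positivity)) h1
  have h2 := SD.count2 S hS m hm hms
  have h3 := Finset.sum_filter_add_sum_filter_not S (fun z => z.re = 0 ∧ m z = 1) c
  have h4 : (∑ z ∈ S, c z).re = (∑ z ∈ S.filter (fun z => z.re = 0 ∧ m z = 1), c z).re +
      (∑ z ∈ S.filter (fun z => ¬ (z.re = 0 ∧ m z = 1)), c z).re := by
    rw [← h3, Complex.add_re]
  have h5 : (∑ z ∈ S.filter (fun z => z.re = 0 ∧ m z = 1), c z).re ≤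
      ((S.filter (fun z => z.re = 0 ∧ m z = 1)).card : ℝ) := by
    rw [Complex.re_sum]
    refine (Finset.sum_le_card_nsmul _ _ 1 ?_).trans ?_
    · intro z hz
      rw [Finset.mem_filter] at hz
      exact (hc z hz.1 hz.2.1 hz.2.2).2
    · rw [nsmul_eq_mul, mul_one]
  linarith

end Pool.Agent.SW
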